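import Mathlib

/-!
# Interacting self-avoiding walks and polygons as lists of lattice points

Basic definitions for MP_ff0a55_pr: adjacency, weights of finite vertex sets, self-avoiding walks
and closed self-avoiding walks as lists of vertices, and their weight sums.
-/

set_option autoImplicit false

open Finset Classical

namespace Pool.Agent.Lib.Pff0a55

/-- Lattice points. -/
abbrev Vtx (d : ℕ) := Fin d → ℤ

variable {d : ℕ}

/-- Nearest neighbours. -/
def Adj (x y : Vtx d) : Prop := ∑ i, |x i - y i| = 1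

/-- The unit vector of a step. -/
def uvec (s : Fin d × Bool) : Vtx d := fun i => if i = s.1 then (if s.2 then (1 : ℤ) else -1) else 0

lemma adj_comm {x y : Vtx d} : Adj x y ↔ Adj y x := by
  unfold Adj
  simp only [abs_sub_comm]

lemma Adj.symm {x y : Vtx d} (h : Adj x y) : Adj y x := adj_comm.mp h

lemma not_adj_self (x : Vtx d) : ¬ Adj x x := by simp [Adj]

lemma Adj.ne {x y : Vtx d} (h : Adj x y) : x ≠ y := by
  rintro rfl; exact not_adj_self _ h

lemma adj_add_right {x y v : Vtx d} : Adj (x + v) (y + v) ↔ Adj x y := by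
  simp [Adj]

lemma adj_add_left {x y v : Vtx d} : Adj (v + x) (v + y) ↔ Adj x y := by
  simp [Adj]

lemma sum_abs_uvec (s : Fin d × Bool) : ∑ i, |uvec s i| = 1 := by
  rw [Finset.sum_eq_single s.1]
  · unfold uvec; split_ifs <;> simp_all
  · intro b _ hb; simp [uvec, hb]
  · intro h; exact absurd (Finset.mem_univ _) h

lemma adj_uvec (x : Vtx d) (s : Fin d × Bool) : Adj x (x + uvec s) := by
  unfold Adj
  rw [← sum_abs_uvec s]
  apply Finset.sum_congr rfl
  intro i _
  simp only [Pi.add_apply]
  rw [← abs_neg]; congr 1; ring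

lemma exists_uvec_of_sum {v : Vtx d} (h : ∑ i, |v i| = 1) : ∃ s, v = uvec s := by
  have hex : ∃ i, v i ≠ 0 := by
    by_contra hcon
    push Not at hcon
    simp [hcon] at h
  obtain ⟨i, hi⟩ := hex
  have h1 : ∑ j, |v j| = |v i| + ∑ j ∈ Finset.univ.erase i, |v j| :=
    (Finset.add_sum_erase _ _ (Finset.mem_univ i)).symm
  have h2 : 0 ≤ ∑ j ∈ Finset.univ.erase i, |v j| := Finset.sum_nonneg fun _ _ => abs_nonneg _
  have h3 : 1 ≤ |v i| := Int.one_le_abs hi
  have h4 : ∑ j ∈ Finset.univ.erase i, |v j| = 0 := by omega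
  have h5 : |v i| = 1 := by omega
  have h6 : ∀ j, j ≠ i → v j = 0 := by
    intro j hj
    have := (Finset.sum_eq_zero_iff_of_nonneg (fun _ _ => abs_nonneg _)).mp h4 j
      (Finset.mem_erase.mpr ⟨hj, Finset.mem_univ _⟩)
    exact abs_eq_zero.mp this
  rcases (abs_eq (by norm_num : (0:ℤ) ≤ 1)).mp h5 with h7 | h7
  · refine ⟨(i, true), ?_⟩
    funext j
    by_cases hj : j = i
    · subst hj; simp [uvec, h7]
    · simp [uvec, hj, h6 j hj]
  · refine ⟨(i, false), ?_⟩
    funext j
    by_cases hj : j = i
    · subst hj; simp [uvec, h7]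
    · simp [uvec, hj, h6 j hj]

lemma adj_iff_exists {x y : Vtx d} : Adj x y ↔ ∃ s, y = x + uvec s := by
  constructor
  · intro h
    have : ∑ i, |(y - x) i| = 1 := by
      rw [← h]
      apply Finset.sum_congr rfl
      intro i _
      rw [Pi.sub_apply, abs_sub_comm]
    obtain ⟨s, hs⟩ := exists_uvec_of_sum this
    exact ⟨s, by rw [← hs]; abel⟩
  · rintro ⟨s, rfl⟩
    exact adj_uvec x s

lemma uvec_injective : Function.Injective (uvec (d := d)) := by
  rintro ⟨i, b⟩ ⟨j, c⟩ h
  have h1 := congrFun h i
  by_cases hij : i = j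
  · subst hij
    simp only [uvec, if_true] at h1
    cases b <;> cases c <;> simp_all
  · simp only [uvec, if_true, hij, if_false] at h1
    cases b <;> simp at h1

/-- The number of ordered adjacent pairs in a finite vertex set. -/
noncomputable def E (V : Finset (Vtx d)) : ℕ := ((V ×ˢ V).filter fun p => Adj p.1 p.2).card

/-- The weight `exp(β (number of edges of V - |V|))` of a finite vertex set. For the vertex set
of a closed self-avoiding walk this is `exp(β contacts)`, for a self-avoiding walk it is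
`exp(β (contacts - 1))`. -/
noncomputable def wt (β : ℝ) (V : Finset (Vtx d)) : ℝ :=
  Real.exp (β * ((E V : ℝ) / 2 - (V.card : ℝ)))

/-- Lists that are self-avoiding walks (consecutive vertices adjacent, no repetitions). -/
def IsSAW (L : List (Vtx d)) : Prop := L.Nodup ∧ L.IsChain Adj

/-- Closed self-avoiding walks: moreover the last vertex is adjacent to the first one. -/
def IsPoly (L : List (Vtx d)) : Prop :=
  L.Nodup ∧ L.IsChain Adj ∧ ∀ x ∈ L.head?, ∀ y ∈ L.getLast?, Adj y x

lemma wt_pos (β : ℝ) (V : Finset (Vtx d)) : 0 < wt β V := Real.exp_pos _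

end Pool.Agent.Lib.Pff0a55
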