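import Mathlib
import Pool.Agent.Lib.Pff0a55.Basic

/-!
# Counting contacts
-/

set_option autoImplicit false

open Finset Classical

namespace Pool.Agent.Lib.Pff0a55

variable {d : ℕ}

lemma E_image (v : ℕ → Vtx d) (N : ℕ)
    (hinj : ∀ a ∈ range N, ∀ b ∈ range N, v a = v b → a = b) :
    E ((range N).image v) = 2 * ((range N ×ˢ range N).filter
      (fun p : ℕ × ℕ => p.1 < p.2 ∧ Adj (v p.1) (v p.2))).card := by
  have h1 : E ((range N).image v) = ((range N ×ˢ range N).filter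
      (fun p : ℕ × ℕ => Adj (v p.1) (v p.2))).card := by
    unfold E
    symm
    apply Finset.card_bij (fun (p : ℕ × ℕ) _ => (v p.1, v p.2))
    · intro p hp
      simp only [Finset.mem_filter, Finset.mem_product] at hp ⊢
      exact ⟨⟨Finset.mem_image_of_mem _ hp.1.1, Finset.mem_image_of_mem _ hp.1.2⟩, hp.2⟩
    · intro p hp q hq h
      simp only [Finset.mem_filter, Finset.mem_product] at hp hq
      simp only [Prod.mk.injEq] at h
      exact Prod.ext (hinj _ hp.1.1 _ hq.1.1 h.1) (hinj _ hp.1.2 _ hq.1.2 h.2)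
    · rintro ⟨x, y⟩ hxy
      simp only [Finset.mem_filter, Finset.mem_product, Finset.mem_image] at hxy
      obtain ⟨⟨⟨a, ha, rfl⟩, ⟨b, hb, rfl⟩⟩, h⟩ := hxy
      exact ⟨(a, b), by simp only [Finset.mem_filter, Finset.mem_product]; exact ⟨⟨ha, hb⟩, h⟩, rfl⟩
  rw [h1]
  have h2 : ((range N ×ˢ range N).filter (fun p : ℕ × ℕ => Adj (v p.1) (v p.2))) =
      ((range N ×ˢ range N).filter (fun p : ℕ × ℕ => p.1 < p.2 ∧ Adj (v p.1) (v p.2))) ∪
      ((range N ×ˢ range N).filter (fun p : ℕ × ℕ => p.2 < p.1 ∧ Adj (v p.1) (v p.2))) := by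
    ext ⟨a, b⟩
    simp only [Finset.mem_filter, Finset.mem_union]
    constructor
    · rintro ⟨h, h'⟩
      rcases lt_trichotomy a b with hab | hab | hab
      · exact Or.inl ⟨h, hab, h'⟩
      · exact absurd (by rw [hab]) h'.ne
      · exact Or.inr ⟨h, hab, h'⟩
    · rintro (⟨h, _, h'⟩ | ⟨h, _, h'⟩) <;> exact ⟨h, h'⟩
  rw [h2, Finset.card_union_of_disjoint]
  · have h3 : ((range N ×ˢ range N).filter (fun p : ℕ × ℕ => p.2 < p.1 ∧ Adj (v p.1) (v p.2))).card
        = ((range N ×ˢ range N).filter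
          (fun p : ℕ × ℕ => p.1 < p.2 ∧ Adj (v p.1) (v p.2))).card := by
      apply Finset.card_bij (fun (p : ℕ × ℕ) _ => (p.2, p.1))
      · intro p hp
        simp only [Finset.mem_filter, Finset.mem_product] at hp ⊢
        exact ⟨⟨hp.1.2, hp.1.1⟩, hp.2.1, hp.2.2.symm⟩
      · intro p _ q _ h
        simp only [Prod.mk.injEq] at h
        exact Prod.ext h.2 h.1
      · rintro ⟨a, b⟩ hp
        simp only [Finset.mem_filter, Finset.mem_product] at hp
        exact ⟨(b, a), by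
          simp only [Finset.mem_filter, Finset.mem_product]
          exact ⟨⟨hp.1.2, hp.1.1⟩, hp.2.1, hp.2.2.symm⟩, rfl⟩
    rw [h3]; ring
  · rw [Finset.disjoint_left]
    intro p hp hq
    simp only [Finset.mem_filter] at hp hq
    omega

/-- Contacts of an open walk. -/
lemma two_mul_contacts (v : ℕ → Vtx d) (n : ℕ)
    (hinj : ∀ a ∈ range (n + 1), ∀ b ∈ range (n + 1), v a = v b → a = b)
    (hadj : ∀ a < n, Adj (v a) (v (a + 1))) :
    2 * ((range (n + 1) ×ˢ range (n + 1)).filter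
      (fun p : ℕ × ℕ => p.1 + 1 < p.2 ∧ Adj (v p.1) (v p.2))).card + 2 * n =
    E ((range (n + 1)).image v) := by
  rw [E_image v (n + 1) hinj]
  have h : ((range (n + 1) ×ˢ range (n + 1)).filter
      (fun p : ℕ × ℕ => p.1 < p.2 ∧ Adj (v p.1) (v p.2))) =
      ((range (n + 1) ×ˢ range (n + 1)).filter
        (fun p : ℕ × ℕ => p.1 + 1 < p.2 ∧ Adj (v p.1) (v p.2))) ∪
      (range n).image (fun a => (a, a + 1)) := by
    ext ⟨a, b⟩
    simp only [Finset.mem_filter, Finset.mem_union, Finset.mem_product, Finset.mem_range,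
      Finset.mem_image, Prod.mk.injEq]
    constructor
    · rintro ⟨⟨ha, hb⟩, hab, h⟩
      by_cases h' : a + 1 < b
      · exact Or.inl ⟨⟨ha, hb⟩, h', h⟩
      · exact Or.inr ⟨a, by omega, rfl, by omega⟩
    · rintro (⟨⟨ha, hb⟩, hab, h⟩ | ⟨c, hc, rfl, rfl⟩)
      · exact ⟨⟨ha, hb⟩, by omega, h⟩
      · exact ⟨⟨by omega, by omega⟩, by omega, hadj _ hc⟩
  rw [h, Finset.card_union_of_disjoint, Finset.card_image_of_injective, Finset.card_range]
  · ring
  · intro a b hab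
    simp only [Prod.mk.injEq] at hab
    exact hab.1
  · rw [Finset.disjoint_left]
    intro p hp hq
    simp only [Finset.mem_filter, Finset.mem_image] at hp hq
    obtain ⟨a, _, rfl⟩ := hq
    simp at hp

/-- Contacts of a closed walk. -/
lemma two_mul_contacts_closed (v : ℕ → Vtx d) (N : ℕ) (hN : 3 ≤ N)
    (hinj : ∀ a ∈ range N, ∀ b ∈ range N, v a = v b → a = b)
    (hadj : ∀ a, a + 1 < N → Adj (v a) (v (a + 1))) (hcl : Adj (v 0) (v (N - 1))) :
    2 * ((range N ×ˢ range N).filter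
      (fun p : ℕ × ℕ => p.1 + 1 < p.2 ∧ ¬ (p.1 = 0 ∧ p.2 + 1 = N) ∧ Adj (v p.1) (v p.2))).card +
        2 * N = E ((range N).image v) := by
  obtain ⟨n, rfl⟩ : ∃ n, N = n + 1 := ⟨N - 1, by omega⟩
  rw [← two_mul_contacts v n hinj (fun a ha => hadj a (by omega))]
  have h : ((range (n + 1) ×ˢ range (n + 1)).filter
      (fun p : ℕ × ℕ => p.1 + 1 < p.2 ∧ Adj (v p.1) (v p.2))) =
      ((range (n + 1) ×ˢ range (n + 1)).filter
        (fun p : ℕ × ℕ => p.1 + 1 < p.2 ∧ ¬ (p.1 = 0 ∧ p.2 + 1 = n + 1) ∧ Adj (v p.1) (v p.2))) ∪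
      {(0, n)} := by
    ext ⟨a, b⟩
    simp only [Finset.mem_filter, Finset.mem_union, Finset.mem_product, Finset.mem_range,
      Finset.mem_singleton, Prod.mk.injEq]
    constructor
    · rintro ⟨⟨ha, hb⟩, hab, h⟩
      by_cases h' : a = 0 ∧ b = n
      · exact Or.inr h'
      · exact Or.inl ⟨⟨ha, hb⟩, hab, by omega, h⟩
    · rintro (⟨⟨ha, hb⟩, hab, _, h⟩ | ⟨rfl, rfl⟩)
      · exact ⟨⟨ha, hb⟩, by omega, h⟩
      · exact ⟨⟨by omega, by omega⟩, by omega, by simpa using hcl⟩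
  rw [h, Finset.card_union_of_disjoint, Finset.card_singleton]
  · ring
  · rw [Finset.disjoint_singleton_right]
    simp

end Pool.Agent.Lib.Pff0a55
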