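import Mathlib
import Pool.Agent.Lib.Pff0a55.Count

/-!
# Step sequences and lists of vertices
-/

set_option autoImplicit false

open Finset Classical

namespace Pool.Agent.Lib.Pff0a55

variable {d : ℕ}

/-- Position after `t` steps. -/
def Pos {n : ℕ} (s : Fin n → Fin d × Bool) (t : ℕ) : Vtx d :=
  ∑ j ∈ Finset.univ.filter (fun j : Fin n => j.val < t), uvec (s j)

lemma Pos_zero {n : ℕ} (s : Fin n → Fin d × Bool) : Pos s 0 = 0 := by
  simp [Pos]

lemma Pos_succ {n : ℕ} (s : Fin n → Fin d × Bool) (t : ℕ) (ht : t < n) :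
    Pos s (t + 1) = Pos s t + uvec (s ⟨t, ht⟩) := by
  unfold Pos
  have h : Finset.univ.filter (fun j : Fin n => j.val < t + 1) =
      insert ⟨t, ht⟩ (Finset.univ.filter (fun j : Fin n => j.val < t)) := by
    ext j
    simp only [Finset.mem_filter, Finset.mem_univ, true_and, Finset.mem_insert, Fin.ext_iff]
    omega
  rw [h, Finset.sum_insert (by simp), add_comm]

/-- The list of the `n + 1` vertices of a step sequence. -/
def verts {n : ℕ} (s : Fin n → Fin d × Bool) : List (Vtx d) :=
  List.ofFn (fun t : Fin (n + 1) => Pos s t)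

/-- The list of the first `n` vertices of a step sequence. -/
def vertsC {n : ℕ} (s : Fin n → Fin d × Bool) : List (Vtx d) :=
  List.ofFn (fun t : Fin n => Pos s t)

lemma verts_length {n : ℕ} (s : Fin n → Fin d × Bool) : (verts s).length = n + 1 := by
  simp [verts]

lemma vertsC_length {n : ℕ} (s : Fin n → Fin d × Bool) : (vertsC s).length = n := by
  simp [vertsC]

lemma verts_head {n : ℕ} (s : Fin n → Fin d × Bool) : (verts s).head? = some 0 := by
  simp [verts, List.ofFn_succ, Pos_zero]

lemma verts_getElem {n : ℕ} (s : Fin n → Fin d × Bool) (t : ℕ) (ht : t < (verts s).length) :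
    (verts s)[t] = Pos s t := by
  simp only [verts, List.getElem_ofFn]

lemma vertsC_getElem {n : ℕ} (s : Fin n → Fin d × Bool) (t : ℕ) (ht : t < (vertsC s).length) :
    (vertsC s)[t] = Pos s t := by
  simp only [vertsC, List.getElem_ofFn]

lemma verts_toFinset {n : ℕ} (s : Fin n → Fin d × Bool) :
    (verts s).toFinset = (range (n + 1)).image (Pos s) := by
  ext x
  simp only [verts, List.mem_toFinset, List.mem_ofFn, Finset.mem_image, Finset.mem_range]
  constructor
  · rintro ⟨t, rfl⟩; exact ⟨t, t.2, rfl⟩
  · rintro ⟨t, ht, rfl⟩; exact ⟨⟨t, ht⟩, rfl⟩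

lemma vertsC_toFinset {n : ℕ} (s : Fin n → Fin d × Bool) :
    (vertsC s).toFinset = (range n).image (Pos s) := by
  ext x
  simp only [vertsC, List.mem_toFinset, List.mem_ofFn, Finset.mem_image, Finset.mem_range]
  constructor
  · rintro ⟨t, rfl⟩; exact ⟨t, t.2, rfl⟩
  · rintro ⟨t, ht, rfl⟩; exact ⟨⟨t, ht⟩, rfl⟩

lemma verts_chain {n : ℕ} (s : Fin n → Fin d × Bool) : (verts s).IsChain Adj := by
  rw [List.isChain_iff_getElem]
  intro i hi
  rw [verts_getElem, verts_getElem, Pos_succ s i (by rw [verts_length] at hi; omega)]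
  exact adj_uvec _ _

lemma vertsC_chain {n : ℕ} (s : Fin n → Fin d × Bool) : (vertsC s).IsChain Adj := by
  rw [List.isChain_iff_getElem]
  intro i hi
  rw [vertsC_getElem, vertsC_getElem, Pos_succ s i (by rw [vertsC_length] at hi; omega)]
  exact adj_uvec _ _

lemma verts_injective {n : ℕ} : Function.Injective (verts (d := d) (n := n)) := by
  intro s s' h
  funext ⟨t, ht⟩
  have h0 : ∀ t, t < n + 1 → Pos s t = Pos s' t := by
    intro t ht
    have h1 := verts_getElem s t (by rw [verts_length]; exact ht)
    have h2 := verts_getElem s' t (by rw [verts_length]; exact ht)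
    rw [← h1, ← h2]
    simp only [h]
  have h1 := h0 (t + 1) (by omega)
  rw [Pos_succ s t ht, Pos_succ s' t ht, h0 t (by omega)] at h1
  exact uvec_injective (add_left_cancel h1)

lemma exists_steps {n : ℕ} (v : ℕ → Vtx d) (h0 : v 0 = 0)
    (hadj : ∀ t, t < n → Adj (v t) (v (t + 1))) :
    ∃ s : Fin n → Fin d × Bool, ∀ t, t ≤ n → Pos s t = v t := by
  have hex : ∀ t : Fin n, ∃ u, v (t + 1) = v t + uvec u := fun t =>
    adj_iff_exists.mp (hadj t t.2)
  choose s hs using hex
  refine ⟨s, ?_⟩
  intro t
  induction t with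
  | zero => intro _; rw [Pos_zero, h0]
  | succ t ih =>
    intro ht
    rw [Pos_succ s t (by omega), ih (by omega), hs ⟨t, by omega⟩]

/-- All lattice paths with `n` steps from the origin, as lists. -/
noncomputable def chainF (d n : ℕ) : Finset (List (Vtx d)) :=
  (Finset.univ : Finset (Fin n → Fin d × Bool)).image verts

lemma mem_chainF {n : ℕ} {L : List (Vtx d)} :
    L ∈ chainF d n ↔ L.IsChain Adj ∧ L.length = n + 1 ∧ L.head? = some 0 := by
  unfold chainF
  rw [Finset.mem_image]
  constructor
  · rintro ⟨s, _, rfl⟩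
    exact ⟨verts_chain s, verts_length s, verts_head s⟩
  · rintro ⟨h1, h2, h3⟩
    obtain ⟨s, hs⟩ := exists_steps (n := n) (fun t => L.getD t 0)
      (by
        cases L with
        | nil => simp at h2
        | cons a L => simpa using h3)
      (by
        intro t ht
        rw [List.isChain_iff_getElem] at h1
        have := h1 t (by omega)
        rw [List.getD_eq_getElem _ _ (by omega : t < L.length),
          List.getD_eq_getElem _ _ (by omega : t + 1 < L.length)]
        exact this)
    refine ⟨s, Finset.mem_univ _, ?_⟩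
    apply List.ext_getElem
    · rw [verts_length, h2]
    · intro t ht1 ht2
      rw [verts_getElem, hs t (by omega), List.getD_eq_getElem _ _ ht2]

/-- Self-avoiding walks with `n` steps from the origin, as lists. -/
noncomputable def sawF (d n : ℕ) : Finset (List (Vtx d)) := (chainF d n).filter IsSAW

/-- Closed self-avoiding walks with `N` steps from the origin, as lists of `N` vertices. -/
noncomputable def polyF (d N : ℕ) : Finset (List (Vtx d)) :=
  (chainF d (N - 1)).filter (fun L => IsPoly L ∧ L.length = N)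

lemma mem_sawF {n : ℕ} {L : List (Vtx d)} :
    L ∈ sawF d n ↔ IsSAW L ∧ L.length = n + 1 ∧ L.head? = some 0 := by
  unfold sawF
  simp only [Finset.mem_filter, mem_chainF]
  unfold IsSAW
  tauto

lemma mem_polyF {N : ℕ} {L : List (Vtx d)} :
    L ∈ polyF d N ↔ IsPoly L ∧ L.length = N ∧ L.head? = some 0 := by
  unfold polyF
  simp only [Finset.mem_filter, mem_chainF]
  constructor
  · rintro ⟨⟨_, _, h3⟩, h4, h5⟩
    exact ⟨h4, h5, h3⟩
  · rintro ⟨h4, h5, h3⟩
    refine ⟨⟨h4.2.1, ?_, h3⟩, h4, h5⟩
    cases L with
    | nil => simp at h3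
    | cons a L => simp at h5 ⊢; omega

/-- Weight sum of the self-avoiding walks. -/
noncomputable def Zs (d : ℕ) (β : ℝ) (n : ℕ) : ℝ := ∑ L ∈ sawF d n, wt β L.toFinset

/-- Weight sum of the closed self-avoiding walks. -/
noncomputable def Cs (d : ℕ) (β : ℝ) (N : ℕ) : ℝ := ∑ L ∈ polyF d N, wt β L.toFinset

/-- The sum over self-avoiding step sequences in terms of lists. -/
lemma sum_saw_eq (β : ℝ) (n : ℕ) :
    ∑ s ∈ Finset.univ.filter (fun s : Fin n → Fin d × Bool =>
        ∀ a ∈ Finset.range (n + 1), ∀ b ∈ Finset.range (n + 1), Pos s a = Pos s b → a = b),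
      Real.exp (β * (((Finset.range (n + 1) ×ˢ Finset.range (n + 1)).filter
        (fun p : ℕ × ℕ => p.1 + 1 < p.2 ∧ ∑ i : Fin d, |Pos s p.1 i - Pos s p.2 i| = 1)).card : ℝ))
      = Real.exp β * Zs d β n := by
  unfold Zs
  rw [Finset.mul_sum]
  apply Finset.sum_bij (fun s _ => verts s)
  · intro s hs
    simp only [Finset.mem_filter] at hs
    rw [mem_sawF]
    refine ⟨⟨?_, verts_chain s⟩, verts_length s, verts_head s⟩
    unfold verts
    rw [List.nodup_ofFn]
    intro a b hab
    exact Fin.ext (hs.2 a (Finset.mem_range.mpr a.2) b (Finset.mem_range.mpr b.2) hab)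
  · intro s _ s' _ h
    exact verts_injective h
  · intro L hL
    rw [mem_sawF] at hL
    have hc : L ∈ chainF d n := mem_chainF.mpr ⟨hL.1.2, hL.2.1, hL.2.2⟩
    unfold chainF at hc
    rw [Finset.mem_image] at hc
    obtain ⟨s, _, rfl⟩ := hc
    refine ⟨s, ?_, rfl⟩
    simp only [Finset.mem_filter]
    refine ⟨Finset.mem_univ _, ?_⟩
    intro a ha b hb hab
    have h := hL.1.1
    unfold verts at h
    rw [List.nodup_ofFn] at h
    have := @h ⟨a, by simpa using ha⟩ ⟨b, by simpa using hb⟩ hab
    simpa using this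
  · intro s hs
    simp only [Finset.mem_filter] at hs
    have h := two_mul_contacts (Pos s) n hs.2
      (fun a ha => by rw [Pos_succ s a ha]; exact adj_uvec _ _)
    have hcard : ((range (n + 1)).image (Pos s)).card = n + 1 := by
      rw [Finset.card_image_of_injOn, Finset.card_range]
      intro a ha b hb hab
      exact hs.2 a (by simpa using ha) b (by simpa using hb) hab
    have hE : ((Finset.range (n + 1) ×ˢ Finset.range (n + 1)).filter
        (fun p : ℕ × ℕ => p.1 + 1 < p.2 ∧ ∑ i : Fin d, |Pos s p.1 i - Pos s p.2 i| = 1)).card =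
        ((range (n + 1) ×ˢ range (n + 1)).filter
        (fun p : ℕ × ℕ => p.1 + 1 < p.2 ∧ Adj (Pos s p.1) (Pos s p.2))).card := by
      apply Finset.card_bij (fun p _ => p) _ (fun _ _ _ _ h => h) _
      · intro p hp; simp only [Finset.mem_filter] at hp ⊢; exact hp
      · intro p hp; simp only [Finset.mem_filter] at hp; exact ⟨p, by simp only [Finset.mem_filter]; exact hp, rfl⟩
    unfold wt
    rw [verts_toFinset, hcard, ← h, ← Real.exp_add, hE]
    congr 1
    push_cast
    ring

/-- The sum over closed self-avoiding step sequences in terms of lists. -/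
lemma sum_poly_eq (β : ℝ) (N : ℕ) (hN : 3 ≤ N) :
    ∑ s ∈ Finset.univ.filter (fun s : Fin N → Fin d × Bool =>
        Pos s N = 0 ∧
        ∀ a ∈ Finset.range N, ∀ b ∈ Finset.range N, Pos s a = Pos s b → a = b),
      Real.exp (β * (((Finset.range N ×ˢ Finset.range N).filter
        (fun p : ℕ × ℕ => p.1 + 1 < p.2 ∧ ¬ (p.1 = 0 ∧ p.2 + 1 = N) ∧
          ∑ i : Fin d, |Pos s p.1 i - Pos s p.2 i| = 1)).card : ℝ))
      = Cs d β N := by
  have hlast : ∀ s : Fin N → Fin d × Bool, Pos s N = Pos s (N - 1) + uvec (s ⟨N - 1, by omega⟩) := by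
    intro s
    have := Pos_succ s (N - 1) (by omega)
    rwa [Nat.sub_add_cancel (by omega)] at this
  unfold Cs
  apply Finset.sum_bij (fun s _ => vertsC s)
  · intro s hs
    simp only [Finset.mem_filter] at hs
    rw [mem_polyF]
    refine ⟨⟨?_, vertsC_chain s, ?_⟩, vertsC_length s, ?_⟩
    · unfold vertsC
      rw [List.nodup_ofFn]
      intro a b hab
      exact Fin.ext (hs.2.2 a (Finset.mem_range.mpr a.2) b (Finset.mem_range.mpr b.2) hab)
    · intro x hx y hy
      rw [List.head?_eq_getElem?, List.getElem?_eq_getElem (by rw [vertsC_length]; omega)] at hx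
      rw [List.getLast?_eq_getElem?, List.getElem?_eq_getElem (by rw [vertsC_length]; omega)] at hy
      rw [Option.mem_some_iff, vertsC_getElem] at hx hy
      rw [← hx, ← hy, Pos_zero, ← hs.2.1, hlast, vertsC_length]
      exact adj_uvec _ _
    · rw [List.head?_eq_getElem?, List.getElem?_eq_getElem (by rw [vertsC_length]; omega),
        vertsC_getElem, Pos_zero]
  · intro s hs s' hs' h
    simp only [Finset.mem_filter] at hs hs'
    have h0 : ∀ t, t < N → Pos s t = Pos s' t := by
      intro t ht
      have h1 := vertsC_getElem s t (by rw [vertsC_length]; exact ht)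
      have h2 := vertsC_getElem s' t (by rw [vertsC_length]; exact ht)
      rw [← h1, ← h2]
      simp only [h]
    have h1 : ∀ t, t ≤ N → Pos s t = Pos s' t := by
      intro t ht
      rcases Nat.lt_or_ge t N with h2 | h2
      · exact h0 t h2
      · have : t = N := by omega
        subst this
        rw [hs.2.1, hs'.2.1]
    funext ⟨t, ht⟩
    have h2 := h1 (t + 1) (by omega)
    rw [Pos_succ s t ht, Pos_succ s' t ht, h1 t (by omega)] at h2
    exact uvec_injective (add_left_cancel h2)
  · intro L hL
    rw [mem_polyF] at hL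
    obtain ⟨⟨hnd, hch, hcl⟩, hlen, hhd⟩ := hL
    have hL0 : L ≠ [] := by rintro rfl; simp at hhd
    have hg0 : L[0]'(by omega) = 0 := by
      rw [List.head?_eq_getElem?, List.getElem?_eq_getElem (by omega)] at hhd
      exact Option.some.inj hhd
    obtain ⟨s, hs⟩ := exists_steps (n := N) (fun t => if t < N then L.getD t 0 else 0)
      (by
        rw [if_pos (by omega), List.getD_eq_getElem _ _ (by omega : 0 < L.length), hg0])
      (by
        intro t ht
        rw [if_pos ht, List.getD_eq_getElem _ _ (by omega : t < L.length)]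
        rcases Nat.lt_or_ge (t + 1) N with h2 | h2
        · rw [if_pos h2, List.getD_eq_getElem _ _ (by omega : t + 1 < L.length)]
          rw [List.isChain_iff_getElem] at hch
          exact hch t (by omega)
        · rw [if_neg (by omega)]
          have h3 := hcl 0 (by rw [hhd]; rfl) (L[t]'(by omega))
            (by
              rw [List.getLast?_eq_getElem?, List.getElem?_eq_getElem (by omega)]
              rw [Option.mem_some_iff]
              congr 1; omega)
          exact h3)
    have hsv : vertsC s = L := by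
      apply List.ext_getElem
      · rw [vertsC_length, hlen]
      · intro t ht1 ht2
        rw [vertsC_getElem, hs t (by omega), if_pos (by omega), List.getD_eq_getElem _ _ ht2]
    refine ⟨s, ?_, hsv⟩
    simp only [Finset.mem_filter]
    refine ⟨Finset.mem_univ _, ?_, ?_⟩
    · rw [hs N le_rfl, if_neg (by omega)]
    · intro a ha b hb hab
      rw [← hsv] at hnd
      unfold vertsC at hnd
      rw [List.nodup_ofFn] at hnd
      have := @hnd ⟨a, by simpa using ha⟩ ⟨b, by simpa using hb⟩ hab
      simpa using this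
  · intro s hs
    simp only [Finset.mem_filter] at hs
    have h := two_mul_contacts_closed (Pos s) N hN hs.2.2
      (fun a ha => by rw [Pos_succ s a (by omega)]; exact adj_uvec _ _)
      (by
        rw [Pos_zero, ← hs.2.1, hlast]
        exact (adj_uvec _ _).symm)
    have hcard : ((range N).image (Pos s)).card = N := by
      rw [Finset.card_image_of_injOn, Finset.card_range]
      intro a ha b hb hab
      exact hs.2.2 a (by simpa using ha) b (by simpa using hb) hab
    have hE : ((Finset.range N ×ˢ Finset.range N).filter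
        (fun p : ℕ × ℕ => p.1 + 1 < p.2 ∧ ¬ (p.1 = 0 ∧ p.2 + 1 = N) ∧
          ∑ i : Fin d, |Pos s p.1 i - Pos s p.2 i| = 1)).card =
        ((range N ×ˢ range N).filter
        (fun p : ℕ × ℕ => p.1 + 1 < p.2 ∧ ¬ (p.1 = 0 ∧ p.2 + 1 = N) ∧
          Adj (Pos s p.1) (Pos s p.2))).card := by
      apply Finset.card_bij (fun p _ => p) _ (fun _ _ _ _ h => h) _
      · intro p hp; simp only [Finset.mem_filter] at hp ⊢; exact hp
      · intro p hp; simp only [Finset.mem_filter] at hp; exact ⟨p, by simp only [Finset.mem_filter]; exact hp, rfl⟩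
    unfold wt
    rw [vertsC_toFinset, hcard, ← h, hE]
    congr 1
    push_cast
    ring

end Pool.Agent.Lib.Pff0a55
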