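import Mathlib
import Pool.Agent.Lib.Pff0a55.Basic

/-!
# Weights of finite vertex sets
-/

set_option autoImplicit false

open Finset Classical

namespace Pool.Agent.Lib.Pff0a55

variable {d : ℕ}

lemma E_map (f : Vtx d → Vtx d) (hf : Function.Injective f)
    (hadj : ∀ x y, Adj (f x) (f y) ↔ Adj x y) (V : Finset (Vtx d)) : E (V.image f) = E V := by
  unfold E
  symm
  apply Finset.card_bij (fun (p : Vtx d × Vtx d) _ => (f p.1, f p.2))
  · intro p hp
    simp only [Finset.mem_filter, Finset.mem_product] at hp ⊢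
    exact ⟨⟨Finset.mem_image_of_mem _ hp.1.1, Finset.mem_image_of_mem _ hp.1.2⟩,
      (hadj _ _).mpr hp.2⟩
  · intro p _ q _ h
    simp only [Prod.mk.injEq] at h
    exact Prod.ext (hf h.1) (hf h.2)
  · rintro ⟨x, y⟩ hxy
    simp only [Finset.mem_filter, Finset.mem_product, Finset.mem_image] at hxy
    obtain ⟨⟨⟨a, ha, rfl⟩, ⟨b, hb, rfl⟩⟩, h⟩ := hxy
    exact ⟨(a, b), by
      simp only [Finset.mem_filter, Finset.mem_product]
      exact ⟨⟨ha, hb⟩, (hadj _ _).mp h⟩, rfl⟩

lemma wt_map (β : ℝ) (f : Vtx d → Vtx d) (hf : Function.Injective f)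
    (hadj : ∀ x y, Adj (f x) (f y) ↔ Adj x y) (V : Finset (Vtx d)) :
    wt β (V.image f) = wt β V := by
  unfold wt
  rw [E_map f hf hadj, Finset.card_image_of_injective _ hf]

lemma E_mono {V V' : Finset (Vtx d)} (h : V ⊆ V') : E V ≤ E V' := by
  unfold E
  apply Finset.card_le_card
  intro p hp
  simp only [Finset.mem_filter, Finset.mem_product] at hp ⊢
  exact ⟨⟨h hp.1.1, h hp.1.2⟩, hp.2⟩

lemma E_union {V V' : Finset (Vtx d)} (h : Disjoint V V') : E V + E V' ≤ E (V ∪ V') := by
  unfold E
  rw [← Finset.card_union_of_disjoint]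
  · apply Finset.card_le_card
    intro p hp
    simp only [Finset.mem_union, Finset.mem_filter, Finset.mem_product] at hp ⊢
    tauto
  · rw [Finset.disjoint_left]
    intro p hp hq
    simp only [Finset.mem_filter, Finset.mem_product] at hp hq
    exact (Finset.disjoint_left.mp h) hp.1.1 hq.1.1

/-- A vertex has at most `2 d` neighbours. -/
lemma card_nbrs_le (x : Vtx d) (V : Finset (Vtx d)) : (V.filter fun y => Adj x y).card ≤ 2 * d := by
  calc (V.filter fun y => Adj x y).card
      ≤ ((Finset.univ : Finset (Fin d × Bool)).image fun s => x + uvec s).card := by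
        apply Finset.card_le_card
        intro y hy
        simp only [Finset.mem_filter] at hy
        obtain ⟨s, hs⟩ := adj_iff_exists.mp hy.2
        exact Finset.mem_image.mpr ⟨s, Finset.mem_univ _, hs.symm⟩
    _ ≤ (Finset.univ : Finset (Fin d × Bool)).card := Finset.card_image_le
    _ = 2 * d := by simp [mul_comm]

lemma E_le_mul (V : Finset (Vtx d)) : E V ≤ 2 * d * V.card := by
  unfold E
  calc ((V ×ˢ V).filter fun p => Adj p.1 p.2).card
      = ∑ x ∈ V, (V.filter fun y => Adj x y).card := by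
        rw [Finset.card_filter, Finset.sum_product]
        apply Finset.sum_congr rfl
        intro x _
        rw [Finset.card_filter]
    _ ≤ ∑ _x ∈ V, 2 * d := Finset.sum_le_sum fun x _ => card_nbrs_le x V
    _ = 2 * d * V.card := by rw [Finset.sum_const, smul_eq_mul]; ring

lemma E_sdiff_le (V D : Finset (Vtx d)) : E V ≤ E (V \ D) + 4 * d * D.card := by
  have h1 : ((V ×ˢ V).filter fun p => Adj p.1 p.2) ⊆
      (((V \ D) ×ˢ (V \ D)).filter fun p => Adj p.1 p.2) ∪
      (((D ×ˢ V).filter fun p => Adj p.1 p.2) ∪ ((V ×ˢ D).filter fun p => Adj p.1 p.2)) := by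
    intro p hp
    simp only [Finset.mem_union, Finset.mem_filter, Finset.mem_product, Finset.mem_sdiff] at hp ⊢
    tauto
  have h2 : ((D ×ˢ V).filter fun p => Adj p.1 p.2).card ≤ 2 * d * D.card := by
    rw [Finset.card_filter, Finset.sum_product]
    calc ∑ x ∈ D, ∑ y ∈ V, (if Adj x y then 1 else 0)
        = ∑ x ∈ D, (V.filter fun y => Adj x y).card := by
          apply Finset.sum_congr rfl
          intro x _
          rw [Finset.card_filter]
      _ ≤ ∑ _x ∈ D, 2 * d := Finset.sum_le_sum fun x _ => card_nbrs_le x V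
      _ = 2 * d * D.card := by rw [Finset.sum_const, smul_eq_mul]; ring
  have h3 : ((V ×ˢ D).filter fun p => Adj p.1 p.2).card ≤ 2 * d * D.card := by
    rw [Finset.card_filter, Finset.sum_product_right]
    calc ∑ x ∈ D, ∑ y ∈ V, (if Adj y x then 1 else 0)
        = ∑ x ∈ D, (V.filter fun y => Adj x y).card := by
          apply Finset.sum_congr rfl
          intro x _
          rw [Finset.card_filter]
          apply Finset.sum_congr rfl
          intro y _
          simp only [adj_comm]
      _ ≤ ∑ _x ∈ D, 2 * d := Finset.sum_le_sum fun x _ => card_nbrs_le x V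
      _ = 2 * d * D.card := by rw [Finset.sum_const, smul_eq_mul]; ring
  unfold E
  calc ((V ×ˢ V).filter fun p => Adj p.1 p.2).card
      ≤ _ := Finset.card_le_card h1
    _ ≤ _ := (Finset.card_union_le _ _).trans (add_le_add_right (Finset.card_union_le _ _) _)
    _ ≤ _ := by
      have h4 : 4 * d * D.card = 2 * d * D.card + 2 * d * D.card := by ring
      omega

lemma wt_union {β : ℝ} (hβ : 0 ≤ β) {V V' : Finset (Vtx d)} (h : Disjoint V V') :
    wt β V * wt β V' ≤ wt β (V ∪ V') := by
  unfold wt
  rw [← Real.exp_add, Finset.card_union_of_disjoint h]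
  apply Real.exp_le_exp.mpr
  have h1 : (E V : ℝ) + E V' ≤ E (V ∪ V') := by exact_mod_cast E_union h
  push_cast
  nlinarith

lemma wt_le_sdiff {β : ℝ} (hβ : 0 ≤ β) (V D : Finset (Vtx d)) :
    wt β V ≤ Real.exp (2 * d * β * D.card) * wt β (V \ D) := by
  unfold wt
  rw [← Real.exp_add]
  apply Real.exp_le_exp.mpr
  have h1 : (E V : ℝ) ≤ E (V \ D) + 4 * d * D.card := by exact_mod_cast E_sdiff_le V D
  have h2 : ((V \ D).card : ℝ) ≤ V.card := by
    exact_mod_cast Finset.card_le_card Finset.sdiff_subset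
  nlinarith

lemma wt_le_exp {β : ℝ} (hβ : 0 ≤ β) (V : Finset (Vtx d)) :
    wt β V ≤ Real.exp (β * d * V.card) := by
  unfold wt
  apply Real.exp_le_exp.mpr
  have h1 : (E V : ℝ) ≤ 2 * d * V.card := by exact_mod_cast E_le_mul V
  have h2 : (0:ℝ) ≤ V.card := by positivity
  nlinarith

/-- Adding a new vertex adjacent to the set does not decrease the weight. -/
lemma wt_insert {β : ℝ} (hβ : 0 ≤ β) {V : Finset (Vtx d)} {x y : Vtx d} (hx : x ∉ V) (hy : y ∈ V)
    (hxy : Adj x y) : wt β V ≤ wt β (insert x V) := by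
  have h1 : E V + 2 ≤ E (insert x V) := by
    unfold E
    have h2 : ((V ×ˢ V).filter fun p => Adj p.1 p.2) ∪ {(x, y), (y, x)} ⊆
        ((insert x V ×ˢ insert x V).filter fun p => Adj p.1 p.2) := by
      intro p hp
      simp only [Finset.mem_union, Finset.mem_filter, Finset.mem_product, Finset.mem_insert,
        Finset.mem_singleton] at hp ⊢
      rcases hp with hp | rfl | rfl
      · tauto
      · exact ⟨⟨Or.inl rfl, Or.inr hy⟩, hxy⟩
      · exact ⟨⟨Or.inr hy, Or.inl rfl⟩, hxy.symm⟩
    refine le_trans (le_of_eq ?_) (Finset.card_le_card h2)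
    rw [Finset.card_union_of_disjoint]
    · congr 1
      rw [Finset.card_pair]
      intro h
      exact hxy.ne (Prod.ext_iff.mp h).1
    · rw [Finset.disjoint_left]
      intro p hp hq
      simp only [Finset.mem_filter, Finset.mem_product, Finset.mem_insert,
        Finset.mem_singleton] at hp hq
      rcases hq with rfl | rfl
      · exact hx hp.1.1
      · exact hx hp.1.2
  unfold wt
  apply Real.exp_le_exp.mpr
  rw [Finset.card_insert_of_notMem hx]
  have h2 : (E V : ℝ) + 2 ≤ E (insert x V) := by exact_mod_cast h1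
  push_cast
  nlinarith

end Pool.Agent.Lib.Pff0a55
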