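import Mathlib
import Pool.Agent.Lib.Pff0a55.Steps
import Pool.Agent.Lib.Pff0a55.WeightLemmas

/-!
# Pairing two walks with the same end point into one cyclic list with few gaps
-/

set_option autoImplicit false

open Finset Classical

namespace Pool.Agent.Lib.Pff0a55

variable {d : ℕ}

/-- ℓ¹ distance as a natural number. -/
def nd (u v : Vtx d) : ℕ := ∑ i, (u i - v i).natAbs

lemma nd_eq_one_iff {u v : Vtx d} : nd u v = 1 ↔ Adj u v := by
  unfold nd Adj
  rw [← Int.natCast_inj]
  push_cast
  rfl

lemma nd_comm (u v : Vtx d) : nd u v = nd v u := by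
  unfold nd
  apply Finset.sum_congr rfl
  intro i _
  rw [← Int.natAbs_neg, neg_sub]

lemma nd_triangle (u v w : Vtx d) : nd u w ≤ nd u v + nd v w := by
  unfold nd
  rw [← Finset.sum_add_distrib]
  apply Finset.sum_le_sum
  intro i _
  omega

lemma nd_self (u : Vtx d) : nd u u = 0 := by simp [nd]

/-- Sum over consecutive pairs. -/
def lsum (F : Vtx d → Vtx d → ℕ) : List (Vtx d) → ℕ
  | [] => 0
  | [_] => 0
  | x :: y :: t => F x y + lsum F (y :: t)

/-- Sum over cyclically consecutive pairs. -/
def csum (F : Vtx d → Vtx d → ℕ) (l : List (Vtx d)) : ℕ :=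
  ((l.zip (l.rotate 1)).map (fun p => F p.1 p.2)).sum

lemma lsum_eq_zip (F : Vtx d → Vtx d → ℕ) (x : Vtx d) (t : List (Vtx d)) :
    lsum F (x :: t) = (((x :: t).zip t).map (fun p => F p.1 p.2)).sum := by
  induction t generalizing x with
  | nil => simp [lsum]
  | cons y t ih => simp [lsum, ih]

lemma zip_append_aux (s t : List (Vtx d)) (h : t.length ≤ s.length) (z : Vtx d) :
    (s ++ [z]).zip t = s.zip t := by
  induction s generalizing t with
  | nil =>
    have : t = [] := by
      apply List.eq_nil_of_length_eq_zero
      simpa using h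
    subst this; simp
  | cons a s ih =>
    cases t with
    | nil => simp
    | cons b t => simp at h ⊢; exact ih t h

lemma csum_cons (F : Vtx d → Vtx d → ℕ) (x : Vtx d) (t : List (Vtx d)) :
    csum F (x :: t) = lsum F (x :: (t ++ [x])) := by
  rw [lsum_eq_zip]
  unfold csum
  have h1 : (x :: t).rotate 1 = t ++ [x] := by simp
  rw [h1]
  have h2 : (x :: (t ++ [x])).zip (t ++ [x]) = (x :: t).zip (t ++ [x]) := by
    have := zip_append_aux (x :: t) (t ++ [x]) (by simp) x
    simpa using this
  rw [h2]

lemma lsum_append (F : Vtx d → Vtx d → ℕ) (A : List (Vtx d)) (x : Vtx d) (B : List (Vtx d)) :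
    lsum F (A ++ x :: B) = lsum F (A ++ [x]) + lsum F (x :: B) := by
  induction A with
  | nil => simp [lsum]
  | cons a A ih =>
    cases A with
    | nil => simp [lsum]
    | cons b A =>
      simp only [List.cons_append, lsum] at ih ⊢
      rw [ih]; ring

lemma lsum_reverse (F : Vtx d → Vtx d → ℕ) (hF : ∀ x y, F x y = F y x) (A : List (Vtx d)) :
    lsum F A.reverse = lsum F A := by
  induction A with
  | nil => rfl
  | cons a A ih =>
    cases A with
    | nil => rfl
    | cons b A =>
      rw [List.reverse_cons, List.reverse_cons, List.append_assoc, List.singleton_append,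
        lsum_append, ← List.reverse_cons, ih]
      simp only [lsum]
      rw [hF b a]; ring

lemma lsum_chain (F : Vtx d → Vtx d → ℕ) (hF : ∀ x y, Adj x y → F x y = 0) (A : List (Vtx d))
    (hA : A.IsChain Adj) : lsum F A = 0 := by
  induction A with
  | nil => rfl
  | cons a A ih =>
    cases A with
    | nil => rfl
    | cons b A =>
      rw [List.isChain_cons_cons] at hA
      simp only [lsum]
      rw [ih hA.2, hF _ _ hA.1]

/-- Length of a gap. -/
def F1 (u v : Vtx d) : ℕ := nd u v - 1

/-- Indicator of a gap. -/
def F2 (u v : Vtx d) : ℕ := if nd u v ≠ 1 then 1 else 0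

lemma F1_comm (u v : Vtx d) : F1 u v = F1 v u := by unfold F1; rw [nd_comm]

lemma F2_comm (u v : Vtx d) : F2 u v = F2 v u := by unfold F2; rw [nd_comm]

lemma F1_adj (u v : Vtx d) (h : Adj u v) : F1 u v = 0 := by
  unfold F1; rw [nd_eq_one_iff.mpr h]

lemma F2_adj (u v : Vtx d) (h : Adj u v) : F2 u v = 0 := by
  unfold F2; rw [nd_eq_one_iff.mpr h]; simp

lemma F2_le (u v : Vtx d) : F2 u v ≤ 1 := by
  unfold F2; split_ifs <;> simp

lemma lsum_filter_F1 (p : Vtx d → Bool) (A : List (Vtx d)) (a x z : Vtx d)
    (hA : (a :: A).IsChain Adj) :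
    lsum F1 (x :: ((a :: A).filter p ++ [z])) ≤
      (nd x a - 1) + (a :: A).countP (fun v => !p v) + nd ((a :: A).getLast (by simp)) z := by
  induction A generalizing a x with
  | nil =>
    have ht := nd_triangle x a z
    by_cases h : p a = true
    · have h1 : ([a] : List (Vtx d)).filter p = [a] := by simp [h]
      rw [h1]
      simp only [List.cons_append, List.nil_append, lsum, F1, List.getLast_singleton]
      omega
    · have h1 : ([a] : List (Vtx d)).filter p = [] := by simp [h]
      have h2 : ([a] : List (Vtx d)).countP (fun v => !p v) = 1 := by simp [h]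
      rw [h1, h2]
      simp only [List.nil_append, lsum, F1, List.getLast_singleton]
      omega
  | cons b A ih =>
    rw [List.isChain_cons_cons] at hA
    have hab : nd a b = 1 := nd_eq_one_iff.mpr hA.1
    have hlast : (a :: b :: A).getLast (by simp) = (b :: A).getLast (by simp) := by
      rw [List.getLast_cons]
    rw [hlast]
    by_cases h : p a = true
    · have h1 : (a :: b :: A).filter p = a :: (b :: A).filter p := by
        rw [List.filter_cons, if_pos h]
      have h2 : (a :: b :: A).countP (fun v => !p v) = (b :: A).countP (fun v => !p v) := by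
        rw [List.countP_cons]; simp [h]
      have h3 := ih b a hA.2
      rw [h1, h2, List.cons_append]
      simp only [lsum]
      have e : F1 x a = nd x a - 1 := rfl
      omega
    · have h1 : (a :: b :: A).filter p = (b :: A).filter p := by
        rw [List.filter_cons, if_neg h]
      have h2 : (a :: b :: A).countP (fun v => !p v) = (b :: A).countP (fun v => !p v) + 1 := by
        rw [List.countP_cons]; simp [h]
      have h3 := ih b x hA.2
      have h4 := nd_triangle x a b
      rw [h1, h2]
      omega

lemma lsum_filter_F2 (p : Vtx d → Bool) (A : List (Vtx d)) (a x z : Vtx d)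
    (hA : (a :: A).IsChain Adj) :
    lsum F2 (x :: ((a :: A).filter p ++ [z])) ≤
      F2 x a + (a :: A).countP (fun v => !p v) + 1 := by
  induction A generalizing a x with
  | nil =>
    have h2 := F2_le x z
    have h3 := F2_le a z
    by_cases h : p a = true
    · have h1 : ([a] : List (Vtx d)).filter p = [a] := by simp [h]
      rw [h1]
      simp only [List.cons_append, List.nil_append, lsum]
      omega
    · have h1 : ([a] : List (Vtx d)).filter p = [] := by simp [h]
      have h2 : ([a] : List (Vtx d)).countP (fun v => !p v) = 1 := by simp [h]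
      rw [h1, h2]
      simp only [List.nil_append, lsum]
      omega
  | cons b A ih =>
    rw [List.isChain_cons_cons] at hA
    by_cases h : p a = true
    · have h1 : (a :: b :: A).filter p = a :: (b :: A).filter p := by
        rw [List.filter_cons, if_pos h]
      have h2 : (a :: b :: A).countP (fun v => !p v) = (b :: A).countP (fun v => !p v) := by
        rw [List.countP_cons]; simp [h]
      have h3 := ih b a hA.2
      rw [h1, h2, List.cons_append]
      simp only [lsum]
      rw [F2_adj a b hA.1] at h3
      omega
    · have h1 : (a :: b :: A).filter p = (b :: A).filter p := by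
        rw [List.filter_cons, if_neg h]
      have h2 : (a :: b :: A).countP (fun v => !p v) = (b :: A).countP (fun v => !p v) + 1 := by
        rw [List.countP_cons]; simp [h]
      have h3 := ih b x hA.2
      have h4 := F2_le x b
      rw [h1, h2]
      omega

/-- The joined cyclic list. -/
noncomputable def join (w w2 : List (Vtx d)) : List (Vtx d) :=
  w ++ (w2.filter (fun v => decide (v ∉ w))).reverse

lemma join_nodup {w w2 : List (Vtx d)} (hw : w.Nodup) (hw2 : w2.Nodup) : (join w w2).Nodup := by
  unfold join
  rw [List.nodup_append]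
  refine ⟨hw, List.nodup_reverse.mpr (hw2.filter _), ?_⟩
  intro x hx y hy hxy
  subst hxy
  rw [List.mem_reverse, List.mem_filter] at hy
  simp only [decide_eq_true_eq] at hy
  exact hy.2 hx

lemma countP_not_eq (w w2 : List (Vtx d)) :
    w2.countP (fun v => !decide (v ∉ w)) = w2.countP (fun v => decide (v ∈ w)) := by
  congr 1; funext v; simp

/-- Bound for a cyclic sum of the joined list by a linear sum of the filtered second walk. -/
lemma csum_join (F : Vtx d → Vtx d → ℕ) (hF : ∀ x y, F x y = F y x)
    (hF' : ∀ x y, Adj x y → F x y = 0) {w w2 : List (Vtx d)} (hw : w.IsChain Adj) (hw0 : w ≠ []) :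
    csum F (join w w2) =
      lsum F (w.head hw0 :: (w2.filter (fun v => decide (v ∉ w)) ++ [w.getLast hw0])) := by
  set B := w2.filter (fun v => decide (v ∉ w)) with hB
  have h1 : join w w2 = w.head hw0 :: (w.tail ++ B.reverse) := by
    unfold join
    rw [← hB, ← List.cons_append, List.cons_head_tail]
  rw [h1, csum_cons]
  have h2 : w.head hw0 :: (w.tail ++ B.reverse ++ [w.head hw0]) =
      w.dropLast ++ w.getLast hw0 :: (B.reverse ++ [w.head hw0]) := by
    rw [List.append_assoc, ← List.cons_append, List.cons_head_tail]
    have h3 : w.dropLast ++ [w.getLast hw0] = w := List.dropLast_append_getLast hw0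
    calc w ++ (B.reverse ++ [w.head hw0])
        = (w.dropLast ++ [w.getLast hw0]) ++ (B.reverse ++ [w.head hw0]) := by rw [h3]
      _ = _ := by simp
  rw [h2, lsum_append, List.dropLast_append_getLast, lsum_chain F hF' w hw, zero_add]
  rw [← lsum_reverse F hF]
  simp

end Pool.Agent.Lib.Pff0a55
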