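import Mathlib
import Pool.Agent.Lib.Pff0a55.Pair

/-!
# Choice of the shift and properties of the joined list
-/

set_option autoImplicit false

open Finset Classical

namespace Pool.Agent.Lib.Pff0a55

variable {d : ℕ}

/-- The shift vector. -/
def shiftV (i0 i1 : Fin d) (p : ℕ × ℕ) : Vtx d := Pi.single i0 (p.1 : ℤ) + Pi.single i1 (p.2 : ℤ)

lemma shiftV_injective {i0 i1 : Fin d} (hi : i0 ≠ i1) : Function.Injective (shiftV i0 i1) := by
  rintro ⟨a, b⟩ ⟨a', b'⟩ h
  have h0 := congrFun h i0
  have h1 := congrFun h i1
  simp only [shiftV, Pi.add_apply, Pi.single_eq_same, Pi.single_eq_of_ne hi,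
    Pi.single_eq_of_ne hi.symm] at h0 h1
  ext <;> simp <;> omega

lemma nd_shiftV_le {i0 i1 : Fin d} (p : ℕ × ℕ) (x : Vtx d) :
    nd x (x + shiftV i0 i1 p) ≤ p.1 + p.2 := by
  unfold nd
  calc ∑ i, (x i - (x + shiftV i0 i1 p) i).natAbs
      ≤ ∑ i, ((if i = i0 then p.1 else 0) + (if i = i1 then p.2 else 0)) := by
        apply Finset.sum_le_sum
        intro i _
        simp only [shiftV, Pi.add_apply, Pi.single_apply]
        split_ifs <;> omega
    _ = p.1 + p.2 := by
        rw [Finset.sum_add_distrib]
        simp

/-- The averaging over shifts. -/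
lemma exists_shift {i0 i1 : Fin d} (hi : i0 ≠ i1) (S c : ℕ) (hS : 0 < S) (P Q : List (Vtx d))
    (h : Q.length * P.length ≤ S * S * c) :
    ∃ p : ℕ × ℕ, p.1 < S ∧ p.2 < S ∧
      (Q.map (fun x => x + shiftV i0 i1 p)).countP (fun v => decide (v ∈ P)) ≤ c := by
  set T : Finset (ℕ × ℕ) := range S ×ˢ range S with hT
  have hsum : ∑ p ∈ T, (Q.map (fun x => x + shiftV i0 i1 p)).countP (fun x => decide (x ∈ P)) ≤
      ∑ p ∈ T, c := by
    have h1 : ∑ p ∈ T, (Q.map (fun x => x + shiftV i0 i1 p)).countP (fun x => decide (x ∈ P)) ≤
        Q.length * P.length := by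
      clear h
      induction Q with
      | nil => simp
      | cons y Q ih =>
        simp only [List.map_cons, List.countP_cons, List.length_cons]
        rw [Finset.sum_add_distrib]
        have h2 : ∑ p ∈ T, (if decide (y + shiftV i0 i1 p ∈ P) = true then 1 else 0) ≤
            P.length := by
          rw [← Finset.card_filter]
          calc (T.filter fun p => decide (y + shiftV i0 i1 p ∈ P) = true).card
              = ((T.filter fun p => decide (y + shiftV i0 i1 p ∈ P) = true).image
                  fun p => y + shiftV i0 i1 p).card := by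
                rw [Finset.card_image_of_injective]
                intro p q hpq
                exact shiftV_injective hi (add_left_cancel hpq)
            _ ≤ P.toFinset.card := by
                apply Finset.card_le_card
                intro x hx
                simp only [Finset.mem_image, Finset.mem_filter, decide_eq_true_eq] at hx
                obtain ⟨p, ⟨_, hp⟩, rfl⟩ := hx
                simpa using hp
            _ ≤ P.length := List.toFinset_card_le P
        calc _ ≤ Q.length * P.length + P.length := add_le_add ih h2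
          _ = _ := by ring
    refine h1.trans (h.trans (le_of_eq ?_))
    rw [Finset.sum_const, hT, Finset.card_product, Finset.card_range, smul_eq_mul]
  obtain ⟨p, hpT, hp⟩ := Finset.exists_le_of_sum_le
    (⟨(0, 0), by simp [hT, hS]⟩ : T.Nonempty) hsum
  refine ⟨p, ?_, ?_, hp⟩
  · have := (Finset.mem_product.mp hpT).1
    simpa using this
  · have := (Finset.mem_product.mp hpT).2
    simpa using this

lemma Pos_abs_le {n : ℕ} (s : Fin n → Fin d × Bool) (t : ℕ) (ht : t ≤ n) (i : Fin d) :
    |Pos s t i| ≤ t := by
  induction t with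
  | zero => simp [Pos_zero]
  | succ t ih =>
    rw [Pos_succ s t (by omega)]
    have h1 := ih (by omega)
    have h2 : |uvec (s ⟨t, by omega⟩) i| ≤ 1 := by
      rw [← sum_abs_uvec (s ⟨t, by omega⟩)]
      exact Finset.single_le_sum (f := fun j => |uvec (s ⟨t, by omega⟩) j|)
        (fun _ _ => abs_nonneg _) (Finset.mem_univ i)
    have h3 := abs_add_le (Pos s t i) (uvec (s ⟨t, by omega⟩) i)
    simp only [Pi.add_apply]
    push_cast
    linarith

lemma saw_abs_le {n : ℕ} {w : List (Vtx d)} (hw : w ∈ sawF d n) {x : Vtx d} (hx : x ∈ w)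
    (i : Fin d) : |x i| ≤ n := by
  rw [mem_sawF] at hw
  have hc : w ∈ chainF d n := mem_chainF.mpr ⟨hw.1.2, hw.2.1, hw.2.2⟩
  unfold chainF at hc
  rw [Finset.mem_image] at hc
  obtain ⟨s, _, rfl⟩ := hc
  unfold verts at hx
  rw [List.mem_ofFn] at hx
  obtain ⟨t, rfl⟩ := hx
  have h1 := Pos_abs_le s t (by omega) i
  have h2 : ((t : ℕ) : ℤ) ≤ n := by exact_mod_cast (by omega : (t : ℕ) ≤ n)
  exact h1.trans h2

/-- A walk with shifted positions. -/
def shiftL (σ : Vtx d) (w : List (Vtx d)) : List (Vtx d) := w.map (fun x => x + σ)

lemma shiftL_chain {σ : Vtx d} {w : List (Vtx d)} (h : w.IsChain Adj) :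
    (shiftL σ w).IsChain Adj := by
  unfold shiftL
  rw [List.isChain_map]
  exact h.imp fun _ _ h => adj_add_right.mpr h

lemma shiftL_nodup {σ : Vtx d} {w : List (Vtx d)} (h : w.Nodup) : (shiftL σ w).Nodup :=
  h.map (add_left_injective σ)

lemma shiftL_toFinset (σ : Vtx d) (w : List (Vtx d)) :
    (shiftL σ w).toFinset = w.toFinset.image (fun x => x + σ) := by
  ext x; simp only [shiftL, List.mem_toFinset, List.mem_map, Finset.mem_image]

lemma wt_shiftL (β : ℝ) (σ : Vtx d) (w : List (Vtx d)) :
    wt β (shiftL σ w).toFinset = wt β w.toFinset := by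
  rw [shiftL_toFinset]
  exact wt_map β _ (add_left_injective σ) (fun _ _ => adj_add_right) _

lemma join_toFinset (w w2 : List (Vtx d)) :
    (join w w2).toFinset = w.toFinset ∪ (w2.toFinset \ (w.toFinset ∩ w2.toFinset)) := by
  ext x
  simp only [join, List.mem_toFinset, List.mem_append, List.mem_reverse, List.mem_filter,
    decide_eq_true_eq, Finset.mem_union, Finset.mem_sdiff, Finset.mem_inter]
  tauto

lemma wt_join {β : ℝ} (hβ : 0 ≤ β) (w w2 : List (Vtx d)) :
    wt β w.toFinset * wt β w2.toFinset ≤
      Real.exp (2 * d * β * w2.countP (fun v => decide (v ∈ w))) *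
        wt β (join w w2).toFinset := by
  have h1 := wt_le_sdiff hβ w2.toFinset (w.toFinset ∩ w2.toFinset)
  have h2 : (w.toFinset ∩ w2.toFinset).card ≤ w2.countP (fun v => decide (v ∈ w)) := by
    rw [List.countP_eq_length_filter]
    refine le_trans (Finset.card_le_card ?_)
      (List.toFinset_card_le (w2.filter (fun v => decide (v ∈ w))))
    intro x hx
    simp only [Finset.mem_inter, List.mem_toFinset, List.mem_filter, decide_eq_true_eq] at hx ⊢
    exact ⟨hx.2, hx.1⟩
  have h3 : Disjoint w.toFinset (w2.toFinset \ (w.toFinset ∩ w2.toFinset)) := by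
    rw [Finset.disjoint_left]
    intro x hx hx'
    simp only [Finset.mem_sdiff, Finset.mem_inter] at hx'
    exact hx'.2 ⟨hx, hx'.1⟩
  have h4 := wt_union hβ h3
  rw [← join_toFinset] at h4
  have h5 : Real.exp (2 * d * β * (w.toFinset ∩ w2.toFinset).card) ≤
      Real.exp (2 * d * β * w2.countP (fun v => decide (v ∈ w))) := by
    apply Real.exp_le_exp.mpr
    have : ((w.toFinset ∩ w2.toFinset).card : ℝ) ≤ w2.countP (fun v => decide (v ∈ w)) := by
      exact_mod_cast h2
    gcongr
  calc wt β w.toFinset * wt β w2.toFinset
      ≤ wt β w.toFinset * (Real.exp (2 * d * β * (w.toFinset ∩ w2.toFinset).card) *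
          wt β (w2.toFinset \ (w.toFinset ∩ w2.toFinset))) := by
        have := wt_pos β w.toFinset
        gcongr
    _ = Real.exp (2 * d * β * (w.toFinset ∩ w2.toFinset).card) * (wt β w.toFinset *
          wt β (w2.toFinset \ (w.toFinset ∩ w2.toFinset))) := by ring
    _ ≤ _ := by
        have := wt_pos β (join w w2).toFinset
        have := mul_pos (wt_pos β w.toFinset)
          (wt_pos β (w2.toFinset \ (w.toFinset ∩ w2.toFinset)))
        gcongr

lemma join_length (w w2 : List (Vtx d)) :
    (join w w2).length + w2.countP (fun v => decide (v ∈ w)) = w.length + w2.length := by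
  unfold join
  rw [List.length_append, List.length_reverse, ← List.countP_eq_length_filter]
  have h := List.length_eq_countP_add_countP (fun v => decide (v ∈ w)) (l := w2)
  have h2 : w2.countP (fun v => decide (v ∉ w)) =
      w2.countP (fun a => decide (¬decide (a ∈ w) = true)) := by
    congr 1; funext v; simp
  omega

lemma csum_F1_join {n : ℕ} {w w' : List (Vtx d)} (hw : w ∈ sawF d n) (hw' : w' ∈ sawF d n)
    (hlast : w.getLast? = w'.getLast?) (i0 i1 : Fin d) (p : ℕ × ℕ) :
    csum F1 (join w (shiftL (shiftV i0 i1 p) w')) ≤ 2 * (p.1 + p.2) +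
      (shiftL (shiftV i0 i1 p) w').countP (fun v => decide (v ∈ w)) := by
  rw [mem_sawF] at hw hw'
  have hw0 : w ≠ [] := by rintro rfl; simp at hw
  obtain ⟨a, A, rfl⟩ : ∃ a A, w' = a :: A := by
    cases w' with
    | nil => simp at hw'
    | cons a A => exact ⟨a, A, rfl⟩
  have ha : a = 0 := by simpa using hw'.2.2
  have hhd : w.head hw0 = 0 := by
    have := hw.2.2
    rw [List.head?_eq_some_head hw0] at this
    simpa using this
  rw [csum_join F1 F1_comm F1_adj hw.1.2 hw0]
  have hch : (shiftL (shiftV i0 i1 p) (a :: A)).IsChain Adj := shiftL_chain hw'.1.2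
  have key := lsum_filter_F1 (fun v => decide (v ∉ w)) (shiftL (shiftV i0 i1 p) A)
    (a + shiftV i0 i1 p) (w.head hw0) (w.getLast hw0) hch
  have e1 : (a + shiftV i0 i1 p) :: shiftL (shiftV i0 i1 p) A =
      shiftL (shiftV i0 i1 p) (a :: A) := rfl
  simp only [e1] at key
  rw [countP_not_eq] at key
  have h1 : nd (w.head hw0) (a + shiftV i0 i1 p) ≤ p.1 + p.2 := by
    rw [hhd, ha]
    exact nd_shiftV_le p 0
  have h2 : nd ((shiftL (shiftV i0 i1 p) (a :: A)).getLast (by simp [shiftL])) (w.getLast hw0) ≤
      p.1 + p.2 := by
    have e2 : (shiftL (shiftV i0 i1 p) (a :: A)).getLast (by simp [shiftL]) =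
        (a :: A).getLast (by simp) + shiftV i0 i1 p := by
      unfold shiftL
      rw [List.getLast_map]
    have e3 : w.getLast hw0 = (a :: A).getLast (by simp) := by
      rw [List.getLast?_eq_some_getLast hw0, List.getLast?_eq_some_getLast (by simp)] at hlast
      exact Option.some.inj hlast
    rw [e2, e3, nd_comm]
    exact nd_shiftV_le p _
  omega

lemma csum_F2_join {n : ℕ} {w w' : List (Vtx d)} (hw : w ∈ sawF d n) (hw' : w' ∈ sawF d n)
    (σ : Vtx d) :
    csum F2 (join w (shiftL σ w')) ≤
      (shiftL σ w').countP (fun v => decide (v ∈ w)) + 2 := by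
  rw [mem_sawF] at hw hw'
  have hw0 : w ≠ [] := by rintro rfl; simp at hw
  obtain ⟨a, A, rfl⟩ : ∃ a A, w' = a :: A := by
    cases w' with
    | nil => simp at hw'
    | cons a A => exact ⟨a, A, rfl⟩
  rw [csum_join F2 F2_comm F2_adj hw.1.2 hw0]
  have hch : (shiftL σ (a :: A)).IsChain Adj := shiftL_chain hw'.1.2
  have key := lsum_filter_F2 (fun v => decide (v ∉ w)) (shiftL σ A)
    (a + σ) (w.head hw0) (w.getLast hw0) hch
  have e1 : (a + σ) :: shiftL σ A = shiftL σ (a :: A) := rfl
  simp only [e1] at key
  rw [countP_not_eq] at key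
  have h1 := F2_le (w.head hw0) (a + σ)
  omega

/-- Small subsets are few. -/
lemma card_small_subsets {α : Type*} (G : Finset α) (k : ℕ) :
    (G.powerset.filter (fun K => K.card ≤ k)).card ≤ (G.card + 1) ^ k := by
  induction k with
  | zero =>
    have : (G.powerset.filter (fun K => K.card ≤ 0)) ⊆ {∅} := by
      intro K hK
      simp only [Finset.mem_filter, Nat.le_zero, Finset.card_eq_zero] at hK
      simp [hK.2]
    simpa using Finset.card_le_card this
  | succ k ih =>
    have h1 : (G.powerset.filter (fun K => K.card ≤ k + 1)) ⊆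
        (G.powerset.filter (fun K => K.card ≤ k)) ∪
        (((G.powerset.filter (fun K => K.card ≤ k)) ×ˢ G).image
          (fun p => insert p.2 p.1)) := by
      intro K hK
      simp only [Finset.mem_filter, Finset.mem_powerset] at hK
      rw [Finset.mem_union]
      by_cases h : K.card ≤ k
      · left
        simp only [Finset.mem_filter, Finset.mem_powerset]
        exact ⟨hK.1, h⟩
      · right
        have hne : K.Nonempty := by
          rw [← Finset.card_pos]; omega
        obtain ⟨x, hx⟩ := hne
        rw [Finset.mem_image]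
        refine ⟨(K.erase x, x), ?_, by simp [Finset.insert_erase hx]⟩
        simp only [Finset.mem_product, Finset.mem_filter, Finset.mem_powerset]
        refine ⟨⟨(Finset.erase_subset _ _).trans hK.1, ?_⟩, hK.1 hx⟩
        rw [Finset.card_erase_of_mem hx]; omega
    calc _ ≤ _ := Finset.card_le_card h1
      _ ≤ _ := Finset.card_union_le _ _
      _ ≤ (G.powerset.filter (fun K => K.card ≤ k)).card +
          (G.powerset.filter (fun K => K.card ≤ k)).card * G.card := by
        gcongr
        exact Finset.card_image_le.trans (le_of_eq (Finset.card_product _ _))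
      _ = (G.powerset.filter (fun K => K.card ≤ k)).card * (G.card + 1) := by ring
      _ ≤ (G.card + 1) ^ k * (G.card + 1) := by gcongr
      _ = (G.card + 1) ^ (k + 1) := by ring

lemma list_eq_of_filter_map {α : Type*} (p : α → Bool) (A A' : List α)
    (h1 : A.map (fun v => if p v then some v else none) =
      A'.map (fun v => if p v then some v else none))
    (h2 : A.filter (fun v => !p v) = A'.filter (fun v => !p v)) : A = A' := by
  induction A generalizing A' with
  | nil =>
    cases A' with
    | nil => rfl
    | cons b A' => simp at h1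
  | cons a A ih =>
    cases A' with
    | nil => simp at h1
    | cons b A' =>
      simp only [List.map_cons, List.cons.injEq] at h1
      by_cases ha : p a = true
      · by_cases hb : p b = true
        · have hab : a = b := by simpa [ha, hb] using h1.1
          subst hab
          have h3 : A.filter (fun v => !p v) = A'.filter (fun v => !p v) := by
            simpa [ha] using h2
          rw [ih A' h1.2 h3]
        · exfalso; simp [ha, hb] at h1
      · by_cases hb : p b = true
        · exfalso; simp [ha, hb] at h1
        · have h3 : a = b ∧ A.filter (fun v => !p v) = A'.filter (fun v => !p v) := by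
            simpa [ha, hb] using h2
          rw [h3.1, ih A' h1.2 h3.2]

lemma countP_eq_card {α : Type*} (p : α → Bool) (A : List α) (a0 : α) :
    ((range A.length).filter (fun i => p (A.getD i a0) = true)).card = A.countP p := by
  induction A with
  | nil => simp
  | cons a A ih =>
    rw [List.countP_cons, List.length_cons, Finset.range_add_one', ← ih]
    rw [Finset.filter_insert, Finset.filter_map]
    have h2 : ((range A.length).filter ((fun i => p ((a :: A).getD i a0) = true) ∘
        (Function.Embedding.mk (fun i => i + 1) (add_left_injective 1) : ℕ ↪ ℕ))) =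
        (range A.length).filter (fun i => p (A.getD i a0) = true) := by
      ext i; simp
    by_cases h : p a = true
    · rw [if_pos (by simpa using h), Finset.card_insert_of_notMem (by simp), Finset.card_map, h2]
      simp [h]
    · rw [if_neg (by simpa using h), Finset.card_map, h2]
      simp [h]

/-- The data recording the deleted sites. -/
noncomputable def code (w w2 : List (Vtx d)) : Finset (ℕ × Vtx d) :=
  ((range w2.length).filter (fun i => decide (w2.getD i 0 ∈ w) = true)).image
    (fun i => (i, w2.getD i 0))

lemma code_card (w w2 : List (Vtx d)) :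
    (code w w2).card ≤ w2.countP (fun v => decide (v ∈ w)) := by
  unfold code
  refine Finset.card_image_le.trans (le_of_eq ?_)
  exact countP_eq_card (fun v => decide (v ∈ w)) w2 0

lemma code_subset (w w2 : List (Vtx d)) : code w w2 ⊆ range w2.length ×ˢ w.toFinset := by
  intro q hq
  unfold code at hq
  simp only [Finset.mem_image, Finset.mem_filter, decide_eq_true_eq] at hq
  obtain ⟨i, ⟨hi, hiw⟩, rfl⟩ := hq
  simp only [Finset.mem_product, List.mem_toFinset]
  exact ⟨hi, hiw⟩

lemma eq_of_code {w A A' : List (Vtx d)} (hlen : A.length = A'.length)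
    (hc : code w A = code w A') (hj : join w A = join w A') : A = A' := by
  apply list_eq_of_filter_map (fun v => decide (v ∈ w))
  · apply List.ext_getElem
    · simpa using hlen
    · intro i h1 h2
      simp only [List.length_map] at h1 h2
      simp only [List.getElem_map, decide_eq_true_eq]
      have key : ∀ B B' : List (Vtx d), code w B = code w B' → ∀ (hB : i < B.length)
          (hB' : i < B'.length), B[i] ∈ w → B'[i] = B[i] := by
        intro B B' hBB hB hB' hm
        have h3 : (i, B[i]) ∈ code w B := by
          unfold code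
          simp only [Finset.mem_image, Finset.mem_filter, decide_eq_true_eq, Finset.mem_range]
          exact ⟨i, ⟨hB, by rw [List.getD_eq_getElem _ _ hB]; exact hm⟩,
            by rw [List.getD_eq_getElem _ _ hB]⟩
        rw [hBB] at h3
        unfold code at h3
        simp only [Finset.mem_image, Finset.mem_filter, decide_eq_true_eq, Finset.mem_range,
          Prod.mk.injEq] at h3
        obtain ⟨j, _, rfl, h4⟩ := h3
        rw [List.getD_eq_getElem _ _ hB'] at h4
        exact h4
      by_cases hA : A[i] ∈ w
      · have h5 := key A A' hc h1 h2 hA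
        rw [h5]
      · have hA' : A'[i] ∉ w := by
          intro hm
          have h5 := key A' A hc.symm h2 h1 hm
          rw [h5] at hA
          exact hA hm
        rw [if_neg hA, if_neg hA']
  · unfold join at hj
    have h1 := List.append_cancel_left hj
    have h2 := List.reverse_injective h1
    have e : ∀ B : List (Vtx d), B.filter (fun v => !decide (v ∈ w)) =
        B.filter (fun v => decide (v ∉ w)) := by
      intro B; congr 1; funext v; simp
    rw [e, e]; exact h2

end Pool.Agent.Lib.Pff0a55
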