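import Mathlib
import Pool.Agent.Lib.Pff0a55.PairShift

/-!
# The key inequality, from the gap closing theorem
-/

set_option autoImplicit false

open Finset Classical

namespace Pool.Agent.Lib.Pff0a55

variable {d : ℕ}

/-- The lists to which the gap closing theorem applies. -/
def Good (J N D : ℕ) (l : List (Vtx d)) : Prop :=
  l.Nodup ∧ 4 ≤ l.length ∧ l.length ≤ N ∧ csum F2 l ≤ J ∧ csum F1 l ≤ D

/-- The statement of the gap closing theorem. -/
def ClosingStmt (d : ℕ) : Prop :=
  ∃ c : ℕ, ∀ (J : ℕ) (ε : ℝ), 0 < ε → ∃ C : ℕ, ∀ N D : ℕ, ∃ f : List (Vtx d) → List (Vtx d),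
    (∀ l, Good J N D l →
      IsPoly (f l) ∧ f l ≠ [] ∧
      ((f l).length : ℝ) ≤ l.length + (c * D + ε * N + C) ∧
      (E l.toFinset : ℝ) ≤ E (f l).toFinset + (c * D + ε * N + C) ∧
      ∀ p ∈ f l, ∃ q ∈ l, ∀ i, ((|p i - q i| : ℤ) : ℝ) ≤ N + (c * D + ε * N + C)) ∧
    ∀ y, {l | Good J N D l ∧ f l = y}.Finite ∧
      ({l | Good J N D l ∧ f l = y}.ncard : ℝ) ≤
        Real.exp (c * D + ε * N + C) * (N + D + 2 : ℝ) ^ C

lemma sum_comp_le {α γ : Type*} [DecidableEq γ] (Q : Finset α) (g : α → γ) (W : γ → ℝ) (hW : ∀ y, 0 ≤ W y)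
    (M : ℝ) (hM : ∀ y, ((Q.filter (fun q => g q = y)).card : ℝ) ≤ M) :
    ∑ q ∈ Q, W (g q) ≤ M * ∑ y ∈ Q.image g, W y := by
  rw [Finset.sum_comp, Finset.mul_sum]
  apply Finset.sum_le_sum
  intro y _
  rw [nsmul_eq_mul]
  exact mul_le_mul_of_nonneg_right (hM y) (hW y)

/-- Pairs of walks with a common end point. -/
noncomputable def pairs (d n : ℕ) : Finset (List (Vtx d) × List (Vtx d)) :=
  (sawF d n ×ˢ sawF d n).filter (fun q => q.1.getLast? = q.2.getLast?)

lemma getLast_mem_box {n : ℕ} {w : List (Vtx d)} (hw : w ∈ sawF d n) :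
    ∃ v ∈ Fintype.piFinset (fun _ : Fin d => Finset.Icc (-(n:ℤ)) n), w.getLast? = some v := by
  have hw' := mem_sawF.mp hw
  have hw0 : w ≠ [] := by rintro rfl; simp at hw'
  refine ⟨w.getLast hw0, ?_, List.getLast?_eq_some_getLast hw0⟩
  rw [Fintype.mem_piFinset]
  intro i
  rw [Finset.mem_Icc]
  exact abs_le.mp (saw_abs_le hw (List.getLast_mem hw0) i)

/-- Cauchy–Schwarz. -/
lemma sq_Zs_le {β : ℝ} (n : ℕ) :
    (Zs d β n) ^ 2 ≤ (2 * n + 1 : ℝ) ^ d *
      ∑ q ∈ pairs d n, wt β q.1.toFinset * wt β q.2.toFinset := by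
  set X : Finset (Option (Vtx d)) :=
    (Fintype.piFinset (fun _ : Fin d => Finset.Icc (-(n:ℤ)) n)).image some with hX
  have hmaps : ∀ w ∈ sawF d n, w.getLast? ∈ X := by
    intro w hw
    obtain ⟨v, hv, h⟩ := getLast_mem_box hw
    rw [h]
    exact Finset.mem_image_of_mem _ hv
  have hcard : (X.card : ℝ) ≤ (2 * n + 1 : ℝ) ^ d := by
    have h1 : X.card ≤ (2 * n + 1) ^ d := by
      refine Finset.card_image_le.trans (le_of_eq ?_)
      rw [Fintype.card_piFinset]
      simp
      congr 1
      omega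
    exact_mod_cast h1
  have h1 : Zs d β n = ∑ x ∈ X, ∑ w ∈ (sawF d n).filter (fun w => w.getLast? = x),
      wt β w.toFinset := by
    unfold Zs
    rw [Finset.sum_fiberwise_of_maps_to hmaps]
  have h2 : ∑ q ∈ pairs d n, wt β q.1.toFinset * wt β q.2.toFinset =
      ∑ x ∈ X, (∑ w ∈ (sawF d n).filter (fun w => w.getLast? = x), wt β w.toFinset) ^ 2 := by
    have h3 : ∀ q ∈ pairs d n, q.1.getLast? ∈ X := by
      intro q hq
      unfold pairs at hq
      rw [Finset.mem_filter, Finset.mem_product] at hq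
      exact hmaps _ hq.1.1
    rw [← Finset.sum_fiberwise_of_maps_to h3]
    apply Finset.sum_congr rfl
    intro x _
    rw [sq, Finset.sum_mul_sum, ← Finset.sum_product']
    apply Finset.sum_congr
    · ext q
      unfold pairs
      simp only [Finset.mem_filter, Finset.mem_product]
      constructor
      · rintro ⟨⟨⟨h4, h5⟩, h6⟩, h7⟩
        exact ⟨⟨h4, h7⟩, h5, h6 ▸ h7⟩
      · rintro ⟨⟨h4, h7⟩, h5, h8⟩
        exact ⟨⟨⟨h4, h5⟩, h7.trans h8.symm⟩, h7⟩
    · intro q _; rfl
  rw [h1, h2]
  calc (∑ x ∈ X, ∑ w ∈ (sawF d n).filter (fun w => w.getLast? = x), wt β w.toFinset) ^ 2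
      ≤ X.card * ∑ x ∈ X, (∑ w ∈ (sawF d n).filter (fun w => w.getLast? = x),
          wt β w.toFinset) ^ 2 := sq_sum_le_card_mul_sum_sq
    _ ≤ _ := by
        apply mul_le_mul_of_nonneg_right hcard
        exact Finset.sum_nonneg fun _ _ => sq_nonneg _

lemma shiftL_shiftL (σ τ : Vtx d) (w : List (Vtx d)) :
    shiftL σ (shiftL τ w) = shiftL (τ + σ) w := by
  unfold shiftL
  rw [List.map_map]
  congr 1
  funext x
  simp [add_assoc]

lemma shiftL_zero (w : List (Vtx d)) : shiftL 0 w = w := by
  unfold shiftL; simp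

lemma IsPoly.shift {σ : Vtx d} {y : List (Vtx d)} (h : IsPoly y) : IsPoly (shiftL σ y) := by
  refine ⟨shiftL_nodup h.1, shiftL_chain h.2.1, ?_⟩
  intro x hx z hz
  unfold shiftL at hx hz
  rw [List.head?_map] at hx
  rw [List.getLast?_map] at hz
  obtain ⟨a, ha, rfl⟩ := Option.mem_map.mp hx
  obtain ⟨b, hb, rfl⟩ := Option.mem_map.mp hz
  exact adj_add_right.mpr (h.2.2 a ha b hb)

/-- Summing over polygons in absolute position. -/
lemma sum_poly_le {β : ℝ} (Y : Finset (List (Vtx d))) (R B : ℕ)
    (hY : ∀ y ∈ Y, IsPoly y ∧ 1 ≤ y.length ∧ y.length ≤ B ∧ ∀ p ∈ y, ∀ i, |p i| ≤ (R : ℤ)) :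
    ∑ y ∈ Y, wt β y.toFinset ≤ (2 * R + 1 : ℝ) ^ d * ∑ N ∈ range (B + 1), Cs d β N := by
  set box := Fintype.piFinset (fun _ : Fin d => Finset.Icc (-(R:ℤ)) R) with hbox
  set U : Finset (Σ _ : ℕ, List (Vtx d)) := (range (B + 1)).sigma (fun N => polyF d N) with hU
  have hne : ∀ y ∈ Y, y ≠ [] := by
    intro y hy h
    have := (hY y hy).2.1
    rw [h] at this; simp at this
  let F : List (Vtx d) → Vtx d × (Σ _ : ℕ, List (Vtx d)) := fun y =>
    (y.headD 0, ⟨y.length, shiftL (-(y.headD 0)) y⟩)
  have hF : ∀ y ∈ Y, F y ∈ box ×ˢ U := by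
    intro y hy
    obtain ⟨h1, h2, h3, h4⟩ := hY y hy
    obtain ⟨a, t, rfl⟩ : ∃ a t, y = a :: t := by
      cases y with
      | nil => simp at h2
      | cons a t => exact ⟨a, t, rfl⟩
    rw [Finset.mem_product]
    constructor
    · rw [hbox, Fintype.mem_piFinset]
      intro i
      rw [Finset.mem_Icc]
      exact abs_le.mp (h4 a (by simp) i)
    · rw [hU, Finset.mem_sigma]
      refine ⟨by rw [Finset.mem_range]; simp only [F]; omega, ?_⟩
      simp only [F]
      rw [mem_polyF]
      refine ⟨h1.shift, by simp [shiftL], by simp [shiftL]⟩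
  have hinj : Set.InjOn F Y := by
    intro y _ y' _ h
    simp only [F, Prod.mk.injEq, Sigma.mk.injEq] at h
    obtain ⟨h1, h2, h3⟩ := h
    have h3 := eq_of_heq h3
    rw [h1] at h3
    have h4 := congrArg (shiftL (y'.headD 0)) h3
    rw [shiftL_shiftL, shiftL_shiftL, neg_add_cancel, shiftL_zero, shiftL_zero] at h4
    exact h4
  calc ∑ y ∈ Y, wt β y.toFinset
      = ∑ y ∈ Y, wt β (F y).2.2.toFinset := by
        apply Finset.sum_congr rfl
        intro y _
        simp only [F]
        rw [wt_shiftL]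
    _ = ∑ z ∈ Y.image F, wt β z.2.2.toFinset := by
        rw [Finset.sum_image]
        exact hinj
    _ ≤ ∑ z ∈ box ×ˢ U, wt β z.2.2.toFinset := by
        apply Finset.sum_le_sum_of_subset_of_nonneg
        · intro z hz
          obtain ⟨y, hy, rfl⟩ := Finset.mem_image.mp hz
          exact hF y hy
        · intro z _ _
          exact (wt_pos β _).le
    _ = box.card * ∑ N ∈ range (B + 1), Cs d β N := by
        rw [Finset.sum_product]
        simp only [Finset.sum_const, nsmul_eq_mul]
        rw [hU, Finset.sum_sigma]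
        rfl
    _ = (2 * R + 1 : ℝ) ^ d * ∑ N ∈ range (B + 1), Cs d β N := by
        congr 1
        rw [hbox, Fintype.card_piFinset]
        simp only [Int.card_Icc, Finset.prod_const, Finset.card_univ, Fintype.card_fin]
        push_cast
        congr 1
        have : ((R:ℤ) + 1 - -(R:ℤ)).toNat = 2 * R + 1 := by omega
        rw [this]; push_cast; ring

/-- The finite form of the key inequality. -/
lemma key_finite (hd : 2 ≤ d) {β : ℝ} (hβ : 0 ≤ β) (c : ℕ) (r : ℕ) (hr : 1 ≤ r) (ε : ℝ) (C : ℕ)
    (hε : 0 < ε) (n : ℕ) (hn : 3 ≤ n) (N D : ℕ) (hN : N = 2 * n + 2)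
    (hD : D = 4 * (n / r + 1) + r * r)
    (f : List (Vtx d) → List (Vtx d))
    (hf1 : ∀ l, Good (r * r + 2) N D l →
      IsPoly (f l) ∧ f l ≠ [] ∧
      ((f l).length : ℝ) ≤ l.length + (c * D + ε * N + C) ∧
      (E l.toFinset : ℝ) ≤ E (f l).toFinset + (c * D + ε * N + C) ∧
      ∀ p ∈ f l, ∃ q ∈ l, ∀ i, ((|p i - q i| : ℤ) : ℝ) ≤ N + (c * D + ε * N + C))
    (hf2 : ∀ y, {l | Good (r * r + 2) N D l ∧ f l = y}.Finite ∧
      ({l | Good (r * r + 2) N D l ∧ f l = y}.ncard : ℝ) ≤
        Real.exp (c * D + ε * N + C) * (N + D + 2 : ℝ) ^ C)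
    (R B : ℕ) (hR : (n + (n / r + 1) : ℝ) + (N + (c * D + ε * N + C)) ≤ R)
    (hB : (N : ℝ) + (c * D + ε * N + C) ≤ B) :
    (Zs d β n) ^ 2 ≤ (2 * n + 1 : ℝ) ^ d * (Real.exp (2 * d * β * (r * r)) *
      (Real.exp (3 / 2 * β * (c * D + ε * N + C)) *
      ((Real.exp (c * D + ε * N + C) * (N + D + 2 : ℝ) ^ C * (((n + 1) * (n + 1) + 1 : ℕ) : ℝ) ^ (r * r)) *
      ((2 * R + 1 : ℝ) ^ d * ∑ N ∈ range (B + 1), Cs d β N)))) := by
  set A : ℝ := c * D + ε * N + C with hA
  have hA0 : 0 ≤ A := by positivity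
  set i0 : Fin d := ⟨0, by omega⟩
  set i1 : Fin d := ⟨1, by omega⟩
  have hi : i0 ≠ i1 := by simp [i0, i1]
  set S := n / r + 1 with hS
  have hSr : n + 1 ≤ S * r := by
    have h1 := Nat.div_add_mod n r
    have h2 := Nat.mod_lt n (by omega : 0 < r)
    rw [hS]; nlinarith
  -- the choice of shifts
  have hex : ∀ q : List (Vtx d) × List (Vtx d), ∃ p : ℕ × ℕ, q ∈ pairs d n →
      p.1 < S ∧ p.2 < S ∧
      (shiftL (shiftV i0 i1 p) q.2).countP (fun v => decide (v ∈ q.1)) ≤ r * r := by
    intro q
    by_cases hq : q ∈ pairs d n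
    · unfold pairs at hq
      have hq' := hq
      rw [Finset.mem_filter, Finset.mem_product, mem_sawF, mem_sawF] at hq'
      obtain ⟨p, h1, h2, h3⟩ := exists_shift hi S (r * r) (by rw [hS]; exact Nat.succ_pos _)
        q.1 q.2
        (by
          rw [hq'.1.1.2.1, hq'.1.2.2.1]
          nlinarith [hSr, Nat.mul_le_mul hSr hSr])
      exact ⟨p, fun _ => ⟨h1, h2, h3⟩⟩
    · exact ⟨(0, 0), fun h => absurd h hq⟩
  choose sh hsh using hex
  let w2 : List (Vtx d) × List (Vtx d) → List (Vtx d) := fun q =>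
    shiftL (shiftV i0 i1 (sh q)) q.2
  let Φ : List (Vtx d) × List (Vtx d) → List (Vtx d) := fun q => join q.1 (w2 q)
  have hlen : ∀ q ∈ pairs d n, q.1.length = n + 1 ∧ q.2.length = n + 1 ∧ (w2 q).length = n + 1 := by
    intro q hq
    unfold pairs at hq
    rw [Finset.mem_filter, Finset.mem_product, mem_sawF, mem_sawF] at hq
    refine ⟨hq.1.1.2.1, hq.1.2.2.1, ?_⟩
    simp only [w2, shiftL, List.length_map]
    exact hq.1.2.2.1
  have hcnt : ∀ q ∈ pairs d n, (w2 q).countP (fun v => decide (v ∈ q.1)) ≤ r * r :=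
    fun q hq => (hsh q hq).2.2
  have hGood : ∀ q ∈ pairs d n, Good (r * r + 2) N D (Φ q) := by
    intro q hq
    obtain ⟨hl1, hl2, hl3⟩ := hlen q hq
    obtain ⟨hs1, hs2, hs3⟩ := hsh q hq
    have hq' := hq
    unfold pairs at hq'
    rw [Finset.mem_filter, Finset.mem_product] at hq'
    obtain ⟨⟨hw, hw'⟩, hlast⟩ := hq'
    have hjl := join_length q.1 (w2 q)
    refine ⟨join_nodup (mem_sawF.mp hw).1.1 (shiftL_nodup (mem_sawF.mp hw').1.1), ?_, ?_, ?_, ?_⟩
    · have h5 : q.1.length ≤ (join q.1 (w2 q)).length := by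
        unfold join; rw [List.length_append]; omega
      simp only [Φ]; omega
    · simp only [Φ]; rw [hN]; omega
    · have := csum_F2_join hw hw' (shiftV i0 i1 (sh q))
      simp only [Φ, w2]; omega
    · have := csum_F1_join hw hw' hlast i0 i1 (sh q)
      simp only [Φ, w2]; rw [hD]; omega
  -- multiplicity of Φ
  have hmult : ∀ l, (((pairs d n).filter (fun q => Φ q = l)).card) ≤
      ((n + 1) * (n + 1) + 1) ^ (r * r) := by
    intro l
    set w := l.take (n + 1) with hw
    set G : Finset (ℕ × Vtx d) := range (n + 1) ×ˢ w.toFinset with hG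
    have hwq : ∀ q ∈ (pairs d n).filter (fun q => Φ q = l), q.1 = w := by
      intro q hq
      rw [Finset.mem_filter] at hq
      rw [hw, ← hq.2]
      simp only [Φ, join]
      rw [List.take_append_of_le_length (by rw [(hlen q hq.1).1]), List.take_of_length_le
        (by rw [(hlen q hq.1).1])]
    calc ((pairs d n).filter (fun q => Φ q = l)).card
        ≤ (G.powerset.filter (fun K => K.card ≤ r * r)).card := by
          apply Finset.card_le_card_of_injOn (fun q => code q.1 (w2 q))
          · intro q hq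
            have hq' := Finset.mem_filter.mp (Finset.mem_coe.mp hq)
            rw [Finset.mem_coe, Finset.mem_filter, Finset.mem_powerset]
            refine ⟨?_, (code_card _ _).trans (hcnt q hq'.1)⟩
            have h1 := code_subset q.1 (w2 q)
            rw [(hlen q hq'.1).2.2, hwq q hq] at h1
            change code q.1 (w2 q) ⊆ G
            rw [hwq q hq]
            exact h1
          · intro q hq q' hq' h
            have h1 := Finset.mem_filter.mp (Finset.mem_coe.mp hq)
            have h1' := Finset.mem_filter.mp (Finset.mem_coe.mp hq')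
            have e1 := hwq q hq
            have e1' := hwq q' hq'
            have e2 : w2 q = w2 q' := by
              apply eq_of_code (w := w)
              · rw [(hlen q h1.1).2.2, (hlen q' h1'.1).2.2]
              · have h' : code q.1 (w2 q) = code q'.1 (w2 q') := h
                rw [e1, e1'] at h'
                exact h'
              · have e3 : Φ q = Φ q' := h1.2.trans h1'.2.symm
                simp only [Φ] at e3
                rw [e1, e1'] at e3
                exact e3
            have h2 := h1.1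
            have h2' := h1'.1
            unfold pairs at h2 h2'
            rw [Finset.mem_filter, Finset.mem_product, mem_sawF, mem_sawF] at h2 h2'
            have e4 : q.2 = q'.2 := by
              have hh : ∀ (u : List (Vtx d)) (σ : Vtx d), u.head? = some 0 →
                  (shiftL σ u).head? = some σ := by
                intro u σ hu
                unfold shiftL
                rw [List.head?_map, hu]
                simp
              have h3 := hh q.2 (shiftV i0 i1 (sh q)) h2.1.2.2.2
              have h3' := hh q'.2 (shiftV i0 i1 (sh q')) h2'.1.2.2.2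
              have e5 : shiftL (shiftV i0 i1 (sh q)) q.2 =
                shiftL (shiftV i0 i1 (sh q')) q'.2 := e2
              rw [e5, h3'] at h3
              have e6 := Option.some.inj h3
              rw [e6] at e5
              have e7 := congrArg (shiftL (-(shiftV i0 i1 (sh q)))) e5
              rw [shiftL_shiftL, shiftL_shiftL, add_neg_cancel, shiftL_zero, shiftL_zero] at e7
              exact e7
            exact Prod.ext (e1.trans e1'.symm) e4
      _ ≤ (G.card + 1) ^ (r * r) := card_small_subsets G _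
      _ ≤ ((n + 1) * (n + 1) + 1) ^ (r * r) := by
          apply Nat.pow_le_pow_left
          have h1 : w.toFinset.card ≤ n + 1 := by
            refine (List.toFinset_card_le w).trans ?_
            rw [hw, List.length_take]; omega
          rw [hG, Finset.card_product, Finset.card_range]
          have := Nat.mul_le_mul_left (n + 1) h1
          omega
  -- multiplicity of the whole map
  set M : ℝ := Real.exp A * (N + D + 2 : ℝ) ^ C * (((n + 1) * (n + 1) + 1 : ℕ) : ℝ) ^ (r * r)
    with hM
  have hmult2 : ∀ y, (((pairs d n).filter (fun q => f (Φ q) = y)).card : ℝ) ≤ M := by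
    intro y
    obtain ⟨hfin, hcard⟩ := hf2 y
    have h1 : ((pairs d n).filter (fun q => f (Φ q) = y)).card ≤
        hfin.toFinset.card * ((n + 1) * (n + 1) + 1) ^ (r * r) := by
      rw [mul_comm]
      apply Finset.card_le_mul_card_image_of_maps_to (f := Φ)
      · intro q hq
        rw [Finset.mem_filter] at hq
        rw [Set.Finite.mem_toFinset]
        exact ⟨hGood q hq.1, hq.2⟩
      · intro l _
        refine le_trans (Finset.card_le_card ?_) (hmult l)
        intro q hq
        simp only [Finset.mem_filter] at hq ⊢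
        exact ⟨hq.1.1, hq.2⟩
    rw [← Set.ncard_eq_toFinset_card _ hfin] at h1
    calc (((pairs d n).filter (fun q => f (Φ q) = y)).card : ℝ)
        ≤ (({l | Good (r * r + 2) N D l ∧ f l = y}.ncard *
          ((n + 1) * (n + 1) + 1) ^ (r * r) : ℕ) : ℝ) := by exact_mod_cast h1
      _ = ({l | Good (r * r + 2) N D l ∧ f l = y}.ncard : ℝ) *
          (((n + 1) * (n + 1) + 1 : ℕ) : ℝ) ^ (r * r) := by push_cast; ring
      _ ≤ M := by
          rw [hM]
          exact mul_le_mul_of_nonneg_right hcard (by positivity)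
  -- weights
  have hwt : ∀ q ∈ pairs d n, wt β q.1.toFinset * wt β q.2.toFinset ≤
      Real.exp (2 * d * β * (r * r)) * (Real.exp (3 / 2 * β * A) * wt β (f (Φ q)).toFinset) := by
    intro q hq
    have h1 := wt_join hβ q.1 (w2 q)
    have h2 : wt β (w2 q).toFinset = wt β q.2.toFinset := wt_shiftL β _ _
    rw [h2] at h1
    have h3 : Real.exp (2 * d * β * (w2 q).countP (fun v => decide (v ∈ q.1))) ≤
        Real.exp (2 * d * β * (r * r)) := by
      apply Real.exp_le_exp.mpr
      have : (((w2 q).countP (fun v => decide (v ∈ q.1)) : ℕ) : ℝ) ≤ (r * r : ℝ) := by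
        exact_mod_cast hcnt q hq
      gcongr
    obtain ⟨g1, g2, g3, g4, g5⟩ := hf1 (Φ q) (hGood q hq)
    have h4 : wt β (Φ q).toFinset ≤ Real.exp (3 / 2 * β * A) * wt β (f (Φ q)).toFinset := by
      unfold wt
      rw [← Real.exp_add, List.toFinset_card_of_nodup (hGood q hq).1,
        List.toFinset_card_of_nodup g1.1]
      apply Real.exp_le_exp.mpr
      nlinarith
    calc _ ≤ _ := h1
      _ ≤ Real.exp (2 * d * β * (r * r)) * wt β (join q.1 (w2 q)).toFinset := by
          have := wt_pos β (join q.1 (w2 q)).toFinset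
          gcongr
      _ ≤ _ := by
          have h5 : (0:ℝ) ≤ Real.exp (2 * d * β * (r * r)) := (Real.exp_pos _).le
          exact mul_le_mul_of_nonneg_left h4 h5
  -- the final polygons
  have hY : ∀ y ∈ (pairs d n).image (fun q => f (Φ q)),
      IsPoly y ∧ 1 ≤ y.length ∧ y.length ≤ B ∧ ∀ p ∈ y, ∀ i, |p i| ≤ (R : ℤ) := by
    intro y hy
    obtain ⟨q, hq, rfl⟩ := Finset.mem_image.mp hy
    obtain ⟨g1, g2, g3, g4, g5⟩ := hf1 (Φ q) (hGood q hq)
    refine ⟨g1, List.length_pos_iff.mpr g2, ?_, ?_⟩
    · have h1 : ((Φ q).length : ℝ) ≤ N := by exact_mod_cast (hGood q hq).2.2.1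
      have h2 : ((f (Φ q)).length : ℝ) ≤ B := by linarith
      exact_mod_cast h2
    · intro p hp i
      obtain ⟨x, hx, hpx⟩ := g5 p hp
      have h1 : |x i| ≤ (n + S : ℤ) := by
        simp only [Φ, join, List.mem_append, List.mem_reverse, List.mem_filter] at hx
        have hq' := hq
        unfold pairs at hq'
        rw [Finset.mem_filter, Finset.mem_product] at hq'
        rcases hx with hx | hx
        · have := saw_abs_le hq'.1.1 hx i
          omega
        · have hx' : x ∈ w2 q := hx.1
          simp only [w2, shiftL, List.mem_map] at hx'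
          obtain ⟨z, hz, rfl⟩ := hx'
          have h2 := saw_abs_le hq'.1.2 hz i
          have h3 : |shiftV i0 i1 (sh q) i| ≤ (S : ℤ) := by
            obtain ⟨hs1, hs2, _⟩ := hsh q hq
            simp only [shiftV, Pi.add_apply, Pi.single_apply]
            have e : ¬ (i = i0 ∧ i = i1) := fun h => hi (h.1.symm.trans h.2)
            rw [abs_le]
            split_ifs with e1 e2 e2
            · exact absurd ⟨e1, e2⟩ e
            · constructor <;> omega
            · constructor <;> omega
            · constructor <;> omega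
          have h4 := abs_add_le (z i) (shiftV i0 i1 (sh q) i)
          simp only [Pi.add_apply]
          linarith
      have h2 := hpx i
      have h3 : |p i| ≤ |p i - x i| + |x i| := by
        have := abs_add_le (p i - x i) (x i)
        simpa using this
      have h4 : ((|p i| : ℤ) : ℝ) ≤ R := by
        calc ((|p i| : ℤ) : ℝ) ≤ ((|p i - x i| + |x i| : ℤ) : ℝ) := by exact_mod_cast h3
          _ = ((|p i - x i| : ℤ) : ℝ) + ((|x i| : ℤ) : ℝ) := by push_cast; ring
          _ ≤ (N + A) + (n + S : ℝ) := by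
              apply add_le_add h2
              exact_mod_cast h1
          _ ≤ R := by
              have hS' : (S : ℝ) ≤ (n / r + 1 : ℝ) := by
                rw [hS]; push_cast
                have := @Nat.cast_div_le ℝ _ _ _ n r
                linarith
              linarith
      exact_mod_cast h4
  have hfinal := sum_poly_le (β := β) ((pairs d n).image (fun q => f (Φ q))) R B hY
  have hM0 : 0 ≤ M := by rw [hM]; positivity
  calc (Zs d β n) ^ 2 ≤ (2 * n + 1 : ℝ) ^ d *
        ∑ q ∈ pairs d n, wt β q.1.toFinset * wt β q.2.toFinset := sq_Zs_le n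
    _ ≤ (2 * n + 1 : ℝ) ^ d * ∑ q ∈ pairs d n, Real.exp (2 * d * β * (r * r)) *
          (Real.exp (3 / 2 * β * A) * wt β (f (Φ q)).toFinset) := by
        apply mul_le_mul_of_nonneg_left _ (by positivity)
        exact Finset.sum_le_sum hwt
    _ = (2 * n + 1 : ℝ) ^ d * (Real.exp (2 * d * β * (r * r)) *
          (Real.exp (3 / 2 * β * A) * ∑ q ∈ pairs d n, wt β (f (Φ q)).toFinset)) := by
        rw [← Finset.mul_sum, ← Finset.mul_sum]
    _ ≤ (2 * n + 1 : ℝ) ^ d * (Real.exp (2 * d * β * (r * r)) *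
          (Real.exp (3 / 2 * β * A) * (M *
            ∑ y ∈ (pairs d n).image (fun q => f (Φ q)), wt β y.toFinset))) := by
        have := sum_comp_le (pairs d n) (fun q => f (Φ q)) (fun y => wt β y.toFinset)
          (fun y => (wt_pos β _).le) M hmult2
        gcongr
    _ ≤ _ := by gcongr

end Pool.Agent.Lib.Pff0a55
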