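import Mathlib
import Pool.Agent.Lib.Pff0a55.Key
import Pool.Agent.Lib.Pff0a55C.Close

/-!
# The gap closing theorem in the form used by the assembly
-/

set_option autoImplicit false

open Finset Classical

namespace Pool.Agent.Lib.Pff0a55

variable {d : ℕ}

lemma nd_eq_dist1 (u v : Vtx d) : nd u v = Pff0a55C.dist1 u v := rfl

lemma adj_iff' (u v : Vtx d) : Pff0a55C.Adj u v ↔ Adj u v := by
  unfold Pff0a55C.Adj
  rw [← nd_eq_dist1, nd_eq_one_iff]

lemma gapLen_eq_csum (l : List (Vtx d)) : Pff0a55C.gapLen l = csum F1 l := rfl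

lemma countP_eq_sum {α : Type*} (p : α → Prop) [DecidablePred p] (l : List α) :
    l.countP (fun x => decide (p x)) = (l.map (fun x => if p x then 1 else 0)).sum := by
  induction l with
  | nil => rfl
  | cons a l ih =>
    rw [List.countP_cons, ih, List.map_cons, List.sum_cons]
    by_cases h : p a <;> simp [h, add_comm]

lemma gaps_eq_csum (l : List (Vtx d)) : Pff0a55C.gaps l = csum F2 l := by
  unfold Pff0a55C.gaps csum
  rw [countP_eq_sum (fun w : Vtx d × Vtx d => Pff0a55C.dist1 w.1 w.2 ≠ 1)]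
  rfl

lemma nE_eq (V : Finset (Vtx d)) : Pff0a55C.nE V = E V := by
  unfold Pff0a55C.nE E
  apply Finset.card_bij (fun p _ => p)
  · intro p hp
    simp only [Finset.mem_filter] at hp ⊢
    exact ⟨hp.1, (adj_iff' _ _).mp hp.2⟩
  · intro p _ q _ h
    exact h
  · intro p hp
    simp only [Finset.mem_filter] at hp
    refine ⟨p, ?_, rfl⟩
    simp only [Finset.mem_filter]
    exact ⟨hp.1, (adj_iff' _ _).mpr hp.2⟩

lemma isPoly_of_cpairs {l : List (Vtx d)} (h1 : l.Nodup)
    (h2 : ∀ w ∈ Pff0a55C.cpairs l, Pff0a55C.Adj w.1 w.2) : IsPoly l := by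
  have key : ∀ i (hi : i < l.length), Adj l[i] (l[(i + 1) % l.length]'(Nat.mod_lt _ (by omega))) := by
    intro i hi
    rw [← adj_iff']
    have hi' : i < (l.rotate 1).length := by rw [List.length_rotate]; exact hi
    have hz : i < (l.zip (l.rotate 1)).length := by
      rw [List.length_zip]; exact lt_min hi hi'
    have h3 : (l.zip (l.rotate 1))[i] ∈ Pff0a55C.cpairs l := List.getElem_mem hz
    have h4 := h2 _ h3
    rw [List.getElem_zip] at h4
    simp only [List.getElem_rotate] at h4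
    exact h4
  refine ⟨h1, ?_, ?_⟩
  · rw [List.isChain_iff_getElem]
    intro i hi
    have h3 := key i (by omega)
    simp only [Nat.mod_eq_of_lt hi] at h3
    exact h3
  · intro x hx y hy
    cases l with
    | nil => simp at hx
    | cons a t =>
      have h3 := key (a :: t).length.pred (by simp)
      have e1 : ((a :: t).length.pred + 1) % (a :: t).length = 0 := by simp
      simp only [e1] at h3
      rw [List.head?_cons, Option.mem_some_iff] at hx
      rw [List.getLast?_eq_getElem?, List.getElem?_eq_getElem (by simp), Option.mem_some_iff] at hy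
      rw [← hx, ← hy]
      exact h3

theorem closingStmt (d : ℕ) (hd : 1 ≤ d) : ClosingStmt d := by
  refine ⟨36 * (d + 1), ?_⟩
  intro J ε hε
  obtain ⟨C, hC⟩ := Pff0a55C.closing d hd J ε hε
  refine ⟨C, ?_⟩
  intro N D
  obtain ⟨f, hf1, hf2⟩ := hC N D
  have hHyp : ∀ l : List (Vtx d), Good J N D l → Pff0a55C.Hyp N J D l := by
    rintro l ⟨h1, h2, h3, h4, h5⟩
    refine ⟨h1, ?_, h3, ?_, ?_⟩
    · rintro rfl; simp at h2
    · rw [gaps_eq_csum]; exact h4
    · rw [gapLen_eq_csum]; exact h5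
  have hc : ((36 * (d + 1) : ℕ) : ℝ) = 36 * (d + 1) := by push_cast; ring
  refine ⟨f, ?_, ?_⟩
  · intro l hl
    obtain ⟨g1, g2, g3, g4, g5, g6, g7⟩ := hf1 l (hHyp l hl)
    rw [hc]
    refine ⟨isPoly_of_cpairs g1 g3, g2, g4, ?_, ?_⟩
    · rw [← nE_eq, ← nE_eq]; exact g6
    · intro p hp
      obtain ⟨q, hq, hpq⟩ := g7 p hp
      refine ⟨q, hq, fun i => ?_⟩
      have h1 := hpq i
      push_cast
      have h2 : (0:ℝ) ≤ N := by positivity
      linarith
  · intro y
    obtain ⟨g1, g2⟩ := hf2 y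
    have hsub : {l | Good J N D l ∧ f l = y} ⊆ {l | Pff0a55C.Hyp N J D l ∧ f l = y} :=
      fun l hl => ⟨hHyp l hl.1, hl.2⟩
    refine ⟨g1.subset hsub, ?_⟩
    rw [hc]
    refine le_trans ?_ g2
    exact_mod_cast Set.ncard_le_ncard hsub g1

end Pool.Agent.Lib.Pff0a55
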