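import Mathlib
import Pool.Agent.Lib.Pff0a55.Steps

/-!
# Edge counts of finite vertex sets, and cyclic lists
-/

set_option autoImplicit false

open Finset Classical

namespace Pool.Agent.Lib.Pff0a55

variable {d : ℕ}

lemma E_image_of_adj (f : Vtx d → Vtx d) (hf : Function.Injective f)
    (hadj : ∀ x y, Adj (f x) (f y) ↔ Adj x y) (V : Finset (Vtx d)) : E (V.image f) = E V := by
  unfold E
  symm
  apply Finset.card_bij (fun (p : Vtx d × Vtx d) _ => (f p.1, f p.2))
  · intro p hp
    simp only [Finset.mem_filter, Finset.mem_product] at hp ⊢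
    exact ⟨⟨Finset.mem_image_of_mem _ hp.1.1, Finset.mem_image_of_mem _ hp.1.2⟩,
      (hadj _ _).2 hp.2⟩
  · intro p _ q _ h
    simp only [Prod.mk.injEq] at h
    exact Prod.ext (hf h.1) (hf h.2)
  · rintro ⟨x, y⟩ hxy
    simp only [Finset.mem_filter, Finset.mem_product, Finset.mem_image] at hxy
    obtain ⟨⟨⟨a, ha, rfl⟩, ⟨b, hb, rfl⟩⟩, h⟩ := hxy
    exact ⟨(a, b), by
      simp only [Finset.mem_filter, Finset.mem_product]
      exact ⟨⟨ha, hb⟩, (hadj _ _).1 h⟩, rfl⟩

lemma wt_image_of_adj (β : ℝ) (f : Vtx d → Vtx d) (hf : Function.Injective f)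
    (hadj : ∀ x y, Adj (f x) (f y) ↔ Adj x y) (V : Finset (Vtx d)) :
    wt β (V.image f) = wt β V := by
  unfold wt
  rw [E_image_of_adj f hf hadj, Finset.card_image_of_injective _ hf]

lemma E_union_ge {V W : Finset (Vtx d)} (h : Disjoint V W) : E V + E W ≤ E (V ∪ W) := by
  unfold E
  rw [← Finset.card_union_of_disjoint]
  · apply Finset.card_le_card
    intro p hp
    simp only [Finset.mem_union, Finset.mem_filter, Finset.mem_product] at hp ⊢
    rcases hp with ⟨⟨h1, h2⟩, h3⟩ | ⟨⟨h1, h2⟩, h3⟩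
    · exact ⟨⟨Or.inl h1, Or.inl h2⟩, h3⟩
    · exact ⟨⟨Or.inr h1, Or.inr h2⟩, h3⟩
  · rw [Finset.disjoint_left] at h ⊢
    intro p hp hq
    simp only [Finset.mem_filter, Finset.mem_product] at hp hq
    exact h hp.1.1 hq.1.1

lemma wt_union_ge {β : ℝ} (hβ : 0 ≤ β) {V W : Finset (Vtx d)} (h : Disjoint V W) :
    wt β V * wt β W ≤ wt β (V ∪ W) := by
  unfold wt
  rw [← Real.exp_add]
  apply Real.exp_le_exp.mpr
  rw [Finset.card_union_of_disjoint h]
  have h1 : ((E V : ℝ) + E W) ≤ E (V ∪ W) := by exact_mod_cast E_union_ge h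
  push_cast
  nlinarith

/-- Adding two points with two cross edges does not lower the weight. -/
lemma wt_add_two {β : ℝ} (hβ : 0 ≤ β) {V : Finset (Vtx d)} {a a' b b' : Vtx d}
    (ha : a ∉ V) (hb : b ∉ V) (hab : a ≠ b) (ha' : a' ∈ V) (hb' : b' ∈ V)
    (h1 : Adj a a') (h2 : Adj b b') : wt β V ≤ wt β (insert a (insert b V)) := by
  have haV : a ∉ insert b V := by
    rw [Finset.mem_insert]; push Not; exact ⟨hab, ha⟩
  unfold wt
  apply Real.exp_le_exp.mpr
  rw [Finset.card_insert_of_notMem haV, Finset.card_insert_of_notMem hb]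
  have hE : E V + 4 ≤ E (insert a (insert b V)) := by
    have h3 : ((V ×ˢ V).filter (fun p => Adj p.1 p.2)) ∪
        ({(a, a'), (a', a), (b, b'), (b', b)} : Finset (Vtx d × Vtx d)) ⊆
        ((insert a (insert b V)) ×ˢ (insert a (insert b V))).filter (fun p => Adj p.1 p.2) := by
      intro p hp
      simp only [Finset.mem_union, Finset.mem_filter, Finset.mem_product, Finset.mem_insert,
        Finset.mem_singleton] at hp ⊢
      rcases hp with ⟨⟨q1, q2⟩, q3⟩ | rfl | rfl | rfl | rfl
      · exact ⟨⟨Or.inr (Or.inr q1), Or.inr (Or.inr q2)⟩, q3⟩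
      · exact ⟨⟨Or.inl rfl, Or.inr (Or.inr ha')⟩, h1⟩
      · exact ⟨⟨Or.inr (Or.inr ha'), Or.inl rfl⟩, h1.symm⟩
      · exact ⟨⟨Or.inr (Or.inl rfl), Or.inr (Or.inr hb')⟩, h2⟩
      · exact ⟨⟨Or.inr (Or.inr hb'), Or.inr (Or.inl rfl)⟩, h2.symm⟩
    have h4 : Disjoint ((V ×ˢ V).filter (fun p => Adj p.1 p.2))
        ({(a, a'), (a', a), (b, b'), (b', b)} : Finset (Vtx d × Vtx d)) := by
      rw [Finset.disjoint_left]
      intro p hp hq
      simp only [Finset.mem_filter, Finset.mem_product, Finset.mem_insert,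
        Finset.mem_singleton] at hp hq
      rcases hq with rfl | rfl | rfl | rfl
      · exact ha hp.1.1
      · exact ha hp.1.2
      · exact hb hp.1.1
      · exact hb hp.1.2
    have h5 : ({(a, a'), (a', a), (b, b'), (b', b)} : Finset (Vtx d × Vtx d)).card = 4 := by
      have n1 : a ≠ a' := fun h => ha (h ▸ ha')
      have n2 : b ≠ b' := fun h => hb (h ▸ hb')
      have n3 : a ≠ b' := fun h => ha (h ▸ hb')
      have n4 : b ≠ a' := fun h => hb (h ▸ ha')
      rw [Finset.card_insert_of_notMem, Finset.card_insert_of_notMem,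
        Finset.card_insert_of_notMem, Finset.card_singleton]
      · simp only [Finset.mem_singleton, Prod.mk.injEq, not_and]
        intro h; exact absurd h n2
      · simp only [Finset.mem_insert, Finset.mem_singleton, Prod.mk.injEq, not_or, not_and]
        exact ⟨fun _ h => n3 h, fun _ h => hab h⟩
      · simp only [Finset.mem_insert, Finset.mem_singleton, Prod.mk.injEq, not_or, not_and]
        exact ⟨fun h => absurd h n1, fun h => absurd h hab, fun h => absurd h n3⟩
    calc E V + 4 = (((V ×ˢ V).filter (fun p => Adj p.1 p.2)) ∪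
        ({(a, a'), (a', a), (b, b'), (b', b)} : Finset (Vtx d × Vtx d))).card := by
          rw [Finset.card_union_of_disjoint h4, h5]; rfl
      _ ≤ _ := Finset.card_le_card h3
  have hE' : (E V : ℝ) + 4 ≤ E (insert a (insert b V)) := by exact_mod_cast hE
  push_cast
  nlinarith

lemma E_le (V : Finset (Vtx d)) : E V ≤ V.card * (2 * d) := by
  unfold E
  have h : (V ×ˢ V).filter (fun p => Adj p.1 p.2) ⊆
      (V ×ˢ (Finset.univ : Finset (Fin d × Bool))).image (fun p => (p.1, p.1 + uvec p.2)) := by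
    intro p hp
    simp only [Finset.mem_filter, Finset.mem_product] at hp
    obtain ⟨s, hs⟩ := adj_iff_exists.mp hp.2
    rw [Finset.mem_image]
    exact ⟨(p.1, s), by simp [hp.1.1], by rw [← hs]⟩
  calc _ ≤ _ := Finset.card_le_card h
    _ ≤ _ := Finset.card_image_le
    _ = V.card * (2 * d) := by
      rw [Finset.card_product]
      simp [Fintype.card_prod]
      left; ring

lemma wt_le {β : ℝ} (hβ : 0 ≤ β) (V : Finset (Vtx d)) :
    wt β V ≤ Real.exp (β * (d * V.card)) := by
  unfold wt
  apply Real.exp_le_exp.mpr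
  apply mul_le_mul_of_nonneg_left _ hβ
  have h : (E V : ℝ) ≤ V.card * (2 * d) := by exact_mod_cast E_le V
  have : (0 : ℝ) ≤ V.card := Nat.cast_nonneg _
  nlinarith

/-! ### Cyclic lists -/

lemma isPoly_iff {L : List (Vtx d)} (hL : 0 < L.length) :
    IsPoly L ↔ L.Nodup ∧ ∀ i (hi : i < L.length),
      Adj L[i] (L[(i + 1) % L.length]'(Nat.mod_lt _ hL)) := by
  unfold IsPoly
  constructor
  · rintro ⟨h1, h2, h3⟩
    refine ⟨h1, fun i hi => ?_⟩
    rcases Nat.lt_or_ge (i + 1) L.length with h | h
    · rw [List.isChain_iff_getElem] at h2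
      have := h2 i h
      simpa only [Nat.mod_eq_of_lt h] using this
    · have e : i + 1 = L.length := by omega
      have h4 := h3 (L[0]'hL) (by rw [List.head?_eq_getElem?, List.getElem?_eq_getElem hL]; rfl)
        (L[i]'hi) (by
          rw [List.getLast?_eq_getElem?, List.getElem?_eq_getElem (by omega)]
          rw [Option.mem_some_iff]
          congr 1; omega)
      have e2 : (i + 1) % L.length = 0 := by rw [e, Nat.mod_self]
      simpa only [e2] using h4
  · rintro ⟨h1, h2⟩
    refine ⟨h1, ?_, ?_⟩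
    · rw [List.isChain_iff_getElem]
      intro i hi
      have := h2 i (by omega)
      simpa only [Nat.mod_eq_of_lt hi] using this
    · intro x hx y hy
      rw [List.head?_eq_getElem?, List.getElem?_eq_getElem hL, Option.mem_some_iff] at hx
      rw [List.getLast?_eq_getElem?, List.getElem?_eq_getElem (by omega),
        Option.mem_some_iff] at hy
      have := h2 (L.length - 1) (by omega)
      have e2 : (L.length - 1 + 1) % L.length = 0 := by
        rw [Nat.sub_add_cancel (by omega), Nat.mod_self]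
      simp only [e2] at this
      rw [← hx, ← hy]
      exact this

lemma IsPoly.rotate {L : List (Vtx d)} (h : IsPoly L) (hL : 0 < L.length) (r : ℕ) :
    IsPoly (L.rotate r) := by
  have hL' : 0 < (L.rotate r).length := by rw [List.length_rotate]; exact hL
  rw [isPoly_iff hL]at h
  rw [isPoly_iff hL']
  refine ⟨List.nodup_rotate.mpr h.1, ?_⟩
  intro i hi
  rw [List.getElem_rotate, List.getElem_rotate]
  have h2 := h.2 ((i + r) % L.length) (Nat.mod_lt _ hL)
  have e : ((i + r) % L.length + 1) % L.length =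
      ((i + 1) % (L.rotate r).length + r) % L.length := by
    rw [List.length_rotate]
    simp only [Nat.mod_add_mod]
    congr 1; ring
  simp only [e] at h2
  exact h2

lemma IsPoly.map {L : List (Vtx d)} (h : IsPoly L) (f : Vtx d → Vtx d)
    (hf : Function.Injective f) (hadj : ∀ x y, Adj (f x) (f y) ↔ Adj x y) :
    IsPoly (L.map f) := by
  obtain ⟨h1, h2, h3⟩ := h
  refine ⟨(List.nodup_map_iff hf).mpr h1, ?_, ?_⟩
  · rw [List.isChain_map]
    exact h2.imp (fun a b hab => (hadj a b).2 hab)
  · intro x hx y hy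
    rw [List.head?_map] at hx
    rw [List.getLast?_map] at hy
    rw [Option.mem_map] at hx hy
    obtain ⟨x', hx', rfl⟩ := hx
    obtain ⟨y', hy', rfl⟩ := hy
    exact (hadj _ _).2 (h3 x' hx' y' hy')

lemma toFinset_map' (L : List (Vtx d)) (f : Vtx d → Vtx d) :
    (L.map f).toFinset = L.toFinset.image f := by
  ext x; simp

lemma toFinset_rotate (L : List (Vtx d)) (r : ℕ) : (L.rotate r).toFinset = L.toFinset := by
  ext x; simp

end Pool.Agent.Lib.Pff0a55
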