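import Mathlib
import Pool.Agent.Lib.Pff0a55.PolyE

/-!
# Rooting closed self-avoiding walks at an edge in their extreme hyperplane
-/

set_option autoImplicit false

open Finset Classical

namespace Pool.Agent.Lib.Pff0a55

/-- The lattice symmetry taking the unit vector of the step `s` to the unit vector `e 1`. -/
def sig {k : ℕ} (s : Fin (k + 2) × Bool) (x : Vtx (k + 2)) : Vtx (k + 2) := fun i =>
  if i = 1 then (if s.2 then x s.1 else - x s.1) else if i = s.1 then x 1 else x i

lemma sig_abs {k : ℕ} (s : Fin (k + 2) × Bool) (x y : Vtx (k + 2)) (i : Fin (k + 2)) :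
    |sig s x i - sig s y i| = |x (Equiv.swap 1 s.1 i) - y (Equiv.swap 1 s.1 i)| := by
  unfold sig
  by_cases h1 : i = 1
  · subst h1
    rw [Equiv.swap_apply_left, if_pos rfl, if_pos rfl]
    cases s.2
    · simp only [Bool.false_eq_true, if_false]
      rw [← abs_neg]; congr 1; ring
    · simp
  · rw [if_neg h1, if_neg h1]
    by_cases h2 : i = s.1
    · rw [if_pos h2, if_pos h2, h2, Equiv.swap_apply_right]
    · rw [if_neg h2, if_neg h2, Equiv.swap_apply_of_ne_of_ne h1 h2]

lemma sig_adj {k : ℕ} (s : Fin (k + 2) × Bool) (x y : Vtx (k + 2)) :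
    Adj (sig s x) (sig s y) ↔ Adj x y := by
  unfold Adj
  simp only [sig_abs]
  rw [Equiv.sum_comp (Equiv.swap 1 s.1) (fun i => |x i - y i|)]

lemma sig_inj {k : ℕ} (s : Fin (k + 2) × Bool) : Function.Injective (sig s) := by
  intro x y h
  funext i
  have h1 := sig_abs s x y (Equiv.swap 1 s.1 i)
  rw [Equiv.swap_apply_self, h, sub_self, abs_zero] at h1
  have := abs_eq_zero.mp h1.symm
  omega

lemma sig_zero {k : ℕ} (s : Fin (k + 2) × Bool) (hs : s.1 ≠ 0) (x : Vtx (k + 2)) :
    sig s x 0 = x 0 := by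
  unfold sig
  rw [if_neg (by simp), if_neg (Ne.symm hs)]

lemma sig_map_zero {k : ℕ} (s : Fin (k + 2) × Bool) : sig s (0 : Vtx (k + 2)) = 0 := by
  funext i; unfold sig; simp

lemma sig_uvec {k : ℕ} (s : Fin (k + 2) × Bool) : sig s (uvec s) = uvec (1, true) := by
  funext i
  unfold sig uvec
  by_cases h1 : i = 1
  · simp only [h1, if_true]
    cases s.2 <;> simp
  · rw [if_neg h1]
    simp only [if_neg h1]
    by_cases h2 : i = s.1
    · rw [if_pos h2, if_neg]
      intro h; exact h1 (h2.trans h.symm)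
    · rw [if_neg h2, if_neg h2]

lemma adj_flat {k : ℕ} {x y : Vtx (k + 2)} (h : Adj x y) (h0 : y 0 = x 0) :
    ∃ s : Fin (k + 2) × Bool, s.1 ≠ 0 ∧ y = x + uvec s := by
  obtain ⟨s, rfl⟩ := adj_iff_exists.mp h
  refine ⟨s, ?_, rfl⟩
  intro hs
  simp only [Pi.add_apply, uvec, ← hs] at h0
  simp only [if_true] at h0
  split_ifs at h0 <;> omega

lemma adj_drop {k : ℕ} {x y : Vtx (k + 2)} (h : Adj x y) (h0 : y 0 < x 0) :
    y = x + uvec (0, false) := by
  obtain ⟨⟨j, b⟩, rfl⟩ := adj_iff_exists.mp h
  simp only [Pi.add_apply, uvec] at h0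
  by_cases hj : (0 : Fin (k + 2)) = j
  · subst hj
    cases b
    · rfl
    · simp at h0
  · rw [if_neg hj] at h0; omega

/-- Closed self-avoiding walks with `2m` vertices, first vertex `0`, last vertex `e 1`, lying in
the half-space `x 0 ≤ 0`. -/
noncomputable def Afin (k m : ℕ) : Finset (List (Vtx (k + 2))) :=
  (polyF (k + 2) (2 * m)).filter (fun L => L.getLast? = some (uvec (1, true)) ∧ ∀ x ∈ L, x 0 ≤ 0)

noncomputable def As (k : ℕ) (β : ℝ) (m : ℕ) : ℝ := ∑ L ∈ Afin k m, wt β L.toFinset

lemma mem_Afin {k m : ℕ} {L : List (Vtx (k + 2))} : L ∈ Afin k m ↔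
    (IsPoly L ∧ L.length = 2 * m ∧ L.head? = some 0) ∧
      L.getLast? = some (uvec (1, true)) ∧ ∀ x ∈ L, x 0 ≤ 0 := by
  unfold Afin
  rw [Finset.mem_filter, mem_polyF]

lemma As_le_Cs (k : ℕ) (β : ℝ) (m : ℕ) : As k β m ≤ Cs (k + 2) β (2 * m) := by
  unfold As Cs Afin
  apply Finset.sum_le_sum_of_subset_of_nonneg (Finset.filter_subset _ _)
  intro L _ _
  exact (wt_pos _ _).le

/-- Re-rooting. -/
noncomputable def reroot {k : ℕ} (c : ℕ × (Fin (k + 2) × Bool)) (L : List (Vtx (k + 2))) :
    List (Vtx (k + 2)) :=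
  (L.rotate c.1).map (fun x => sig c.2 (x - L.getD c.1 0))

lemma sub_inj' {k : ℕ} (s : Fin (k + 2) × Bool) (v : Vtx (k + 2)) :
    Function.Injective (fun x => sig s (x - v)) := by
  intro x y h
  have := sig_inj s h
  exact sub_left_injective this

lemma sub_adj' {k : ℕ} (s : Fin (k + 2) × Bool) (v : Vtx (k + 2)) (x y : Vtx (k + 2)) :
    Adj (sig s (x - v)) (sig s (y - v)) ↔ Adj x y := by
  rw [sig_adj, sub_eq_add_neg, sub_eq_add_neg, adj_add_right]

lemma wt_reroot {k : ℕ} (β : ℝ) (c : ℕ × (Fin (k + 2) × Bool)) (L : List (Vtx (k + 2))) :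
    wt β (reroot c L).toFinset = wt β L.toFinset := by
  unfold reroot
  rw [toFinset_map', toFinset_rotate, wt_image_of_adj _ _ (sub_inj' _ _) (sub_adj' _ _)]

lemma reroot_inj {k : ℕ} (c : ℕ × (Fin (k + 2) × Bool)) {L L' : List (Vtx (k + 2))}
    (hL : L.head? = some 0) (hL' : L'.head? = some 0) (h : reroot c L = reroot c L') :
    L = L' := by
  unfold reroot at h
  set v := L.getD c.1 0
  set v' := L'.getD c.1 0
  have h1 : (L.map (fun x => sig c.2 (x - v))) = (L'.map (fun x => sig c.2 (x - v'))) := by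
    rw [List.map_rotate, List.map_rotate] at h
    exact List.rotate_injective _ h
  have h2 : (L.map (fun x => x - v)) = (L'.map (fun x => x - v')) := by
    have e1 : (L.map (fun x => sig c.2 (x - v))) = (L.map (fun x => x - v)).map (sig c.2) := by
      rw [List.map_map]; rfl
    have e2 : (L'.map (fun x => sig c.2 (x - v'))) = (L'.map (fun x => x - v')).map (sig c.2) := by
      rw [List.map_map]; rfl
    rw [e1, e2] at h1
    exact (List.map_injective_iff.mpr (sig_inj c.2)) h1
  have h3 : (0 : Vtx (k + 2)) - v = 0 - v' := by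
    have := congrArg List.head? h2
    rw [List.head?_map, List.head?_map, hL, hL'] at this
    simpa using this
  have h4 : v = v' := by simpa using h3
  rw [← h4] at h2
  exact (List.map_injective_iff.mpr (fun a b hab => sub_left_injective hab)) h2

/-- Every closed self-avoiding walk with at least four vertices can be re-rooted at an edge in its
extreme hyperplane. -/
lemma exists_reroot {k m : ℕ} (hm : 2 ≤ m) {L : List (Vtx (k + 2))}
    (hL : L ∈ polyF (k + 2) (2 * m)) :
    ∃ c : ℕ × (Fin (k + 2) × Bool), c.1 < 2 * m ∧ reroot c L ∈ Afin k m := by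
  rw [mem_polyF] at hL
  obtain ⟨hp, hlen, hhd⟩ := hL
  set N := 2 * m with hN
  have hN4 : 4 ≤ N := by omega
  have hLpos : 0 < L.length := by omega
  have hcyc := (isPoly_iff hLpos).mp hp
  set v : ℕ → Vtx (k + 2) := fun i => L[i % L.length]'(Nat.mod_lt _ hLpos) with hv
  have hvadj : ∀ i, Adj (v i) (v (i + 1)) := by
    intro i
    have := hcyc.2 (i % L.length) (Nat.mod_lt _ hLpos)
    simp only [Nat.mod_add_mod] at this
    exact this
  have hvper : ∀ i, v (i + N) = v i := by
    intro i
    simp only [hv]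
    congr 1
    rw [hlen, Nat.add_mod_right]
  have hvinj : ∀ i j, v i = v j → i % N = j % N := by
    intro i j h
    have := (List.Nodup.getElem_inj_iff hcyc.1).mp h
    rwa [hlen] at this
  obtain ⟨i0, _, hmax0⟩ := Finset.exists_max_image (Finset.range N) (fun i => v i 0)
    ⟨0, Finset.mem_range.mpr (by omega)⟩
  have hmax : ∀ a, v a 0 ≤ v i0 0 := by
    intro a
    have h1 := hmax0 (a % N) (Finset.mem_range.mpr (Nat.mod_lt _ (by omega)))
    have h2 : v (a % N) = v a := by
      simp only [hv]; congr 1; rw [hlen, Nat.mod_mod]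
    rwa [h2] at h1
  -- the good rotation
  have hr : ∃ r, v (r + (N - 1)) 0 = v r 0 ∧ ∀ a, v a 0 ≤ v r 0 := by
    by_cases h1 : v (i0 + 1) 0 = v i0 0
    · refine ⟨i0 + 1, ?_, ?_⟩
      · have : v (i0 + 1 + (N - 1)) = v i0 := by
          rw [show i0 + 1 + (N - 1) = i0 + N by omega]; exact hvper i0
        rw [this, h1]
      · intro a; rw [h1]; exact hmax a
    · by_cases h2 : v (i0 + (N - 1)) 0 = v i0 0
      · exact ⟨i0, h2, hmax⟩
      · exfalso
        have a1 : v (i0 + 1) = v i0 + uvec (0, false) := by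
          apply adj_drop (hvadj i0)
          have := hmax (i0 + 1); omega
        have a2 : v (i0 + (N - 1)) = v i0 + uvec (0, false) := by
          apply adj_drop
          · have := hvadj (i0 + (N - 1))
            rw [show i0 + (N - 1) + 1 = i0 + N by omega, hvper i0] at this
            exact this.symm
          · have := hmax (i0 + (N - 1)); omega
        have a3 := hvinj (i0 + 1) (i0 + (N - 1)) (a1.trans a2.symm)
        have a4 : (i0 + 1) ≡ (i0 + (N - 1)) [MOD N] := a3
        have a5 : (1 : ℕ) ≡ N - 1 [MOD N] := Nat.ModEq.add_left_cancel' i0 a4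
        unfold Nat.ModEq at a5
        rw [Nat.mod_eq_of_lt (by omega), Nat.mod_eq_of_lt (by omega)] at a5
        omega
  obtain ⟨r', hr1, hr2⟩ := hr
  set r := r' % N with hrdef
  have hrN : r < N := Nat.mod_lt _ (by omega)
  have hvr : v r = v r' := by
    simp only [hv, hrdef]; congr 1; rw [hlen, Nat.mod_mod]
  have hvr2 : v (r + (N - 1)) = v (r' + (N - 1)) := by
    simp only [hv, hrdef]; congr 1; rw [hlen, Nat.mod_add_mod]
  have hadj : Adj (v r) (v (r + (N - 1))) := by
    have := hvadj (r + (N - 1))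
    rw [show r + (N - 1) + 1 = r + N by omega, hvper r] at this
    exact this.symm
  obtain ⟨s, hs0, hs⟩ := adj_flat hadj (by rw [hvr2, hvr, hr1])
  refine ⟨(r, s), hrN, ?_⟩
  rw [mem_Afin]
  have hgetD : L.getD r 0 = v r := by
    rw [List.getD_eq_getElem _ _ (by omega : r < L.length)]
    simp only [hv]
    congr 1
    rw [Nat.mod_eq_of_lt (by omega)]
  have hrl : (L.rotate r).length = N := by rw [List.length_rotate, hlen]
  refine ⟨⟨?_, ?_, ?_⟩, ?_, ?_⟩
  · unfold reroot
    exact (hp.rotate hLpos r).map _ (sub_inj' _ _) (sub_adj' _ _)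
  · unfold reroot
    rw [List.length_map]; exact hrl
  · unfold reroot
    rw [List.head?_map, List.head?_eq_getElem?, List.getElem?_eq_getElem (by rw [hrl]; omega)]
    simp only [Option.map_some, Option.some.injEq]
    rw [List.getElem_rotate]
    rw [hgetD]
    have : L[(0 + r) % L.length]'(Nat.mod_lt _ hLpos) = v r := by
      simp only [hv, Nat.zero_add]
    rw [this, sub_self, sig_map_zero]
  · unfold reroot
    rw [List.getLast?_map, List.getLast?_eq_getElem?,
      List.getElem?_eq_getElem (by rw [hrl]; omega)]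
    simp only [Option.map_some, Option.some.injEq]
    rw [List.getElem_rotate]
    rw [hgetD]
    have : L[((L.rotate r).length - 1 + r) % L.length]'(Nat.mod_lt _ hLpos) = v (r + (N - 1)) := by
      simp only [hv, hrl]
      congr 2; ring
    rw [this, hs, add_sub_cancel_left, sig_uvec]
  · intro x hx
    unfold reroot at hx
    rw [List.mem_map] at hx
    obtain ⟨y, hy, rfl⟩ := hx
    rw [List.mem_rotate] at hy
    rw [sig_zero _ hs0, hgetD]
    obtain ⟨a, ha, rfl⟩ := List.getElem_of_mem hy
    have : L[a] = v a := by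
      simp only [hv]; congr 1; rw [Nat.mod_eq_of_lt ha]
    rw [this, Pi.sub_apply, hvr]
    have := hr2 a
    omega

lemma Cs_le_As {k m : ℕ} (β : ℝ) (hm : 2 ≤ m) :
    Cs (k + 2) β (2 * m) ≤ (4 * (k + 2) * m : ℝ) * As k β m := by
  have hch : ∀ L : List (Vtx (k + 2)), ∃ c : ℕ × (Fin (k + 2) × Bool),
      L ∈ polyF (k + 2) (2 * m) → c.1 < 2 * m ∧ reroot c L ∈ Afin k m := by
    intro L
    by_cases hL : L ∈ polyF (k + 2) (2 * m)
    · obtain ⟨c, hc⟩ := exists_reroot hm hL
      exact ⟨c, fun _ => hc⟩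
    · exact ⟨(0, (0, true)), fun h => absurd h hL⟩
  choose c hc using hch
  unfold Cs
  have hmaps : ∀ L ∈ polyF (k + 2) (2 * m), c L ∈
      (Finset.range (2 * m) ×ˢ (Finset.univ : Finset (Fin (k + 2) × Bool))) := by
    intro L hL
    rw [Finset.mem_product]
    exact ⟨Finset.mem_range.mpr (hc L hL).1, Finset.mem_univ _⟩
  rw [← Finset.sum_fiberwise_of_maps_to hmaps]
  have hfib : ∀ a ∈ (Finset.range (2 * m) ×ˢ (Finset.univ : Finset (Fin (k + 2) × Bool))),
      ∑ L ∈ (polyF (k + 2) (2 * m)).filter (fun L => c L = a), wt β L.toFinset ≤ As k β m := by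
    intro a _
    unfold As
    have h1 : ∑ L ∈ (polyF (k + 2) (2 * m)).filter (fun L => c L = a), wt β L.toFinset =
        ∑ L' ∈ ((polyF (k + 2) (2 * m)).filter (fun L => c L = a)).image (reroot a),
          wt β L'.toFinset := by
      rw [Finset.sum_image]
      · apply Finset.sum_congr rfl
        intro L _
        rw [wt_reroot]
      · intro L hL L' hL' h
        rw [Finset.mem_coe, Finset.mem_filter, mem_polyF] at hL hL'
        exact reroot_inj a hL.1.2.2 hL'.1.2.2 h
    rw [h1]
    apply Finset.sum_le_sum_of_subset_of_nonneg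
    · intro L' hL'
      rw [Finset.mem_image] at hL'
      obtain ⟨L, hL, rfl⟩ := hL'
      rw [Finset.mem_filter] at hL
      rw [← hL.2]
      exact (hc L hL.1).2
    · intro L _ _
      exact (wt_pos _ _).le
  calc _ ≤ ∑ a ∈ (Finset.range (2 * m) ×ˢ (Finset.univ : Finset (Fin (k + 2) × Bool))),
        As k β m := Finset.sum_le_sum hfib
    _ = _ := by
      rw [Finset.sum_const, Finset.card_product]
      simp only [Finset.card_range, Finset.card_univ, Fintype.card_prod, Fintype.card_fin,
        Fintype.card_bool, nsmul_eq_mul]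
      push_cast
      ring

end Pool.Agent.Lib.Pff0a55
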