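import Mathlib
import Pool.Agent.Lib.Pff0a55.PolyRoot
import Pool.Agent.Lib.P8e4414.Conv

/-!
# The free energy of closed self-avoiding walks exists
-/

set_option autoImplicit false

open Finset Classical Filter Topology

namespace Pool.Agent.Lib.Pff0a55

/-- The reflection in the hyperplane `x 0 = 1/2`. -/
def refl0 {k : ℕ} (x : Vtx (k + 2)) : Vtx (k + 2) := fun i => if i = 0 then 1 - x 0 else x i

lemma refl0_inj {k : ℕ} : Function.Injective (refl0 (k := k)) := by
  intro x y h
  funext i
  have := congrFun h i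
  unfold refl0 at this
  by_cases hi : i = 0
  · subst hi; simp only [if_true] at this; omega
  · simpa only [if_neg hi] using this

lemma refl0_adj {k : ℕ} (x y : Vtx (k + 2)) : Adj (refl0 x) (refl0 y) ↔ Adj x y := by
  unfold Adj
  have : ∀ i, |refl0 x i - refl0 y i| = |x i - y i| := by
    intro i
    unfold refl0
    by_cases hi : i = 0
    · subst hi
      simp only [if_true]
      rw [← abs_neg]; congr 1; ring
    · simp only [if_neg hi]
  simp only [this]

/-- Gluing. -/
def glue {k : ℕ} (P Q : List (Vtx (k + 2))) : List (Vtx (k + 2)) := P ++ (Q.map refl0).reverse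

lemma glue_mem {k m n : ℕ} {P Q : List (Vtx (k + 2))} (hP : P ∈ Afin k m) (hQ : Q ∈ Afin k n) :
    glue P Q ∈ polyF (k + 2) (2 * (m + n)) := by
  rw [mem_Afin] at hP hQ
  obtain ⟨⟨⟨p1, p2, p3⟩, p4, p5⟩, p6, p7⟩ := hP
  obtain ⟨⟨⟨q1, q2, q3⟩, q4, q5⟩, q6, q7⟩ := hQ
  have hhd : (Q.map refl0).reverse.head? = some (refl0 (uvec (1, true))) := by
    rw [List.head?_reverse, List.getLast?_map, q6]; rfl
  have hlt : (Q.map refl0).reverse.getLast? = some (refl0 0) := by
    rw [List.getLast?_reverse, List.head?_map, q5]; rfl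
  rw [mem_polyF]
  unfold glue
  refine ⟨⟨?_, ?_, ?_⟩, ?_, ?_⟩
  · rw [List.nodup_append]
    refine ⟨p1, List.nodup_reverse.mpr ((List.nodup_map_iff refl0_inj).mpr q1), ?_⟩
    intro x hx y hy hxy
    rw [List.mem_reverse, List.mem_map] at hy
    obtain ⟨z, hz, rfl⟩ := hy
    have h1 := p7 x hx
    have h2 := q7 z hz
    rw [hxy] at h1
    simp only [refl0, if_true] at h1
    omega
  · rw [List.isChain_append]
    refine ⟨p2, ?_, ?_⟩
    · rw [List.isChain_reverse, List.isChain_map]
      exact q2.imp (fun a b hab => ((refl0_adj a b).2 hab).symm)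
    · intro x hx y hy
      rw [p6, Option.mem_some_iff] at hx
      rw [hhd, Option.mem_some_iff] at hy
      rw [← hx, ← hy, adj_iff_exists]
      refine ⟨(0, true), ?_⟩
      funext i
      simp only [refl0, uvec, Pi.add_apply]
      by_cases hi : i = 0
      · subst hi; simp
      · simp [hi]
  · intro x hx y hy
    rw [List.head?_append, p5] at hx
    rw [List.getLast?_append, hlt] at hy
    simp only [Option.some_or, Option.mem_some_iff] at hx hy
    rw [← hx, ← hy, adj_comm, adj_iff_exists]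
    refine ⟨(0, true), ?_⟩
    funext i
    simp only [refl0, uvec, Pi.add_apply]
    by_cases hi : i = 0
    · subst hi; simp
    · simp [hi]
  · rw [List.length_append, List.length_reverse, List.length_map, p4, q4]; ring
  · rw [List.head?_append, p5]; rfl

lemma wt_glue {k m n : ℕ} {β : ℝ} (hβ : 0 ≤ β) {P Q : List (Vtx (k + 2))} (hP : P ∈ Afin k m)
    (hQ : Q ∈ Afin k n) : wt β P.toFinset * wt β Q.toFinset ≤ wt β (glue P Q).toFinset := by
  rw [mem_Afin] at hP hQ
  have h1 : (glue P Q).toFinset = P.toFinset ∪ Q.toFinset.image refl0 := by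
    ext x; simp [glue]
  rw [h1, ← wt_image_of_adj β refl0 refl0_inj refl0_adj Q.toFinset]
  apply wt_union_ge hβ
  rw [Finset.disjoint_left]
  intro x hx hy
  rw [Finset.mem_image] at hy
  obtain ⟨z, hz, rfl⟩ := hy
  rw [List.mem_toFinset] at hx hz
  have h1 := hP.2.2 _ hx
  have h2 := hQ.2.2 z hz
  simp only [refl0, if_true] at h1
  omega

lemma As_mul_le {k m n : ℕ} {β : ℝ} (hβ : 0 ≤ β) :
    As k β m * As k β n ≤ Cs (k + 2) β (2 * (m + n)) := by
  unfold As Cs
  rw [Finset.sum_mul_sum, ← Finset.sum_product']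
  have h1 : ∑ x ∈ Afin k m ×ˢ Afin k n, wt β x.1.toFinset * wt β x.2.toFinset ≤
      ∑ x ∈ Afin k m ×ˢ Afin k n, wt β (glue x.1 x.2).toFinset := by
    apply Finset.sum_le_sum
    intro x hx
    rw [Finset.mem_product] at hx
    exact wt_glue hβ hx.1 hx.2
  refine h1.trans ?_
  have h2 : ∑ x ∈ Afin k m ×ˢ Afin k n, wt β (glue x.1 x.2).toFinset =
      ∑ L ∈ (Afin k m ×ˢ Afin k n).image (fun x => glue x.1 x.2), wt β L.toFinset := by
    rw [Finset.sum_image]
    rintro ⟨P, Q⟩ hx ⟨P', Q'⟩ hy h
    rw [Finset.mem_coe, Finset.mem_product, mem_Afin, mem_Afin] at hx hy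
    simp only at hx hy h
    unfold glue at h
    have h3 := List.append_inj h (by rw [hx.1.1.2.1, hy.1.1.2.1])
    have h4 := (List.map_injective_iff.mpr refl0_inj) (List.reverse_injective h3.2)
    rw [h3.1, h4]
  rw [h2]
  apply Finset.sum_le_sum_of_subset_of_nonneg
  · intro L hL
    rw [Finset.mem_image] at hL
    obtain ⟨x, hx, rfl⟩ := hL
    rw [Finset.mem_product] at hx
    exact glue_mem hx.1 hx.2
  · intro L _ _
    exact (wt_pos _ _).le

/-- Lengthening by two. -/
def bump {k : ℕ} (P : List (Vtx (k + 2))) : List (Vtx (k + 2)) :=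
  0 :: (P.map (fun x => x + uvec (0, false)) ++ [uvec (1, true)])

lemma uvec0_0 {k : ℕ} : (uvec (0, false) : Vtx (k + 2)) 0 = -1 := by simp [uvec]
lemma uvec1_0 {k : ℕ} : (uvec (1, true) : Vtx (k + 2)) 0 = 0 := by simp [uvec]

lemma add_inj' {k : ℕ} (v : Vtx (k + 2)) : Function.Injective (fun x : Vtx (k + 2) => x + v) :=
  fun _ _ h => add_right_cancel h

lemma bump_mem {k m : ℕ} {P : List (Vtx (k + 2))} (hP : P ∈ Afin k m) :
    bump P ∈ Afin k (m + 1) := by
  rw [mem_Afin] at hP
  obtain ⟨⟨⟨p1, p2, p3⟩, p4, p5⟩, p6, p7⟩ := hP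
  rw [mem_Afin]
  unfold bump
  have hhd : (P.map (fun x => x + uvec (0, false))).head? = some (uvec (0, false)) := by
    rw [List.head?_map, p5]; simp
  have hlt : (P.map (fun x => x + uvec (0, false))).getLast? =
      some (uvec (1, true) + uvec (0, false)) := by
    rw [List.getLast?_map, p6]; rfl
  refine ⟨⟨⟨?_, ?_, ?_⟩, ?_, ?_⟩, ?_, ?_⟩
  · rw [List.nodup_cons, List.nodup_append]
    refine ⟨?_, (List.nodup_map_iff (add_inj' _)).mpr p1, by simp, ?_⟩
    · rw [List.mem_append, List.mem_map, List.mem_singleton]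
      rintro (⟨x, hx, h⟩ | h)
      · have := congrFun h 0
        rw [Pi.add_apply, uvec0_0] at this
        have := p7 x hx
        simp only [Pi.zero_apply] at *
        omega
      · have := congrFun h 1
        simp [uvec] at this
    · intro x hx y hy hxy
      rw [List.mem_map] at hx
      rw [List.mem_singleton] at hy
      obtain ⟨z, hz, rfl⟩ := hx
      rw [hy] at hxy
      have := congrFun hxy 0
      rw [Pi.add_apply, uvec0_0, uvec1_0] at this
      have := p7 z hz
      omega
  · rw [List.isChain_cons]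
    refine ⟨?_, ?_⟩
    · intro y hy
      rw [List.head?_append, hhd] at hy
      simp only [Option.some_or, Option.mem_some_iff] at hy
      rw [← hy]
      have := adj_uvec (0 : Vtx (k + 2)) (0, false)
      rwa [zero_add] at this
    · rw [List.isChain_append]
      refine ⟨?_, List.isChain_singleton _, ?_⟩
      · rw [List.isChain_map]
        exact p2.imp (fun a b hab => adj_add_right.2 hab)
      · intro x hx y hy
        rw [hlt, Option.mem_some_iff] at hx
        simp only [List.head?_cons, Option.mem_some_iff] at hy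
        rw [← hx, ← hy]
        exact (adj_uvec _ _).symm
  · intro x hx y hy
    simp only [List.head?_cons, Option.mem_some_iff] at hx
    rw [← List.cons_append, List.getLast?_append] at hy
    simp only [List.getLast?_singleton, Option.some_or, Option.mem_some_iff] at hy
    rw [← hx, ← hy, adj_comm]
    have := adj_uvec (0 : Vtx (k + 2)) (1, true)
    rwa [zero_add] at this
  · simp only [List.length_cons, List.length_append, List.length_map, p4, List.length_nil]
    ring
  · rfl
  · rw [← List.cons_append, List.getLast?_append]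
    simp
  · intro x hx
    rw [List.mem_cons, List.mem_append, List.mem_map, List.mem_singleton] at hx
    rcases hx with rfl | ⟨z, hz, rfl⟩ | rfl
    · simp
    · rw [Pi.add_apply, uvec0_0]
      have := p7 z hz
      omega
    · rw [uvec1_0]

lemma wt_bump {k m : ℕ} {β : ℝ} (hβ : 0 ≤ β) {P : List (Vtx (k + 2))} (hP : P ∈ Afin k m) :
    wt β P.toFinset ≤ wt β (bump P).toFinset := by
  have hP' := hP
  rw [mem_Afin] at hP
  obtain ⟨⟨⟨p1, p2, p3⟩, p4, p5⟩, p6, p7⟩ := hP
  have h1 : (bump P).toFinset = insert 0 (insert (uvec (1, true))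
      (P.toFinset.image (fun x => x + uvec (0, false)))) := by
    ext x
    simp only [bump, List.mem_toFinset, List.mem_cons, List.mem_append, List.mem_map,
      Finset.mem_insert, Finset.mem_image, List.not_mem_nil, or_false]
    constructor
    · rintro (h | h | h)
      · exact Or.inl h
      · exact Or.inr (Or.inr h)
      · exact Or.inr (Or.inl h)
    · rintro (h | h | h)
      · exact Or.inl h
      · exact Or.inr (Or.inr h)
      · exact Or.inr (Or.inl h)
  rw [h1, ← wt_image_of_adj β (fun x => x + uvec (0, false)) (add_inj' _)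
    (fun x y => adj_add_right) P.toFinset]
  have hneg : ∀ x ∈ P.toFinset.image (fun x => x + uvec (0, false)), x 0 < 0 := by
    intro x hx
    rw [Finset.mem_image] at hx
    obtain ⟨z, hz, rfl⟩ := hx
    rw [List.mem_toFinset] at hz
    rw [Pi.add_apply, uvec0_0]
    have := p7 z hz
    omega
  apply wt_add_two hβ (a' := uvec (0, false)) (b' := uvec (1, true) + uvec (0, false))
  · intro h; have := hneg _ h; simp at this
  · intro h; have := hneg _ h; rw [uvec1_0] at this; omega
  · intro h
    have := congrFun h 1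
    simp [uvec] at this
  · rw [Finset.mem_image]
    refine ⟨0, ?_, by simp⟩
    rw [List.mem_toFinset]
    exact List.mem_of_head? p5
  · rw [Finset.mem_image]
    refine ⟨uvec (1, true), ?_, rfl⟩
    rw [List.mem_toFinset]
    exact List.mem_of_getLast? p6
  · have := adj_uvec (0 : Vtx (k + 2)) (0, false)
    rwa [zero_add] at this
  · exact adj_uvec _ _

lemma bump_inj {k : ℕ} : Function.Injective (bump (k := k)) := by
  intro P Q h
  unfold bump at h
  rw [List.cons.injEq] at h
  have := List.append_cancel_right h.2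
  exact (List.map_injective_iff.mpr (add_inj' _)) this

lemma As_le_succ {k : ℕ} {β : ℝ} (hβ : 0 ≤ β) (m : ℕ) : As k β m ≤ As k β (m + 1) := by
  unfold As
  calc ∑ L ∈ Afin k m, wt β L.toFinset ≤ ∑ L ∈ Afin k m, wt β (bump L).toFinset :=
        Finset.sum_le_sum (fun L hL => wt_bump hβ hL)
    _ = ∑ L ∈ (Afin k m).image bump, wt β L.toFinset := by
        rw [Finset.sum_image (fun a _ b _ h => bump_inj h)]
    _ ≤ _ := by
        apply Finset.sum_le_sum_of_subset_of_nonneg
        · intro L hL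
          rw [Finset.mem_image] at hL
          obtain ⟨x, hx, rfl⟩ := hL
          exact bump_mem hx
        · intro L _ _
          exact (wt_pos _ _).le

lemma As_mono {k : ℕ} {β : ℝ} (hβ : 0 ≤ β) : Monotone (As k β) :=
  monotone_nat_of_le_succ (As_le_succ hβ)

lemma As_one_pos (k : ℕ) (β : ℝ) : 0 < As k β 1 := by
  unfold As
  apply Finset.sum_pos (fun L _ => wt_pos _ _)
  refine ⟨[0, uvec (1, true)], ?_⟩
  rw [mem_Afin]
  have h0 : Adj (0 : Vtx (k + 2)) (uvec (1, true)) := by
    have := adj_uvec (0 : Vtx (k + 2)) (1, true)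
    rwa [zero_add] at this
  refine ⟨⟨⟨?_, ?_, ?_⟩, ?_, ?_⟩, ?_, ?_⟩
  · rw [List.nodup_cons, List.mem_singleton]
    exact ⟨h0.ne, by simp⟩
  · rw [List.isChain_cons]
    refine ⟨?_, List.isChain_singleton _⟩
    intro y hy
    simp only [List.head?_cons, Option.mem_some_iff] at hy
    rw [← hy]; exact h0
  · intro x hx y hy
    simp only [List.head?_cons, Option.mem_some_iff] at hx
    simp only [List.getLast?_cons_cons, List.getLast?_singleton, Option.mem_some_iff] at hy
    rw [← hx, ← hy]; exact h0.symm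
  · rfl
  · rfl
  · rfl
  · intro x hx
    rw [List.mem_cons, List.mem_singleton] at hx
    rcases hx with rfl | rfl
    · simp
    · rw [uvec1_0]

lemma As_pos {k : ℕ} {β : ℝ} (hβ : 0 ≤ β) {m : ℕ} (hm : 1 ≤ m) : 0 < As k β m :=
  (As_one_pos k β).trans_le (As_mono hβ hm)

lemma card_polyF_le (d N : ℕ) : (polyF d N).card ≤ (2 * d) ^ (N - 1) := by
  unfold polyF chainF
  calc _ ≤ _ := Finset.card_filter_le _ _
    _ ≤ _ := Finset.card_image_le
    _ = _ := by
      rw [Finset.card_univ, Fintype.card_fun, Fintype.card_prod, Fintype.card_fin,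
        Fintype.card_bool, Fintype.card_fin, mul_comm d 2]

lemma Cs_upper {d : ℕ} (hd : 1 ≤ d) {β : ℝ} (hβ : 0 ≤ β) (m : ℕ) :
    Cs d β (2 * m) ≤ Real.exp ((2 * Real.log (2 * d) + 2 * β * d) * m) := by
  unfold Cs
  have h1 : ∀ L ∈ polyF d (2 * m), wt β L.toFinset ≤ Real.exp (β * (d * (2 * m))) := by
    intro L hL
    rw [mem_polyF] at hL
    have h2 : L.toFinset.card = 2 * m := by
      rw [List.toFinset_card_of_nodup hL.1.1, hL.2.1]
    have := wt_le hβ L.toFinset
    rw [h2] at this
    push_cast at this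
    exact this
  have hd' : (1 : ℝ) ≤ 2 * d := by
    have : (1 : ℝ) ≤ d := by exact_mod_cast hd
    linarith
  calc ∑ L ∈ polyF d (2 * m), wt β L.toFinset
      ≤ ∑ L ∈ polyF d (2 * m), Real.exp (β * (d * (2 * m))) := Finset.sum_le_sum h1
    _ = (polyF d (2 * m)).card * Real.exp (β * (d * (2 * m))) := by
        rw [Finset.sum_const, nsmul_eq_mul]
    _ ≤ (2 * d : ℝ) ^ (2 * m) * Real.exp (β * (d * (2 * m))) := by
        apply mul_le_mul_of_nonneg_right _ (Real.exp_pos _).le
        calc ((polyF d (2 * m)).card : ℝ) ≤ ((2 * d) ^ (2 * m - 1) : ℕ) := by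
              exact_mod_cast card_polyF_le d (2 * m)
          _ = (2 * d : ℝ) ^ (2 * m - 1) := by push_cast; rfl
          _ ≤ (2 * d : ℝ) ^ (2 * m) := pow_le_pow_right₀ hd' (by omega)
    _ = Real.exp ((2 * Real.log (2 * d) + 2 * β * d) * m) := by
        have : (2 * d : ℝ) ^ (2 * m) = Real.exp (Real.log (2 * d) * (2 * m)) := by
          rw [← Real.exp_log (by linarith : (0:ℝ) < 2 * d), ← Real.exp_nat_mul, Real.exp_log (by linarith)]
          congr 1; push_cast; ring
        rw [this, ← Real.exp_add]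
        congr 1; ring

lemma log_le_sqrt {j : ℕ} (hj : 1 ≤ j) : Real.log j ≤ 2 * (Nat.sqrt j : ℝ) := by
  have h1 : (j : ℝ) ≤ ((Nat.sqrt j + 1 : ℕ) : ℝ) ^ 2 := by
    have := Nat.lt_succ_sqrt j
    have h2 : j ≤ (Nat.sqrt j + 1) ^ 2 := by rw [pow_two]; exact this.le
    exact_mod_cast h2
  have hj0 : (0 : ℝ) < j := by exact_mod_cast hj
  calc Real.log j ≤ Real.log (((Nat.sqrt j + 1 : ℕ) : ℝ) ^ 2) := Real.log_le_log hj0 h1
    _ = 2 * Real.log ((Nat.sqrt j + 1 : ℕ) : ℝ) := by rw [Real.log_pow]; norm_num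
    _ ≤ 2 * (Nat.sqrt j : ℝ) := by
      have := Real.log_le_sub_one_of_pos (show (0:ℝ) < ((Nat.sqrt j + 1 : ℕ) : ℝ) by positivity)
      push_cast at this ⊢
      linarith

lemma sqrt_le_rpow (j : ℕ) : (Nat.sqrt j : ℝ) ≤ (j : ℝ) ^ ((2:ℝ)/3) := by
  rcases Nat.eq_zero_or_pos j with h | h
  · subst h; simp
  · have h1 : ((Nat.sqrt j : ℝ)) ≤ Real.sqrt j := Real.nat_sqrt_le_real_sqrt
    refine h1.trans ?_
    rw [Real.sqrt_eq_rpow]
    apply Real.rpow_le_rpow_of_exponent_le (by exact_mod_cast h) (by norm_num)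

/-- Module P: limit of the free energy of closed self-avoiding walks. -/
theorem poly_limit {d : ℕ} (hd : 2 ≤ d) {β : ℝ} (hβ : 0 ≤ β) :
    ∃ l : ℝ, 0 ≤ l ∧ Tendsto (fun m : ℕ => Real.log (Cs d β (2 * m)) / m) atTop (𝓝 l) ∧
      (∀ m, 2 ≤ m → 0 < Cs d β (2 * m)) ∧
      ∃ K : ℝ, ∀ m M : ℕ, 1 ≤ m → m ≤ M → Cs d β (2 * m) ≤ K * m * Cs d β (2 * M) := by
  obtain ⟨k, rfl⟩ : ∃ k, d = k + 2 := ⟨d - 2, by omega⟩
  set A := As k β with hA
  have hApos : ∀ m, 1 ≤ m → 0 < A m := fun m hm => As_pos hβ hm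
  have hAC : ∀ m, A m ≤ Cs (k + 2) β (2 * m) := As_le_Cs k β
  have hCA : ∀ m, 2 ≤ m → Cs (k + 2) β (2 * m) ≤ (4 * (k + 2) * m : ℝ) * A m :=
    fun m hm => Cs_le_As β hm
  have hA1 : 0 < A 1 := hApos 1 le_rfl
  have hCpos : ∀ m, 1 ≤ m → 0 < Cs (k + 2) β (2 * m) := fun m hm => (hApos m hm).trans_le (hAC m)
  -- the auxiliary sequences
  set b : ℕ → ℝ := fun n => if n = 0 then 0 else Real.log (A n) - Real.log (A 1) with hb
  have hb0 : b 0 = 0 := by simp [hb]
  have hbn : ∀ n, 1 ≤ n → b n = Real.log (A n) - Real.log (A 1) := by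
    intro n hn
    simp only [hb]; rw [if_neg (by omega)]
  have hmono : Monotone b := by
    apply monotone_nat_of_le_succ
    intro n
    rcases Nat.eq_zero_or_pos n with h | h
    · subst h
      rw [hb0, hbn 1 le_rfl, sub_self]
    · rw [hbn n h, hbn (n + 1) (by omega)]
      have := Real.log_le_log (hApos n h) (As_le_succ hβ n)
      linarith
  obtain ⟨M0, hM0⟩ := exists_nat_gt (Real.log (4 * (k + 2)) + |Real.log (A 1)| + 2)
  set s : ℕ → ℕ := fun j => M0 * Nat.sqrt j with hs
  have hsm : Monotone s := fun a b hab => Nat.mul_le_mul_left _ (Nat.sqrt_le_sqrt hab)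
  have hsb : ∀ j : ℕ, (s j : ℝ) ≤ M0 * (j:ℝ) ^ ((2:ℝ)/3) := by
    intro j
    simp only [hs]; push_cast
    exact mul_le_mul_of_nonneg_left (sqrt_le_rpow j) (Nat.cast_nonneg _)
  have hsl : ∀ j : ℕ, 1 ≤ j → Real.log (4 * (k + 2) * (j : ℝ)) ≤ Real.log (A 1) + s j := by
    intro j hj
    have hj0 : (0 : ℝ) < j := by exact_mod_cast hj
    rw [Real.log_mul (by positivity) hj0.ne']
    have h1 := log_le_sqrt hj
    have h2 : (1 : ℝ) ≤ (Nat.sqrt j : ℝ) := by
      have : 1 ≤ Nat.sqrt j := Nat.sqrt_pos.mpr hj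
      exact_mod_cast this
    have h3 : (s j : ℝ) = M0 * (Nat.sqrt j : ℝ) := by simp only [hs]; push_cast; rfl
    rw [h3]
    have h4 := neg_abs_le (Real.log (A 1))
    have h5 : 0 ≤ Real.log (4 * (k + 2) : ℝ) := by
      apply Real.log_nonneg
      have : (0 : ℝ) ≤ k := Nat.cast_nonneg _
      linarith
    have h6 : 0 ≤ |Real.log (A 1)| := abs_nonneg _
    nlinarith
  have hsup : ∀ n m, b n + b m - s (n + m) ≤ b (n + m + s (n + m)) := by
    intro n m
    rcases Nat.eq_zero_or_pos n with h | h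
    · subst h
      rw [hb0, Nat.zero_add, zero_add]
      have h1 : b m ≤ b (m + s m) := hmono (by omega)
      have h2 : (0 : ℝ) ≤ s m := Nat.cast_nonneg _
      linarith
    rcases Nat.eq_zero_or_pos m with h' | h'
    · subst h'
      rw [hb0, Nat.add_zero, add_zero]
      have h1 : b n ≤ b (n + s n) := hmono (by omega)
      have h2 : (0 : ℝ) ≤ s n := Nat.cast_nonneg _
      linarith
    have h1 : b (n + m) ≤ b (n + m + s (n + m)) := hmono (by omega)
    refine le_trans ?_ h1
    rw [hbn n h, hbn m h', hbn (n + m) (by omega)]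
    have h2 : A n * A m ≤ (4 * (k + 2) * (n + m : ℕ) : ℝ) * A (n + m) :=
      (As_mul_le hβ).trans (hCA (n + m) (by omega))
    have h3 := Real.log_le_log (mul_pos (hApos n h) (hApos m h')) h2
    have hnm : (0 : ℝ) < ((n + m : ℕ) : ℝ) := by exact_mod_cast (by omega : 0 < n + m)
    rw [Real.log_mul (hApos n h).ne' (hApos m h').ne',
      Real.log_mul (by positivity) (hApos (n + m) (by omega)).ne'] at h3
    have h4 := hsl (n + m) (by omega)
    linarith
  set c0 : ℝ := 2 * Real.log (2 * (k + 2 : ℕ)) + 2 * β * (k + 2 : ℕ) with hc0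
  have hc0nn : 0 ≤ c0 := by
    rw [hc0]
    have : 0 ≤ Real.log (2 * (k + 2 : ℕ)) := by
      apply Real.log_nonneg
      push_cast
      have : (0 : ℝ) ≤ k := Nat.cast_nonneg _
      linarith
    positivity
  have hlogA : ∀ n, 1 ≤ n → Real.log (A n) ≤ c0 * n := by
    intro n hn
    have h1 := (hAC n).trans (Cs_upper (d := k + 2) (by omega) hβ n)
    have h2 := Real.log_le_log (hApos n hn) h1
    rwa [Real.log_exp] at h2
  have hC : ∀ n, b n ≤ (c0 + |Real.log (A 1)|) * n := by
    intro n
    rcases Nat.eq_zero_or_pos n with h | h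
    · subst h; rw [hb0]; simp
    · rw [hbn n h]
      have h1 := hlogA n h
      have h2 := neg_abs_le (Real.log (A 1))
      have h3 : (1 : ℝ) ≤ n := by exact_mod_cast h
      have h4 : 0 ≤ |Real.log (A 1)| := abs_nonneg _
      nlinarith
  obtain ⟨l, hl⟩ := Pool.Agent.Lib.P8e4414.tendsto_of_near_superadd hmono hb0.ge hC
    (by positivity) (Nat.cast_nonneg M0) hsm hsb hsup
  have hb_nonneg : ∀ n, 0 ≤ b n := fun n => hb0 ▸ hmono (Nat.zero_le n)
  have hl0 : 0 ≤ l := ge_of_tendsto hl (Eventually.of_forall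
    (fun n => div_nonneg (hb_nonneg n) (Nat.cast_nonneg n)))
  refine ⟨l, hl0, ?_, fun m hm => hCpos m (by omega), ?_⟩
  · -- squeeze
    have hinv : Tendsto (fun n : ℕ => (1 : ℝ) / n) atTop (𝓝 0) :=
      tendsto_one_div_atTop_nhds_zero_nat
    have hlow : Tendsto (fun n : ℕ => b n / n + Real.log (A 1) * (1 / n)) atTop (𝓝 l) := by
      have := hl.add (hinv.const_mul (Real.log (A 1)))
      simpa using this
    have hlogn : Tendsto (fun n : ℕ => Real.log n / n) atTop (𝓝 0) := by
      have h1 := Real.isLittleO_log_id_atTop.tendsto_div_nhds_zero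
      have h2 := h1.comp tendsto_natCast_atTop_atTop
      simpa [Function.comp_def] using h2
    have hup : Tendsto (fun n : ℕ => b n / n + Real.log (A 1) * (1 / n) +
        (Real.log (4 * (k + 2)) * (1 / n) + Real.log n / n)) atTop (𝓝 l) := by
      have := hlow.add ((hinv.const_mul (Real.log (4 * (k + 2)))).add hlogn)
      simpa using this
    apply tendsto_of_tendsto_of_tendsto_of_le_of_le' hlow hup
    · filter_upwards [eventually_ge_atTop 2] with n hn
      have hn0 : (0 : ℝ) < n := by exact_mod_cast (by omega : 0 < n)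
      rw [hbn n (by omega)]
      have h1 := Real.log_le_log (hApos n (by omega)) (hAC n)
      have : (Real.log (A n) - Real.log (A 1)) / n + Real.log (A 1) * (1 / n) =
        Real.log (A n) / n := by field_simp; ring
      rw [this]
      exact div_le_div_of_nonneg_right h1 hn0.le
    · filter_upwards [eventually_ge_atTop 2] with n hn
      have hn0 : (0 : ℝ) < n := by exact_mod_cast (by omega : 0 < n)
      rw [hbn n (by omega)]
      have h1 := Real.log_le_log (hCpos n (by omega)) (hCA n hn)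
      rw [Real.log_mul (by positivity) (hApos n (by omega)).ne',
        Real.log_mul (by positivity) hn0.ne'] at h1
      have : (Real.log (A n) - Real.log (A 1)) / n + Real.log (A 1) * (1 / n) +
        (Real.log (4 * (k + 2)) * (1 / n) + Real.log n / n) =
        (Real.log (4 * (k + 2)) + Real.log n + Real.log (A n)) / n := by field_simp; ring
      rw [this]
      exact div_le_div_of_nonneg_right h1 hn0.le
  · refine ⟨4 * (k + 2) + Cs (k + 2) β (2 * 1) / A 1, ?_⟩
    intro m M hm hmM
    have hm1 : (1 : ℝ) ≤ m := by exact_mod_cast hm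
    have hAM : A m ≤ A M := As_mono hβ hmM
    have hCM := hAC M
    have hC1 := hCpos 1 le_rfl
    have hq : 0 ≤ Cs (k + 2) β (2 * 1) / A 1 := by positivity
    have hCMpos := hCpos M (by omega)
    rcases Nat.lt_or_ge m 2 with h | h
    · have : m = 1 := by omega
      subst this
      have h1 : A 1 ≤ Cs (k + 2) β (2 * M) := hAM.trans hCM
      have h2 : Cs (k + 2) β (2 * 1) = Cs (k + 2) β (2 * 1) / A 1 * A 1 := by field_simp
      have h3 : Cs (k + 2) β (2 * 1) / A 1 * A 1 ≤
          Cs (k + 2) β (2 * 1) / A 1 * Cs (k + 2) β (2 * M) :=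
        mul_le_mul_of_nonneg_left h1 hq
      have h4 : (0 : ℝ) ≤ 4 * (k + 2) * Cs (k + 2) β (2 * M) := by positivity
      push_cast
      nlinarith
    · have h1 := hCA m h
      have h2 : (4 * (k + 2) * m : ℝ) * A m ≤ (4 * (k + 2) * m : ℝ) * Cs (k + 2) β (2 * M) :=
        mul_le_mul_of_nonneg_left (hAM.trans hCM) (by positivity)
      have h3 : 0 ≤ Cs (k + 2) β (2 * 1) / A 1 * m * Cs (k + 2) β (2 * M) := by positivity
      nlinarith

end Pool.Agent.Lib.Pff0a55
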