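import Mathlib
import Pool.Agent.Lib.Pff0a55.Key
import Pool.Agent.Lib.Pff0a55.PolyLimit

/-!
# Equality of the free energies, from the gap closing theorem
-/

set_option autoImplicit false

open Finset Classical Filter Topology

namespace Pool.Agent.Lib.Pff0a55

variable {d : ℕ}

lemma poly_le_exp (K δ : ℝ) (m : ℕ) (hδ : 0 < δ) :
    ∀ᶠ n : ℕ in atTop, K * ((n : ℝ) + 1) ^ m ≤ Real.exp (δ * n) := by
  have h1 : Tendsto (fun n : ℕ => (n : ℝ) ^ m * (Real.exp (-δ)) ^ n) atTop (𝓝 0) := by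
    apply tendsto_pow_const_mul_const_pow_of_abs_lt_one
    rw [abs_of_pos (Real.exp_pos _)]
    rw [Real.exp_lt_one_iff]; linarith
  have h2 : Tendsto (fun n : ℕ => (|K| * 2 ^ m) * ((n : ℝ) ^ m * (Real.exp (-δ)) ^ n)) atTop
      (𝓝 ((|K| * 2 ^ m) * 0)) := h1.const_mul _
  rw [mul_zero] at h2
  have h3 : ∀ᶠ n : ℕ in atTop, (|K| * 2 ^ m) * ((n : ℝ) ^ m * (Real.exp (-δ)) ^ n) < 1 :=
    h2.eventually (gt_mem_nhds (by norm_num))
  filter_upwards [h3, eventually_ge_atTop 1] with n hn hn1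
  have h4 : (Real.exp (-δ)) ^ n = (Real.exp (δ * n))⁻¹ := by
    rw [← Real.exp_nat_mul, ← Real.exp_neg]
    congr 1; ring
  rw [h4] at hn
  have h5 : (1:ℝ) ≤ n := by exact_mod_cast hn1
  have h6 : ((n : ℝ) + 1) ^ m ≤ 2 ^ m * (n:ℝ) ^ m := by
    rw [← mul_pow]
    gcongr
    linarith
  have h7 : 0 < Real.exp (δ * n) := Real.exp_pos _
  have h8 : |K| * 2 ^ m * (n : ℝ) ^ m < Real.exp (δ * n) := by
    have : |K| * 2 ^ m * ((n : ℝ) ^ m * (Real.exp (δ * n))⁻¹) =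
        (|K| * 2 ^ m * (n : ℝ) ^ m) / Real.exp (δ * n) := by
      field_simp
    rw [this, div_lt_one h7] at hn
    exact hn
  calc K * ((n : ℝ) + 1) ^ m ≤ |K| * ((n : ℝ) + 1) ^ m := by
        gcongr; exact le_abs_self K
    _ ≤ |K| * (2 ^ m * (n:ℝ) ^ m) := by gcongr
    _ = |K| * 2 ^ m * (n : ℝ) ^ m := by ring
    _ ≤ _ := h8.le

lemma Cs_nonneg (β : ℝ) (N : ℕ) : 0 ≤ Cs d β N :=
  Finset.sum_nonneg fun _ _ => (wt_pos β _).le

lemma aux_p1 {n K : ℝ} (hn : 0 ≤ n) (hK : 20 ≤ K) : 2 * n + 1 ≤ K * (n + 1) ^ 2 := by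
  nlinarith [mul_nonneg (sub_nonneg.mpr hK) (sq_nonneg (n + 1))]

lemma aux_p2 {n q ρ K : ℝ} (hn : 0 ≤ n) (hq : q ≤ n) (hρ : 0 ≤ ρ) (hK : 20 + ρ ≤ K) :
    2 * n + 2 + (4 * (q + 1) + ρ) + 2 ≤ K * (n + 1) ^ 2 := by
  have h1 : (1:ℝ) ≤ (n + 1) ^ 2 := by nlinarith
  have h2 : (20 + ρ) * (n + 1) ^ 2 ≤ K * (n + 1) ^ 2 := by gcongr
  nlinarith [mul_nonneg hρ (sub_nonneg.mpr h1)]

lemma aux_p3 {n K : ℝ} (hn : 0 ≤ n) (hK : 20 ≤ K) : (n + 1) * (n + 1) + 1 ≤ K * (n + 1) ^ 2 := by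
  nlinarith [mul_nonneg (sub_nonneg.mpr hK) (sq_nonneg (n + 1))]

lemma aux_p4 {n x A R θ K1 K : ℝ} (hn : 0 ≤ n) (hx : x ≤ n) (hA : A ≤ θ * n + K1)
    (hθ : 0 ≤ θ) (hK1 : 0 ≤ K1) (hR : R ≤ n + (x + 1) + (2 * n + 2 + A) + 1)
    (hK : 20 + 2 * θ + 2 * K1 ≤ K) : 2 * R + 1 ≤ K * (n + 1) ^ 2 := by
  have h1 : (1:ℝ) ≤ (n + 1) ^ 2 := by nlinarith
  have h0 : n ≤ (n + 1) ^ 2 := by nlinarith
  have h2 : (20 + 2 * θ + 2 * K1) * (n + 1) ^ 2 ≤ K * (n + 1) ^ 2 := by gcongr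
  nlinarith [mul_nonneg hK1 (sub_nonneg.mpr h1), mul_nonneg hθ (sub_nonneg.mpr h0)]

lemma aux_A {n q x c r θ C K1 : ℝ} (hc : 0 ≤ c) (hn : 0 ≤ n) (hqx : q ≤ x)
    (hx : 4 * c * x ≤ θ / 2 * n) (hK : K1 = c * (4 + r * r) + θ / 2 + C) :
    c * (4 * (q + 1) + r * r) + θ / 4 * (2 * n + 2) + C ≤ θ * n + K1 := by
  have h1 : c * (4 * q) ≤ c * (4 * x) := by gcongr
  rw [hK]
  nlinarith

/-- The asymptotic key inequality. -/
theorem key (hd : 2 ≤ d) {β : ℝ} (hβ : 0 ≤ β) (hcl : ClosingStmt d) (η : ℝ) (hη : 0 < η) :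
    ∀ᶠ n : ℕ in atTop, (Zs d β n) ^ 2 ≤
      Real.exp (η * n) * ∑ N ∈ range (⌊(2 + η) * n⌋₊ + 1), Cs d β N := by
  obtain ⟨c, hc⟩ := hcl
  -- parameters
  set θ : ℝ := η / (8 * (1 + 3 / 2 * β)) with hθ
  have hβ1 : 0 < 1 + 3 / 2 * β := by positivity
  have hθ0 : 0 < θ := by positivity
  have hθ1 : (1 + 3 / 2 * β) * θ = η / 8 := by rw [hθ]; field_simp
  have hθ2 : θ ≤ η / 8 := by
    rw [← hθ1]
    nlinarith
  obtain ⟨r, hr1, hr⟩ : ∃ r : ℕ, 1 ≤ r ∧ 4 * (c : ℝ) / r ≤ θ / 2 := by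
    obtain ⟨r, hr⟩ := exists_nat_ge (8 * (c : ℝ) / θ)
    refine ⟨r + 1, by omega, ?_⟩
    rw [div_le_iff₀ (by positivity)]
    rw [div_le_iff₀ hθ0] at hr
    push_cast
    nlinarith
  have hrpos : (0:ℝ) < r := by exact_mod_cast hr1
  obtain ⟨C, hC⟩ := hc (r * r + 2) (θ / 4) (by positivity)
  set K1 : ℝ := c * (4 + r * r) + θ / 2 + C with hK1
  have hK10 : 0 ≤ K1 := by positivity
  set K2 : ℝ := 20 + (r:ℝ) * r + 2 * θ + 2 * K1 with hK2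
  have hK20 : 0 ≤ K2 := by positivity
  set mm : ℕ := 2 * (2 * d + C + r * r) with hmm
  have hev := poly_le_exp (K2 ^ (2 * d + C + r * r) *
    Real.exp (2 * d * β * (r * r) + (1 + 3 / 2 * β) * K1)) (η / 2) mm (by positivity)
  obtain ⟨n1, hn1⟩ := exists_nat_ge ((4 + 2 * K1) / η)
  filter_upwards [hev, eventually_ge_atTop (max 3 n1)] with n hn hn3'
  have hn3 : 3 ≤ n := (le_max_left _ _).trans hn3'
  have hnn1 : (n1 : ℝ) ≤ n := by exact_mod_cast (le_max_right _ _).trans hn3'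
  set N := 2 * n + 2 with hN
  set D := 4 * (n / r + 1) + r * r with hD
  set A : ℝ := c * D + θ / 4 * N + C with hA
  have hn0 : (0:ℝ) ≤ n := by positivity
  have hdiv : ((n / r : ℕ) : ℝ) ≤ (n:ℝ) / r := Nat.cast_div_le
  have hdiv2 : (n:ℝ) / r ≤ n := by
    apply div_le_self hn0
    exact_mod_cast hr1
  have eD : (D : ℝ) = 4 * (((n / r : ℕ) : ℝ) + 1) + r * r := by rw [hD]; push_cast; ring
  have eN : (N : ℝ) = 2 * n + 2 := by rw [hN]; push_cast; ring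
  have hA1 : A ≤ θ * n + K1 := by
    have e3 : 4 * (c : ℝ) * ((n:ℝ) / r) = (4 * (c:ℝ) / r) * n := by field_simp
    have e4 : (4 * (c:ℝ) / r) * n ≤ θ / 2 * n := by gcongr
    rw [hA, eD, eN]
    exact aux_A (by positivity) hn0 hdiv (e3 ▸ e4) hK1
  have hA0 : 0 ≤ A := by positivity
  obtain ⟨f, hf1, hf2⟩ := hC N D
  set R := ⌈(n + (n / r + 1) : ℝ) + (N + A)⌉₊ with hR
  set B := ⌈(N : ℝ) + A⌉₊ with hB
  have hRle : (R : ℝ) ≤ (n + (n / r + 1) : ℝ) + (N + A) + 1 :=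
    (Nat.ceil_lt_add_one (by positivity)).le
  have hBle : (B : ℝ) ≤ (N : ℝ) + A + 1 := (Nat.ceil_lt_add_one (by positivity)).le
  have key1 := key_finite hd hβ c r hr1 (θ / 4) C (by positivity) n hn3 N D hN hD f hf1 hf2 R B
    (Nat.le_ceil _) (Nat.le_ceil _)
  rw [← hA] at key1
  refine key1.trans ?_
  -- the range of the sum
  have hBη : B ≤ ⌊(2 + η) * n⌋₊ := by
    apply Nat.le_floor
    have e3 : 4 + 2 * K1 ≤ η * n := by
      have := hn1.trans hnn1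
      rw [div_le_iff₀ hη] at this
      linarith
    have e4 : θ * n ≤ η / 8 * n := by gcongr
    rw [eN] at hBle
    linarith
  have hsum : ∑ N ∈ range (B + 1), Cs d β N ≤ ∑ N ∈ range (⌊(2 + η) * n⌋₊ + 1), Cs d β N := by
    apply Finset.sum_le_sum_of_subset_of_nonneg
    · intro x hx
      rw [Finset.mem_range] at hx ⊢
      omega
    · intro x _ _
      exact Cs_nonneg β x
  have hsum0 : 0 ≤ ∑ N ∈ range (⌊(2 + η) * n⌋₊ + 1), Cs d β N :=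
    Finset.sum_nonneg fun _ _ => Cs_nonneg β _
  have hsumB0 : 0 ≤ ∑ N ∈ range (B + 1), Cs d β N :=
    Finset.sum_nonneg fun _ _ => Cs_nonneg β _
  -- the polynomial factors
  set P : ℝ := K2 * ((n:ℝ) + 1) ^ 2 with hP
  have hP0 : 0 ≤ P := by positivity
  have hrr : (0:ℝ) ≤ (r:ℝ) * r := by positivity
  have p1 : (2 * n + 1 : ℝ) ≤ P := aux_p1 hn0 (by rw [hK2]; linarith)
  have p2 : (N + D + 2 : ℝ) ≤ P := by
    rw [eD, eN]
    exact aux_p2 hn0 (hdiv.trans hdiv2) hrr (by rw [hK2]; linarith)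
  have p3 : (((n + 1) * (n + 1) + 1 : ℕ) : ℝ) ≤ P := by
    have := aux_p3 hn0 (K := K2) (by rw [hK2]; linarith)
    push_cast
    exact this
  have p4 : (2 * R + 1 : ℝ) ≤ P := by
    rw [eN] at hRle
    exact aux_p4 hn0 hdiv2 hA1 hθ0.le hK10 hRle (by rw [hK2]; linarith)
  have q1 : (2 * n + 1 : ℝ) ^ d ≤ P ^ d := by gcongr
  have q2 : (N + D + 2 : ℝ) ^ C ≤ P ^ C := by gcongr
  have q3 : (((n + 1) * (n + 1) + 1 : ℕ) : ℝ) ^ (r * r) ≤ P ^ (r * r) := by gcongr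
  have q4 : (2 * R + 1 : ℝ) ^ d ≤ P ^ d := by gcongr
  set TT := ∑ N ∈ range (⌊(2 + η) * n⌋₊ + 1), Cs d β N with hTT
  have hexp : Real.exp (3 / 2 * β * A) * Real.exp A ≤
      Real.exp (η / 2 * n) * Real.exp ((1 + 3 / 2 * β) * K1) := by
    rw [← Real.exp_add, ← Real.exp_add]
    apply Real.exp_le_exp.mpr
    have e1 : (1 + 3 / 2 * β) * A ≤ (1 + 3 / 2 * β) * (θ * n + K1) := by gcongr
    have e2 : (1 + 3 / 2 * β) * (θ * n) = η / 8 * n := by rw [← hθ1]; ring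
    have e3 : 0 ≤ η * n := by positivity
    linarith
  have hpow : P ^ (2 * d + C + r * r) = P ^ d * P ^ d * P ^ C * P ^ (r * r) := by
    rw [pow_add, pow_add, two_mul, pow_add]
  calc (2 * n + 1 : ℝ) ^ d * (Real.exp (2 * d * β * (r * r)) *
      (Real.exp (3 / 2 * β * A) *
      ((Real.exp A * (N + D + 2 : ℝ) ^ C * (((n + 1) * (n + 1) + 1 : ℕ) : ℝ) ^ (r * r)) *
      ((2 * R + 1 : ℝ) ^ d * ∑ N ∈ range (B + 1), Cs d β N))))
      ≤ P ^ d * (Real.exp (2 * d * β * (r * r)) *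
      (Real.exp (3 / 2 * β * A) *
      ((Real.exp A * P ^ C * P ^ (r * r)) * (P ^ d * TT)))) := by gcongr
    _ = (Real.exp (3 / 2 * β * A) * Real.exp A) * (Real.exp (2 * d * β * (r * r)) *
          P ^ (2 * d + C + r * r) * TT) := by
        rw [hpow]; ring
    _ ≤ (Real.exp (η / 2 * n) * Real.exp ((1 + 3 / 2 * β) * K1)) *
          (Real.exp (2 * d * β * (r * r)) * P ^ (2 * d + C + r * r) * TT) := by
        gcongr
    _ = Real.exp (η / 2 * n) * ((K2 ^ (2 * d + C + r * r) *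
          Real.exp (2 * d * β * (r * r) + (1 + 3 / 2 * β) * K1)) * ((n:ℝ) + 1) ^ mm) * TT := by
        rw [hP, mul_pow, ← pow_mul, hmm, Real.exp_add]; ring
    _ ≤ Real.exp (η / 2 * n) * Real.exp (η / 2 * n) * TT := by gcongr
    _ = Real.exp (η * n) * TT := by
        rw [← Real.exp_add]; congr 2; ring

end Pool.Agent.Lib.Pff0a55
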