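import Mathlib
import Pool.Agent.Lib.Pff0a55.Final

/-!
# Equality of the free energies
-/

set_option autoImplicit false

open Finset Classical Filter Topology

namespace Pool.Agent.Lib.Pff0a55

variable {d : ℕ}

/-- Dropping the last vertex. -/
lemma Zs_succ_le {β : ℝ} (hβ : 0 ≤ β) (n : ℕ) :
    Zs d β (n + 1) ≤ (2 * d * Real.exp (2 * d * β)) * Zs d β n := by
  have hmem : ∀ w ∈ sawF d (n + 1), w.dropLast ∈ sawF d n := by
    intro w hw
    rw [mem_sawF] at hw ⊢
    obtain ⟨⟨h1, h2⟩, h3, h4⟩ := hw
    have hw0 : w ≠ [] := by rintro rfl; simp at h4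
    have h6 : w.dropLast ++ [w.getLast hw0] = w := List.dropLast_append_getLast hw0
    have h7 : w.dropLast.IsChain Adj := by
      rw [← h6, List.isChain_append] at h2
      exact h2.1
    refine ⟨⟨h1.sublist (List.dropLast_sublist w), h7⟩,
      by rw [List.length_dropLast, h3]; omega, ?_⟩
    obtain ⟨a, t, rfl⟩ : ∃ a t, w = a :: t := by
      cases w with
      | nil => simp at h4
      | cons a t => exact ⟨a, t, rfl⟩
    cases t with
    | nil => simp at h3
    | cons b t => simpa using h4
  have hwt : ∀ w ∈ sawF d (n + 1), wt β w.toFinset ≤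
      Real.exp (2 * d * β) * wt β w.dropLast.toFinset := by
    intro w hw
    rw [mem_sawF] at hw
    have hw0 : w ≠ [] := by rintro rfl; simp at hw
    have h1 := wt_le_sdiff hβ w.toFinset {w.getLast hw0}
    have h2 : w.toFinset \ {w.getLast hw0} = w.dropLast.toFinset := by
      ext x
      simp only [Finset.mem_sdiff, List.mem_toFinset, Finset.mem_singleton]
      have h3 : w.dropLast ++ [w.getLast hw0] = w := List.dropLast_append_getLast hw0
      have h4 : (w.dropLast ++ [w.getLast hw0]).Nodup := by rw [h3]; exact hw.1.1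
      rw [List.nodup_append] at h4
      constructor
      · rintro ⟨h5, h6⟩
        rw [← h3, List.mem_append] at h5
        rcases h5 with h5 | h5
        · exact h5
        · exact absurd (List.mem_singleton.mp h5) h6
      · intro h5
        refine ⟨List.mem_of_mem_dropLast h5, ?_⟩
        exact h4.2.2 x h5 _ (List.mem_singleton.mpr rfl)
    rw [h2] at h1
    simpa using h1
  have hfib : ∀ v, (((sawF d (n + 1)).filter (fun w => w.dropLast = v)).card : ℝ) ≤ 2 * d := by
    intro v
    have h1 : ((sawF d (n + 1)).filter (fun w => w.dropLast = v)).card ≤ 2 * d := by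
      calc ((sawF d (n + 1)).filter (fun w => w.dropLast = v)).card
          ≤ ((Finset.univ : Finset (Fin d × Bool)).image
              (fun s => v ++ [v.getLastD 0 + uvec s])).card := by
            apply Finset.card_le_card
            intro w hw
            rw [Finset.mem_filter, mem_sawF] at hw
            obtain ⟨⟨⟨h1, h2⟩, h3, h4⟩, rfl⟩ := hw
            have hw0 : w ≠ [] := by rintro rfl; simp at h3
            have h5 : w.dropLast ++ [w.getLast hw0] = w := List.dropLast_append_getLast hw0
            have hd0 : w.dropLast ≠ [] := by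
              rw [← List.length_pos_iff, List.length_dropLast, h3]; omega
            have h6 : w.dropLast.dropLast ++ [w.dropLast.getLast hd0] = w.dropLast :=
              List.dropLast_append_getLast hd0
            have h7 : Adj (w.dropLast.getLast hd0) (w.getLast hw0) := by
              rw [← h5, List.isChain_append] at h2
              exact h2.2.2 _ (by rw [List.getLast?_eq_some_getLast hd0]; rfl) _ (by simp)
            obtain ⟨s, hs⟩ := adj_iff_exists.mp h7
            rw [Finset.mem_image]
            refine ⟨s, Finset.mem_univ _, ?_⟩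
            have h8 : w.dropLast.getLastD 0 = w.dropLast.getLast hd0 := by
              rw [List.getLastD_eq_getLast?, List.getLast?_eq_some_getLast hd0]; rfl
            rw [h8, ← hs, h5]
        _ ≤ (Finset.univ : Finset (Fin d × Bool)).card := Finset.card_image_le
        _ = 2 * d := by simp [mul_comm]
    exact_mod_cast h1
  unfold Zs
  calc ∑ w ∈ sawF d (n + 1), wt β w.toFinset
      ≤ ∑ w ∈ sawF d (n + 1), Real.exp (2 * d * β) * wt β w.dropLast.toFinset :=
        Finset.sum_le_sum hwt
    _ = Real.exp (2 * d * β) * ∑ w ∈ sawF d (n + 1), wt β w.dropLast.toFinset := by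
        rw [Finset.mul_sum]
    _ ≤ Real.exp (2 * d * β) * (2 * d *
          ∑ v ∈ (sawF d (n + 1)).image List.dropLast, wt β v.toFinset) := by
        gcongr
        exact sum_comp_le (sawF d (n + 1)) List.dropLast (fun v => wt β v.toFinset)
          (fun v => (wt_pos β _).le) (2 * d) hfib
    _ ≤ Real.exp (2 * d * β) * (2 * d * ∑ v ∈ sawF d n, wt β v.toFinset) := by
        have hle : ∑ v ∈ (sawF d (n + 1)).image List.dropLast, wt β v.toFinset ≤
            ∑ v ∈ sawF d n, wt β v.toFinset := by
          apply Finset.sum_le_sum_of_subset_of_nonneg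
          · intro v hv
            obtain ⟨w, hw, rfl⟩ := Finset.mem_image.mp hv
            exact hmem w hw
          · intro v _ _
            exact (wt_pos β _).le
        exact mul_le_mul_of_nonneg_left (mul_le_mul_of_nonneg_left hle (by positivity))
          (Real.exp_pos _).le
    _ = _ := by ring

/-- Polygons are walks. -/
lemma Cs_le_Zs (β : ℝ) (n : ℕ) : Cs d β (n + 1) ≤ Zs d β n := by
  unfold Cs Zs
  apply Finset.sum_le_sum_of_subset_of_nonneg
  · intro L hL
    rw [mem_polyF] at hL
    rw [mem_sawF]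
    exact ⟨⟨hL.1.1, hL.1.2.1⟩, hL.2⟩
  · intro L _ _
    exact (wt_pos β _).le

/-- Parity: there are no polygons of odd length. -/
lemma Cs_odd (β : ℝ) (m : ℕ) : Cs d β (2 * m + 1) = 0 := by
  unfold Cs
  apply Finset.sum_eq_zero
  intro L hL
  exfalso
  rw [mem_polyF] at hL
  obtain ⟨⟨h1, h2, h3⟩, h4, h5⟩ := hL
  -- parity of the coordinate sum
  have hpar : ∀ x y : Vtx d, Adj x y → (∑ i, y i) % 2 = (∑ i, x i + 1) % 2 := by
    intro x y hxy
    obtain ⟨⟨j, b⟩, rfl⟩ := adj_iff_exists.mp hxy
    have : ∑ i, (x + uvec (j, b)) i = ∑ i, x i + (if b then 1 else -1) := by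
      simp only [Pi.add_apply, Finset.sum_add_distrib]
      congr 1
      unfold uvec
      simp
    rw [this]
    cases b <;> simp <;> omega
  have hind : ∀ t (ht : t < L.length), (∑ i, (L[t]) i) % 2 = (t : ℤ) % 2 := by
    intro t
    induction t with
    | zero =>
      intro ht
      have : L[0] = 0 := by
        rw [List.head?_eq_getElem?, List.getElem?_eq_getElem ht] at h5
        exact Option.some.inj h5
      rw [this]; simp
    | succ t ih =>
      intro ht
      rw [List.isChain_iff_getElem] at h2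
      have := hpar _ _ (h2 t ht)
      rw [this]
      have h6 := ih (by omega)
      push_cast
      omega
  have hl := hind (2 * m) (by omega)
  have hlast : Adj (L[2 * m]'(by omega)) 0 := by
    apply h3 0 (by rw [h5]; rfl)
    rw [List.getLast?_eq_getElem?, List.getElem?_eq_getElem (by omega)]
    rw [Option.mem_some_iff]
    congr 1; omega
  have := hpar _ _ hlast
  simp at this
  push_cast at hl
  omega

lemma Cs_zero (β : ℝ) : Cs d β 0 = 0 := by
  unfold Cs
  apply Finset.sum_eq_zero
  intro L hL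
  exfalso
  rw [mem_polyF] at hL
  obtain ⟨_, h4, h5⟩ := hL
  rw [List.length_eq_zero_iff] at h4
  rw [h4] at h5
  simp at h5

/-- Equality of the free energies, in terms of lists. -/
theorem tendsto_log_Zs (hd : 2 ≤ d) {β : ℝ} (hβ : 0 ≤ β) (hcl : ClosingStmt d) :
    ∃ l : ℝ, Tendsto (fun n : ℕ => Real.log (Zs d β n) / n) atTop (𝓝 (l / 2)) ∧
      (∀ n, 0 < Zs d β n) ∧
      Tendsto (fun m : ℕ => Real.log (Cs d β (2 * m)) / m) atTop (𝓝 l) ∧
      (∀ m, 2 ≤ m → 0 < Cs d β (2 * m)) := by
  obtain ⟨l, hl0, hlim, hpos, K, hK⟩ := poly_limit hd hβ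
  have hKpos : 0 < K := by
    have h1 := hK 2 2 (by norm_num) le_rfl
    have h2 := hpos 2 le_rfl
    by_contra hcon
    push Not at hcon
    have : K * ((2:ℕ):ℝ) * Cs d β (2 * 2) ≤ 0 := by
      have h3 : K * ((2:ℕ):ℝ) ≤ 0 := by push_cast; linarith
      exact mul_nonpos_of_nonpos_of_nonneg h3 h2.le
    linarith
  set κ : ℝ := 2 * d * Real.exp (2 * d * β) with hκ
  have hd0 : (0:ℝ) < d := by exact_mod_cast (by omega : 0 < d)
  have hκ1 : 1 ≤ κ := by
    have h1 : (2:ℝ) ≤ d := by exact_mod_cast hd
    have h2 : (1:ℝ) ≤ Real.exp (2 * d * β) := Real.one_le_exp (by positivity)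
    rw [hκ]; nlinarith
  have hκ0 : 0 < κ := by linarith
  have hZodd : ∀ m, 2 ≤ m → 0 < Zs d β (2 * m - 1) := by
    intro m hm
    have h1 := Cs_le_Zs (d := d) β (2 * m - 1)
    rw [Nat.sub_add_cancel (by omega)] at h1
    exact (hpos m hm).trans_le h1
  have hZpos : ∀ n, 0 < Zs d β n := by
    have step : ∀ k n, 0 < Zs d β (n + k) → 0 < Zs d β n := by
      intro k
      induction k with
      | zero => intro n h; exact h
      | succ k ih =>
        intro n h
        apply ih
        have h1 := Zs_succ_le (d := d) hβ (n + k)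
        rw [← hκ] at h1
        have h2 : 0 < κ * Zs d β (n + k) := lt_of_lt_of_le h h1
        exact (mul_pos_iff_of_pos_left hκ0).mp h2
    intro n
    apply step (n + 3) n
    have := hZodd (n + 2) (by omega)
    have e : 2 * (n + 2) - 1 = n + (n + 3) := by omega
    rwa [e] at this
  refine ⟨l, ?_, hZpos, hlim, hpos⟩
  -- lower bound
  have hlow : ∀ n : ℕ, 2 ≤ n → Real.log (Cs d β (2 * (n / 2 + 1))) - Real.log κ ≤
      Real.log (Zs d β n) := by
    intro n hn
    have hlκ : 0 ≤ Real.log κ := Real.log_nonneg hκ1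
    rcases Nat.even_or_odd' n with ⟨k, hk | hk⟩
    · have e : n / 2 + 1 = k + 1 := by omega
      rw [e]
      have h1 := Cs_le_Zs (d := d) β (n + 1)
      have e2 : n + 1 + 1 = 2 * (k + 1) := by omega
      rw [e2] at h1
      have h2 := Zs_succ_le (d := d) hβ n
      rw [← hκ] at h2
      have h3 := Real.log_le_log (hpos (k + 1) (by omega)) (h1.trans h2)
      rw [Real.log_mul hκ0.ne' (hZpos n).ne'] at h3
      linarith
    · have e : n / 2 + 1 = k + 1 := by omega
      rw [e]
      have h1 := Cs_le_Zs (d := d) β n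
      have e2 : n + 1 = 2 * (k + 1) := by omega
      rw [e2] at h1
      have h3 := Real.log_le_log (hpos (k + 1) (by omega)) h1
      linarith
  have hhalf : Tendsto (fun n : ℕ => ((n / 2 + 1 : ℕ) : ℝ) / n) atTop (𝓝 (1 / 2)) := by
    have h1 : Tendsto (fun n : ℕ => (1:ℝ) / 2 - 1 / (n:ℝ)) atTop (𝓝 (1 / 2 - 0)) := by
      apply Tendsto.sub tendsto_const_nhds
      exact tendsto_one_div_atTop_nhds_zero_nat
    have h2 : Tendsto (fun n : ℕ => (1:ℝ) / 2 + 1 / (n:ℝ)) atTop (𝓝 (1 / 2 + 0)) := by
      apply Tendsto.add tendsto_const_nhds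
      exact tendsto_one_div_atTop_nhds_zero_nat
    rw [sub_zero] at h1
    rw [add_zero] at h2
    apply tendsto_of_tendsto_of_tendsto_of_le_of_le' h1 h2
    · filter_upwards [eventually_ge_atTop 1] with n hn
      have hn' : (0:ℝ) < n := by exact_mod_cast hn
      rw [le_div_iff₀ hn']
      have h3 : (n : ℝ) ≤ 2 * ((n / 2 + 1 : ℕ) : ℝ) := by
        exact_mod_cast (by omega : n ≤ 2 * (n / 2 + 1))
      have : ((1:ℝ) / 2 - 1 / n) * n = n / 2 - 1 := by field_simp
      rw [this]; linarith
    · filter_upwards [eventually_ge_atTop 1] with n hn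
      have hn' : (0:ℝ) < n := by exact_mod_cast hn
      rw [div_le_iff₀ hn']
      have h3 : 2 * ((n / 2 + 1 : ℕ) : ℝ) ≤ (n : ℝ) + 2 := by
        exact_mod_cast (by omega : 2 * (n / 2 + 1) ≤ n + 2)
      have : ((1:ℝ) / 2 + 1 / n) * n = n / 2 + 1 := by field_simp
      rw [this]; linarith
  have hdiv2 : Tendsto (fun n : ℕ => n / 2 + 1) atTop atTop := by
    apply tendsto_atTop_mono (f := fun n : ℕ => n / 2) (fun n => by simp)
    exact Nat.tendsto_div_const_atTop (by norm_num)
  have hlowlim : Tendsto (fun n : ℕ => (Real.log (Cs d β (2 * (n / 2 + 1))) - Real.log κ) / n)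
      atTop (𝓝 (l / 2)) := by
    have h1 : Tendsto (fun n : ℕ => Real.log (Cs d β (2 * (n / 2 + 1))) /
        ((n / 2 + 1 : ℕ) : ℝ)) atTop (𝓝 l) := hlim.comp hdiv2
    have h2 := (h1.mul hhalf).sub
      ((tendsto_one_div_atTop_nhds_zero_nat (𝕜 := ℝ)).const_mul (Real.log κ))
    have e : l * (1 / 2) - Real.log κ * 0 = l / 2 := by ring
    rw [e] at h2
    apply h2.congr'
    filter_upwards [eventually_ge_atTop 1] with n hn
    have hn' : (n:ℝ) ≠ 0 := by positivity
    have hm' : ((n / 2 + 1 : ℕ) : ℝ) ≠ 0 := by positivity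
    field_simp
  -- upper bound
  have hupp : ∀ δ : ℝ, 0 < δ → ∀ᶠ n : ℕ in atTop, Real.log (Zs d β n) / n ≤ l / 2 + δ := by
    intro δ hδ
    set η : ℝ := min 1 (2 * δ / (5 + l)) with hη
    have hη0 : 0 < η := by
      rw [hη]; apply lt_min (by norm_num); positivity
    have hη1 : η ≤ 1 := min_le_left _ _
    have hη2 : η * (5 + l) ≤ 2 * δ := by
      have : η ≤ 2 * δ / (5 + l) := min_le_right _ _
      rwa [le_div_iff₀ (by positivity)] at this
    have hfl : Tendsto (fun n : ℕ => ⌊(2 + η) * (n:ℝ)⌋₊ / 2) atTop atTop := by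
      apply tendsto_atTop_mono (f := fun n : ℕ => n)
      · intro n
        have h1 : 2 * n ≤ ⌊(2 + η) * (n:ℝ)⌋₊ := by
          apply Nat.le_floor
          push_cast
          have : (0:ℝ) ≤ η * n := by positivity
          linarith
        omega
      · exact tendsto_id
    have hlimM : ∀ᶠ n : ℕ in atTop,
        Real.log (Cs d β (2 * (⌊(2 + η) * (n:ℝ)⌋₊ / 2))) / ((⌊(2 + η) * (n:ℝ)⌋₊ / 2 : ℕ) : ℝ) ≤
          l + η := by
      have h1 := (hlim.comp hfl).eventually (ge_mem_nhds (show l < l + η by linarith))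
      exact h1
    filter_upwards [key hd hβ hcl η hη0, poly_le_exp (9 * K) η 2 hη0, hlimM,
      eventually_ge_atTop 4] with n hn1 hn2 hn3 hn4
    set B := ⌊(2 + η) * (n:ℝ)⌋₊ with hB
    set M := B / 2 with hM
    have hn' : (0:ℝ) < n := by exact_mod_cast (by omega : 0 < n)
    have hBn : 2 * n ≤ B := by
      apply Nat.le_floor
      push_cast
      have : (0:ℝ) ≤ η * n := by positivity
      linarith
    have hBle : (B:ℝ) ≤ (2 + η) * n := Nat.floor_le (by positivity)
    have hM2 : 2 ≤ M := by omega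
    have hMB : (M:ℝ) ≤ B / 2 := by
      have : ((B / 2 : ℕ) : ℝ) ≤ (B:ℝ) / ((2:ℕ):ℝ) := Nat.cast_div_le
      simpa using this
    have hMpos : (0:ℝ) < M := by exact_mod_cast (by omega : 0 < M)
    have hterm : ∀ N ∈ range (B + 1), Cs d β N ≤ K * M * Cs d β (2 * M) := by
      intro N hN
      rw [Finset.mem_range] at hN
      have hCM := (hpos M hM2).le
      rcases Nat.even_or_odd' N with ⟨k, hk | hk⟩
      · rcases Nat.eq_zero_or_pos k with h0 | h0
        · subst h0
          rw [hk, Nat.mul_zero, Cs_zero]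
          positivity
        · rw [hk]
          have h1 := hK k M h0 (by omega)
          have h2 : (k:ℝ) ≤ M := by exact_mod_cast (by omega : k ≤ M)
          calc Cs d β (2 * k) ≤ K * k * Cs d β (2 * M) := h1
            _ ≤ K * M * Cs d β (2 * M) := by gcongr
      · rw [hk, Cs_odd]
        positivity
    have hsum : ∑ N ∈ range (B + 1), Cs d β N ≤ (B + 1) * (K * M * Cs d β (2 * M)) := by
      calc ∑ N ∈ range (B + 1), Cs d β N ≤ ∑ _N ∈ range (B + 1), K * M * Cs d β (2 * M) :=
            Finset.sum_le_sum hterm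
        _ = _ := by rw [Finset.sum_const, Finset.card_range, nsmul_eq_mul]; push_cast; ring
    have hB3 : (B:ℝ) ≤ 3 * n := by nlinarith
    have hpoly : ((B:ℝ) + 1) * (K * M) ≤ Real.exp (η * n) := by
      refine le_trans ?_ hn2
      have h1 : (B:ℝ) + 1 ≤ 3 * (n + 1) := by linarith
      have h2 : (M:ℝ) ≤ 3 * (n + 1) := by linarith
      calc ((B:ℝ) + 1) * (K * M) ≤ (3 * (n + 1)) * (K * (3 * (n + 1))) := by gcongr
        _ = 9 * K * ((n:ℝ) + 1) ^ 2 := by ring
    have hCM := hpos M hM2
    have h1 : (Zs d β n) ^ 2 ≤ Real.exp (η * n) * (Real.exp (η * n) * Cs d β (2 * M)) := by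
      calc (Zs d β n) ^ 2 ≤ _ := hn1
        _ ≤ Real.exp (η * n) * ((B + 1) * (K * M * Cs d β (2 * M))) := by gcongr
        _ = Real.exp (η * n) * (((B:ℝ) + 1) * (K * M) * Cs d β (2 * M)) := by ring
        _ ≤ _ := by gcongr
    have h2 := Real.log_le_log (by have := hZpos n; positivity) h1
    rw [Real.log_pow, Real.log_mul (Real.exp_pos _).ne' (by positivity),
      Real.log_mul (Real.exp_pos _).ne' hCM.ne', Real.log_exp] at h2
    rw [div_le_iff₀ hMpos] at hn3
    rw [div_le_iff₀ hn']
    have h3 : (l + η) * M ≤ (l + η) * ((2 + η) * n / 2) := by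
      have : (M:ℝ) ≤ (2 + η) * n / 2 := by linarith
      gcongr
    have h4 : η * η ≤ η := by nlinarith
    have h5 : (η + η + (l + η) * ((2 + η) / 2)) ≤ l + 2 * δ := by nlinarith
    have h6 : (η + η + (l + η) * ((2 + η) / 2)) * n ≤ (l + 2 * δ) * n := by gcongr
    push_cast at h2
    nlinarith
  -- conclusion
  rw [Metric.tendsto_atTop]
  intro δ hδ
  have h1 := hlowlim.eventually (lt_mem_nhds (show l / 2 - δ < l / 2 by linarith))
  have h2 := hupp (δ / 2) (by positivity)
  obtain ⟨n0, hn0⟩ := eventually_atTop.mp (h1.and (h2.and (eventually_ge_atTop 2)))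
  refine ⟨n0, fun n hn => ?_⟩
  obtain ⟨h3, h4, h5⟩ := hn0 n hn
  have hn' : (0:ℝ) < n := by exact_mod_cast (by omega : 0 < n)
  have h6 : (Real.log (Cs d β (2 * (n / 2 + 1))) - Real.log κ) / n ≤
      Real.log (Zs d β n) / n := by
    gcongr
    exact hlow n h5
  rw [Real.dist_eq, abs_lt]
  constructor <;> linarith

end Pool.Agent.Lib.Pff0a55
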