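import Mathlib
import Pool.Agent.Lib.Pff0a55.Limit

/-!
# The frozen form of the statement, from the gap closing theorem
-/

set_option autoImplicit false

open Filter Classical

namespace Pool.Agent.Lib.Pff0a55

theorem main_of_closing (d : ℕ) (hd : 2 ≤ d) (hcl : ClosingStmt d) (β : ℝ) (hβ : 0 < β)
    (P : (n : ℕ) → (Fin n → Fin d × Bool) → ℕ → (Fin d → ℤ))
    (hP : ∀ (n : ℕ) (s : Fin n → Fin d × Bool) (t : ℕ),
        P n s t = ∑ j ∈ Finset.univ.filter (fun j : Fin n => j.val < t),
          (fun i : Fin d => if i = (s j).1 then (if (s j).2 then (1 : ℤ) else -1) else 0)) :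
    ∃ L : ℝ,
      Tendsto (fun n : ℕ =>
        Real.log (∑ s ∈ Finset.univ.filter (fun s : Fin n → Fin d × Bool =>
              ∀ a ∈ Finset.range (n + 1), ∀ b ∈ Finset.range (n + 1),
                P n s a = P n s b → a = b),
            Real.exp (β * (((Finset.range (n + 1) ×ˢ Finset.range (n + 1)).filter
              (fun p : ℕ × ℕ => p.1 + 1 < p.2 ∧
                ∑ i : Fin d, |P n s p.1 i - P n s p.2 i| = 1)).card : ℝ))) / (n : ℝ))
        atTop (nhds L) ∧
      Tendsto (fun m : ℕ =>
        Real.log ((1 / (2 * (2 * m : ℝ))) *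
          ∑ s ∈ Finset.univ.filter (fun s : Fin (2 * m) → Fin d × Bool =>
              P (2 * m) s (2 * m) = 0 ∧
              ∀ a ∈ Finset.range (2 * m), ∀ b ∈ Finset.range (2 * m),
                P (2 * m) s a = P (2 * m) s b → a = b),
            Real.exp (β * (((Finset.range (2 * m) ×ˢ Finset.range (2 * m)).filter
              (fun p : ℕ × ℕ => p.1 + 1 < p.2 ∧ ¬ (p.1 = 0 ∧ p.2 + 1 = 2 * m) ∧
                ∑ i : Fin d, |P (2 * m) s p.1 i - P (2 * m) s p.2 i| = 1)).card : ℝ)))
          / (2 * m : ℝ))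
        atTop (nhds L) := by
  have hPP : P = fun n s t => Pos s t := by
    funext n s t
    rw [hP]
    rfl
  subst hPP
  obtain ⟨l, h1, hZ, h2, hC⟩ := tendsto_log_Zs hd hβ.le hcl
  refine ⟨l / 2, ?_, ?_⟩
  · have h3 : Tendsto (fun n : ℕ => β * (1 / (n : ℝ)) + Real.log (Zs d β n) / n) atTop
        (nhds (β * 0 + l / 2)) :=
      ((tendsto_one_div_atTop_nhds_zero_nat (𝕜 := ℝ)).const_mul β).add h1
    rw [mul_zero, zero_add] at h3
    apply h3.congr'
    filter_upwards [eventually_ge_atTop 1] with n hn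
    have hn' : (n:ℝ) ≠ 0 := by positivity
    rw [sum_saw_eq, Real.log_mul (Real.exp_pos _).ne' (hZ n).ne', Real.log_exp]
    field_simp
  · have hlog : Tendsto (fun m : ℕ => Real.log (2 * (2 * m : ℝ)) / (2 * m : ℝ)) atTop (nhds 0) := by
      have h4 : Tendsto (fun x : ℝ => Real.log x / x) atTop (nhds 0) := by
        simpa using (Real.isLittleO_log_id_atTop).tendsto_div_nhds_zero
      have h5 : Tendsto (fun m : ℕ => 2 * (2 * (m : ℝ))) atTop atTop := by
        apply Tendsto.const_mul_atTop (by norm_num)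
        apply Tendsto.const_mul_atTop (by norm_num)
        exact tendsto_natCast_atTop_atTop
      have h6 := (h4.comp h5).const_mul 2
      rw [mul_zero] at h6
      apply h6.congr'
      filter_upwards [eventually_ge_atTop 1] with m hm
      have hm' : (m:ℝ) ≠ 0 := by positivity
      simp only [Function.comp_apply]
      field_simp
    have h3 : Tendsto (fun m : ℕ => (Real.log (Cs d β (2 * m)) / m) / 2 -
        Real.log (2 * (2 * m : ℝ)) / (2 * m : ℝ)) atTop (nhds (l / 2 - 0)) :=
      (h2.div_const 2).sub hlog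
    rw [sub_zero] at h3
    apply h3.congr'
    filter_upwards [eventually_ge_atTop 2] with m hm
    have hm' : (m:ℝ) ≠ 0 := by positivity
    have hm4 : (0:ℝ) < 2 * (2 * m) := by positivity
    have e1 : Real.log (Cs d β (2 * m)) / m / 2 - Real.log (2 * (2 * m : ℝ)) / (2 * m : ℝ) =
        Real.log ((1 / (2 * (2 * m : ℝ))) * Cs d β (2 * m)) / (2 * m : ℝ) := by
      rw [Real.log_mul (by positivity) (hC m hm).ne', one_div, Real.log_inv]
      field_simp
      ring
    rw [e1, ← sum_poly_eq β (2 * m) (by omega)]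
    congr!

end Pool.Agent.Lib.Pff0a55
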